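import Pool.Agent.Helper31.LQ.Defs

/-!
# Local minimality of the simplex for all affine quermassintegrals: goals

Each goal is a `Prop`; a packet `NAME` delivers `theorem gNAME : NAME` (hypotheses `hX : X` for the
other goals `X` that you need are allowed).  The paper proof is /team-store/lq_proof_6fb600.txt.
-/

open MeasureTheory Set
open scoped ENNReal Matrix
open Pool.Agent.Helper47.AQ

noncomputable section

namespace Pool.Agent.Helper31.LQ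

/-! ### Part X: sublinear functions and exponential variables -/

/-- **X1.**  Proof.  `P t = P (∑ t_a e_a) ≤ ∑ t_a P(e_a) ≤ C ∑ t_a` on `pos m`, and
`exp(-r ∑ t) ∑ t` is integrable on `pos m` (a sum of products of one-dimensional integrals, or
dominated by `C exp(-r ∑ t / 2)`, a product).  The value: substitution `t = u / r` in `ℝ^m`
(`Measure.setIntegral_comp_smul` or the like; `pos m` is invariant) and `P (u/r) = P u / r`. -/
def X1 : Prop := ∀ (m : ℕ) (P : (Fin m → ℝ) → ℝ), SL m P → ∀ r : ℝ, 0 < r →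
  IntegrableOn (fun t => Real.exp (-(r * ∑ a, t a)) * P t) (pos m) ∧
  ∫ t in pos m, Real.exp (-(r * ∑ a, t a)) * P t = (r ^ (m + 1))⁻¹ * Ex m P

/-- **X2.**  Proof.  Products of one-dimensional integrals (`exp(-∑) = ∏ exp`,
`MeasureTheory.integral_fintype_prod_eq_prod`, restricted measure = pi of restricted measures);
`∫_0^∞ exp(-r x) = 1/r`, `∫_0^∞ exp(-x) x = 1`. -/
def X2 : Prop := ∀ m : ℕ,
  (∀ r : ℝ, 0 < r → IntegrableOn (fun t : Fin m → ℝ => Real.exp (-(r * ∑ a, t a))) (pos m) ∧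
    ∫ t in pos m, Real.exp (-(r * ∑ a, t a)) = (r ^ m)⁻¹) ∧
  SL m (fun t => ∑ a, |t a|) ∧ Ex m (fun t => ∑ a, |t a|) = m

/-- **X3.**  Proof.  For `t` let `t^(a)` be `t` with `t_a` replaced by `0`; `m t = ∑_a t^(a)`, so
`m P(t) ≤ ∑_a P(t^(a))`.  Multiply by `exp(-∑ t)` and integrate over `pos (m+1)`; for each `a`
integrate out `t_a` (`MeasurableEquiv.piFinSuccAbove`, `volume_preserving_piFinSuccAbove`):
`∫_0^∞ exp(-x) dx = 1`. -/
def X3 : Prop := ∀ (m : ℕ) (P : (Fin (m + 1) → ℝ) → ℝ), SL (m + 1) P →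
  (m : ℝ) * Ex (m + 1) P ≤
    ∑ a : Fin (m + 1), Ex m fun s => P (a.insertNth (α := fun _ => ℝ) 0 s)

/-- **X4.**  Proof.  `P(t + r 1) ≤ P(t) + r P(1) = P(t)` for `r ≥ 0`.  Up to a null set `pos (m+1)`
is the disjoint union of the sets where `t_a` is the (strictly) smallest coordinate.  On it put
`t = insertNth a 0 s + r 1` with `r = t_a > 0`, `s ∈ pos m`, volume preserving
(`piFinSuccAbove`, then the translation `s ↦ s + r` for fixed `r`); `exp(-∑ t) =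
exp(-∑ s) exp(-(m+1) r)`.  So `Ex (m+1) P = ∑_a ∫_{s ∈ pos m} exp(-∑ s)
∫_{r > 0} exp(-(m+1) r) P(insertNth a 0 s + r 1)`.  For `r ≥ σ ∑ s`:
`P(insertNth a 0 s + r 1) ≤ P(insertNth a 0 s + σ ∑ s 1)`; for `r < σ ∑ s`: `≤ P(insertNth a 0 s)`.
`∫_0^∞ exp(-(m+1) r) = 1/(m+1)`, `∫_0^{σ ∑ s} exp(-(m+1)r) ≤ σ ∑ s`.  And
`∑ s exp(-∑ s) ≤ 2 exp(-∑ s / 2)`, `∫ exp(-∑ s/2) P' = 2^(m+1) Ex m P'` (`X1`).
So `C = (m+1) 2^(m+2)` works.  (It is convenient to do it with `lintegral` and `ENNReal.ofReal`.) -/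
def X4 : Prop := ∀ m : ℕ, ∃ C : ℝ, 0 ≤ C ∧ ∀ σ : ℝ, 0 ≤ σ → ∀ P : (Fin (m + 1) → ℝ) → ℝ,
  SL (m + 1) P → P (fun _ => 1) = 0 →
  ((m : ℝ) + 1) * Ex (m + 1) P ≤
    (∑ a : Fin (m + 1), Ex m fun s =>
      P (a.insertNth (α := fun _ => ℝ) 0 s + fun _ => σ * ∑ b, s b)) +
    C * σ * ∑ a : Fin (m + 1), Ex m fun s => P (a.insertNth (α := fun _ => ℝ) 0 s)

/-- **X5.**  Proof.  For `t ∈ B = (0, 1/4)^m`: `a = t/2 + (2a - t)/2`, `2a - t ∈ (3/4, 3)^m`, so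
`P(a) ≤ P(t)/2 + P(2a - t)/2`.  Integrate over `B`: `4^(-m) P(a) ≤ ∫_B P/2 + ∫_{(3/4,3)^m} P/2`
(substitution `t ↦ 2a - t` is measure preserving) `≤ exp(3m) Ex m P`, as `exp(-∑ t) ≥ exp(-3m)` on
both boxes, which are contained in `pos m`. -/
def X5 : Prop := ∀ m : ℕ, ∃ C : ℝ, 0 ≤ C ∧ ∀ P : (Fin m → ℝ) → ℝ, SL m P → ∀ a : Fin m → ℝ,
  (∀ b, 1 / 2 ≤ a b ∧ a b ≤ 3 / 2) → P a ≤ C * Ex m P

/-- **XP.**  Proof.  `volume_measurePreserving_piCongrLeft` or `MeasurableEquiv.piCongrLeft`: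
the permutation of the coordinates preserves the volume, `pos m` and `∑ t_a`. -/
def XP : Prop := ∀ (m : ℕ) (ρ : Equiv.Perm (Fin m)) (P : (Fin m → ℝ) → ℝ),
  Ex m (fun t => P fun a => t (ρ a)) = Ex m P

/-- **X7.**  Proof.  For `a : Fin (m+1)` let `τ_a` be the permutation of `Fin (n+1)` with
`τ_a(b) = a.succAbove b` for `b < m`, `τ_a(m) = a`, `τ_a(b) = b` for `b > m`.  Then
`emb (m+1) π (insertNth a 0 s) = emb m (π * τ_a) s`, `(π * τ_a)(last) = π(last)` because `m < n`,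
and `∑_π f(π * τ_a) = ∑_π f(π)`. -/
def X7 : Prop := ∀ (n m : ℕ), m + 1 ≤ n → ∀ Φ : Fin (n + 1) → (Fin (n + 1) → ℝ) → ℝ,
  ∑ π : Equiv.Perm (Fin (n + 1)), ∑ a : Fin (m + 1),
    (Ex m fun s => Φ (π (Fin.last n)) (emb (m + 1) π (a.insertNth (α := fun _ => ℝ) 0 s))) =
  ((m : ℝ) + 1) * ∑ π : Equiv.Perm (Fin (n + 1)), EP m π (Φ (π (Fin.last n)))

/-- **CHAIN.**  Proof (from `X3`, `X4`, `X7`).  First step: `X4` with `m + 1 = n` for
`P_π = P_(π n) ∘ emb n π` (`SL`: `emb` is linear; `P_π(1,…,1) = P_j(1 - e_j) = P_j(-e_j) = 0`,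
`j = π n`; `emb n π (t + r 1) = emb n π t + r (1 - e_j)` and the invariance under constants give
`P_π(insertNth a 0 s + σ ∑ s 1) = sh σ j P_j (emb n π (insertNth a 0 s))`, because the sum of the
coordinates of `emb n π (insertNth a 0 s)` is `∑ s`).  Sum over `π` with `X7` (`m = n-1`):
`n Sm n P ≤ n Sm (n-1) P^σ + C σ n Sm (n-1) P`.  Then `X3` and `X7` for `m < n-1` and the families
`P^σ`, `P` (`sh σ j P_j` is `SL`): `m Sm (m+1) ≤ (m+1) Sm m`, by induction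
`d Sm (n-1) ≤ (n-1) Sm d`. -/
def CHAIN : Prop := ∀ n d : ℕ, 1 ≤ d → d < n → ∃ C : ℝ, 0 ≤ C ∧ ∀ σ : ℝ, 0 ≤ σ →
  ∀ P : Fin (n + 1) → (Fin (n + 1) → ℝ) → ℝ, Fam n P →
  (d : ℝ) * Sm n P ≤ ((n : ℝ) - 1) * (Sm d (fun j => sh σ j (P j)) + C * σ * Sm d P)

/-- **STH.**  Proof.  `emb n π s = insertNth j 0 (s ∘ ρ)` for `j = π (last)` and a permutation `ρ` of
`Fin n`, so `EP n π P = Th (π last) P` by `XP`; each `j` is `π (last)` for `n!` permutations. -/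
def STH : Prop := ∀ n : ℕ,
  (∀ (π : Equiv.Perm (Fin (n + 1))) (P : (Fin (n + 1) → ℝ) → ℝ), EP n π P = Th (π (Fin.last n)) P) ∧
  ∀ P : Fin (n + 1) → (Fin (n + 1) → ℝ) → ℝ, Sm n P = (∑ j, Th j (P j)) / ((n : ℝ) + 1)

/-! ### Part C: coordinates and the body -/

/-- **CO.**  The algebra of the coordinates.  Proof.  Direct computations (`Fin.sum_univ_castSucc`,
`Fin.snoc`, `Pi.single`).  `pr (e_o)`: `e_l` for `o = castSucc l`, `-(1,…,1)` for `o = last`. -/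
def CO : Prop := ∀ (n d : ℕ) (Y : Fin n → Fin d → ℝ),
  (∀ x : Fin n → ℝ, pr (li x) = x) ∧
  (∀ (t : Fin (n + 1) → ℝ) (c : ℝ), pr (t + fun _ => c) = pr t) ∧
  (∀ t : Fin (n + 1) → ℝ, pr t = ∑ o, t o • ver o) ∧
  (∀ t : Fin (n + 1) → ℝ, lin Y (pr t) = ∑ o, t o • yv Y o) ∧
  (∑ o : Fin (n + 1), ver o = 0) ∧ (∑ o, yv Y o = 0) ∧
  (∀ l, yv Y (Fin.castSucc l) = Y l) ∧ (yv Y (Fin.last n) = -∑ l, Y l) ∧
  (∀ (j : Fin (n + 1)) (t : Fin (n + 1) → ℝ) (c : ℝ), ell j (t + fun _ => c) = ell j t) ∧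
  (∀ (j : Fin (n + 1)) (t : Fin (n + 1) → ℝ), ell j (li (pr t)) = ell j t) ∧
  (∀ (π : Equiv.Perm (Fin (n + 1))) (s : Fin d → ℝ), d ≤ n + 1 →
    ∑ o, emb d π s o = ∑ a, s a) ∧
  (∀ (π : Equiv.Perm (Fin (n + 1))) (s : Fin d → ℝ),
    lin Y (pr (emb d π s)) = Matrix.vecMul s (mat Y π)) ∧
  (∀ (π : Equiv.Perm (Fin (n + 1))) (a : Fin d) (h : a.val < n + 1),
    mat Y π a = yv Y (π ⟨a.val, h⟩))

/-- **D0B.**  `D0` is a simplex, `0` is in its interior.  Proof.  The barycentric coordinates of `x`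
are `(1 - ell j (li x)) / (n+1)`: `x = ∑_j (1 - ell_j(li x))/(n+1) • ver j` (`CO`), they sum to `1`.
`D0` is the image of `T (Fin n)` (Helper67/LM/Defs.lean) under the affine equivalence `A` with
`A 0 = -(1,…,1)`, `A e_l = e_l`, i.e. `A u = u + (∑ u - 1) • 1` (inverse
`x ↦ (1 - ell_l(li x))/(n+1)`), hence a simplex and a body (`IsSimplex.affine`, `IsSimplex.isBody`,
`simplex_T`, Helper67/LM/Base.lean, Helper47/AQ/Affine.lean). -/
def D0B : Prop := ∀ n : ℕ, 1 ≤ n →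
  D0 n = convexHull ℝ (range (ver : Fin (n + 1) → Fin n → ℝ)) ∧ IsSimplex (D0 n) ∧
  IsBody (D0 n) ∧ (0 : Fin n → ℝ) ∈ interior (D0 n) ∧
  (∃ A : (Fin n → ℝ) ≃ᵃ[ℝ] (Fin n → ℝ), A '' Helper67.LM.T (Fin n) = D0 n ∧
    ∀ (u : Fin n → ℝ), (∀ l : Fin n, ell l.castSucc (li (A u)) = 1 - (n + 1) * u l) ∧
      ell (Fin.last n) (li (A u)) = 1 - (n + 1) * (1 - ∑ l, u l))

/-- **PSI.**  Proof.  The interior: `convexHull {-(1/n) v_o} ⊆ K`, and this is `-(1/n) • D0`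
(`D0B`), whose interior contains `0`.  So `gauge K` is continuous (`continuous_gauge`), subadditive
(`gauge_add_le`), positively homogeneous (`gauge_smul_of_nonneg`).  `K ⊆ D0` gives
`ell j (li x) ≤ gauge K x` (if `x ∈ r K`, `r > 0`, then `ell_j ≤ r`), i.e. `psi ≥ 0`.
Invariance: `pr` and `ell` are invariant.  `psi K j (-e_j) = gauge K (-v_j) - n ≤ 0`, because
`-v_j ∈ n K`.  For all `t`: with `μ = max t_o`, `u_o = μ - t_o ≥ 0`, `pr t = pr (-u) =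
∑ u_o (-v_o)`, so `gauge K (pr t) ≤ n ∑ u_o ≤ n (n+1) 2 max|t| ≤ C ∑ |t_o|`.  If `t ≥ 0`, `t_j = 0`:
`gauge K (pr t) ≤ ∑ t_o gauge K (v_o) ≤ (1+τ) ∑ t_o` and `ell j t = ∑ t_o`. -/
def PSI : Prop := ∀ n : ℕ, 1 ≤ n → ∃ C : ℝ, 0 ≤ C ∧ ∀ (K : Set (Fin n → ℝ)) (τ : ℝ), Pos n K τ →
  IsBody K ∧ (0 : Fin n → ℝ) ∈ interior K ∧ Continuous (gauge K) ∧ Fam n (psi K) ∧
  (∀ j t, psi K j t ≤ C * ∑ o, |t o|) ∧
  (∀ j (t : Fin (n + 1) → ℝ), (∀ o, 0 ≤ t o) → t j = 0 → psi K j t ≤ τ * ∑ o, t o) ∧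
  (∀ j x, ell j (li x) ≤ gauge K x)

/-! ### Part D: the decomposition of `ℝ^d` into the cones over the facets -/

/-- **DECA.**  Proof.  `t ↦ lin Y (pr (emb d π t)) = t ᵥ* mat Y π` (`CO`) is an injective linear map of
`ℝ^d` with determinant `det (mat Y π)` (or its transpose): `Measure.addHaar_image_linearMap`, change of
variables (`lintegral_image_eq_lintegral_abs_det_fderiv_mul`, or `map` of the measure under the linear
equivalence: `Measure.map_linearMap_addHaar_eq_smul_addHaar`).  `Cone Y π` is open. -/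
def DECA : Prop := ∀ n d : ℕ, 1 ≤ d → d ≤ n → ∀ (Y : Fin n → Fin d → ℝ)
  (π : Equiv.Perm (Fin (n + 1))), (mat Y π).det ≠ 0 → MeasurableSet (Cone Y π) ∧
  ∀ F : (Fin d → ℝ) → ℝ≥0∞, Measurable F →
  ∫⁻ z in Cone Y π, F z =
    ENNReal.ofReal |(mat Y π).det| * ∫⁻ t in pos d, F (lin Y (pr (emb d π t)))

/-- **DECB.**  The cones over the facets cover almost everything.  Proof.  Let `y_o = yv Y o`; let `z`
be outside of the spans of the at most `d - 1` element subsets of `{y_o}` (finitely many proper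
subspaces: null sets, `Measure.addHaar_submodule`).  `C = convexHull {y_o}` is compact, `0` is in its
interior (`∑ y_o = 0` and the `y_o` span `ℝ^d`), `r = gauge C z > 0`, `z/r ∈ C` is not in the
interior, so there is `ν` with `ν · (z/r) = 1 ≥ ν · y_o` for all `o` (Hahn-Banach, normalised
using `0` in the interior).  Write `z = ∑ t_o y_o`, `t ≥ 0`, `∑ t_o = r`: then `t_o = 0` unless
`ν · y_o = 1`; let `H = {o | ν · y_o = 1}`.  `|H| ≤ d`: otherwise choose `π` with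
`π 0, …, π d ∈ H`; `ν = nu Y π` (`det ≠ 0`, uniqueness) and `kp Y π (π d) = 0` contradicts `GP`
(`d ≤ n`).  `|H| < d`, or `t_o = 0` for some `o ∈ H`, contradict the choice of `z`.  So
`H = π {0,…,d-1}` for some `π`, `ν = nu Y π`, `kp > 0` outside `H`: `IsFac Y π` and
`z ∈ Cone Y π`.  (Any other proof, e.g. by linear programming, is fine.) -/
def DECB : Prop := ∀ n d : ℕ, 1 ≤ d → d ≤ n → ∀ Y : Fin n → Fin d → ℝ, GP Y →
  ∀ᵐ z : Fin d → ℝ, ∃ π : Equiv.Perm (Fin (n + 1)), IsFac Y π ∧ z ∈ Cone Y π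

/-- **DECC.**  Proof.  `Cone Y π`, `nu Y π`, `kp Y π`, `IsFac Y π` depend only on the set
`G = π {0,…,d-1}` (the rows of `mat` are permuted; `nu` is the only solution of `ν · y_o = 1`,
`o ∈ G`), and the permutations with the same `G` are `π σ`, `σ` preserving `{0,…,d-1}`: `Nst n d`
of them.  If `IsFac Y π`, `IsFac Y π'`, `G ≠ G'` then the cones are disjoint: `z = ∑_{o ∈ G} t_o y_o =
∑_{o ∈ G'} t'_o y_o`, `t, t' > 0`: `∑ t = ν_G · z < ∑ t'` (as `ν_G · y_o ≤ 1` with equality only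
on `G`, `G' ⊄ G`), and in the same way `∑ t' < ∑ t`.  (`KPF` may be used.) -/
def DECC : Prop := ∀ n d : ℕ, 1 ≤ d → d ≤ n → ∀ Y : Fin n → Fin d → ℝ,
  ∀ (z : Fin d → ℝ) (π : Equiv.Perm (Fin (n + 1))), IsFac Y π → z ∈ Cone Y π →
  (open Classical in
    Fintype.card {π' : Equiv.Perm (Fin (n + 1)) // IsFac Y π' ∧ z ∈ Cone Y π'}) = Nst n d

/-- **DEC.**  Proof (from `DECA`, `DECB`, `DECC`).  `∑_{π, IsFac} 1_{Cone Y π}(z) = Nst n d` for almost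
all `z`; multiply by `F z` and integrate. -/
def DEC : Prop := ∀ n d : ℕ, 1 ≤ d → d ≤ n → ∀ Y : Fin n → Fin d → ℝ, GP Y →
  ∀ F : (Fin d → ℝ) → ℝ≥0∞, Measurable F →
  (Nst n d : ℝ≥0∞) * ∫⁻ z, F z =
    ∑ π : Equiv.Perm (Fin (n + 1)), (open Classical in if IsFac Y π then
      ENNReal.ofReal |(mat Y π).det| * ∫⁻ t in pos d, F (lin Y (pr (emb d π t))) else 0)

/-- **GPID.**  Proof.  `lin Y x = x`, `yv Y o = ver o`.  `mat Y π` has the rows `ver (π a)`, `a < n`,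
i.e. all vertices but `v_j`, `j = π (last)`; the determinant of `n` of the vectors
`e_1, …, e_n, -(1,…,1)` is `± 1`.  The functional `ell j` has the value `1` on them and `-n` on
`v_j`, so `kp Y π j = 1`.  `Nst n n = n!` (a permutation preserves `{0,…,n-1}` iff it fixes
the last element; `Equiv.Perm.decomposeFin` or a bijection with `Perm (Fin n)`). -/
def GPID : Prop := ∀ n : ℕ, 1 ≤ n →
  GP (fun l => Pi.single l 1 : Fin n → Fin n → ℝ) ∧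
  (∀ x, lin (fun l => Pi.single l 1 : Fin n → Fin n → ℝ) x = x) ∧
  (∀ π : Equiv.Perm (Fin (n + 1)), IsFac (fun l => Pi.single l 1 : Fin n → Fin n → ℝ) π ∧
    |(mat (fun l => Pi.single l 1 : Fin n → Fin n → ℝ) π).det| = 1) ∧
  Nst n n = n.factorial

/-- **SYMY.**  For `ρ : Perm (Fin (n+1))` the map `Y ↦ (l ↦ yv Y (ρ l))` permutes the vertices `y_o`.
Proof.  `yv Yρ o = yv Y (ρ o)` by `∑ y_o = 0` (`CO`).  The map is linear with the inverse given by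
`ρ⁻¹`; it has finite order, so the absolute value of its determinant is `1`
(`map_linearMap_addHaar_eq_smul_addHaar`, or `MeasurePreserving` from
`|det L|^k = |det (L^k)| = 1`).  The rest: `mat Yρ π = mat Y (ρ * π)`, `nu Yρ π = nu Y (ρ * π)`. -/
def SYMY : Prop := ∀ (n d : ℕ) (ρ : Equiv.Perm (Fin (n + 1))), ∃ L : (Fin n → Fin d → ℝ) ≃ᵐ
  (Fin n → Fin d → ℝ), (∀ Y l, L Y l = yv Y (ρ l.castSucc)) ∧
  MeasurePreserving L volume volume ∧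
  ∀ Y : Fin n → Fin d → ℝ, (∀ o, yv (L Y) o = yv Y (ρ o)) ∧
    (∀ π, mat (L Y) π = mat Y (ρ * π)) ∧ (∀ π, nu (L Y) π = nu Y (ρ * π)) ∧
    (∀ π o, kp (L Y) π o = kp Y (ρ * π) (ρ o)) ∧ (∀ π, IsFac (L Y) π ↔ IsFac Y (ρ * π)) ∧
    (GP (L Y) ↔ GP Y) ∧ (∀ R, Good R (L Y) ↔ Good R Y) ∧
    lin (L Y) '' D0 n = lin Y '' D0 n ∧ eta (Q0 n) (L Y) = eta (Q0 n) Y

/-- **GPAE.**  Proof.  By `SYMY` (with `ρ = π⁻¹` and the null-set invariance) it suffices: for almost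
all `Y` the first `d` columns are linearly independent, and for almost all `Y` with this property and
each `o` with index `≥ d`, `kp Y 1 o ≠ 0`.  First: `Y ↦ Y + s (e_0, …, e_(d-1), 0, …)`, `s : ℝ`,
the determinant of the first `d` columns is a polynomial in `s` of degree `d` with leading
coefficient `1`, so it vanishes for finitely many `s` only: `ae_mem_of_ae_add_linearMap_mem`
(Mathlib, Haar/Disintegration).  Second: if `o` is not the last index, `y_o = Y_o` is a free column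
and `ν = nu Y 1 ≠ 0` depends only on the first `d` columns; `{y | ν · y = 1}` is a null set, use
`ae_mem_of_ae_add_linearMap_mem` for the translations of the column `o`.  If `o` is the last index
then `y_o = -∑ Y_l` and column `d` (which exists: `d < n`) is free: use the translations of the
column `d`. -/
def GPAE : Prop := ∀ n d : ℕ, 1 ≤ d → d < n → ∀ᵐ Y : Fin n → Fin d → ℝ, GP Y

/-- **KPF.**  Elementary facts on `nu`, `kp`.  Proof.  `mat Y π *ᵥ nu Y π = 1` (`det ≠ 0`), i.e.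
`ν · y_(π a) = 1` for `a < d`; `∑_o y_o = 0` gives `∑ kp = 1`; both sides of the last formula are
linear in `x` (and `ell` is linear), and for `x = v_p` the right side is
`∑_o kp_o - (n+1) kp_p = ν · y_p`; every `x` is `∑ t_o v_o` (`CO`). -/
def KPF : Prop := ∀ n d : ℕ, 1 ≤ d → d ≤ n → ∀ (Y : Fin n → Fin d → ℝ)
  (π : Equiv.Perm (Fin (n + 1))), (mat Y π).det ≠ 0 →
  (∀ t : Fin d → ℝ, ∑ c, nu Y π c * lin Y (pr (emb d π t)) c = ∑ a, t a) ∧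
  (∀ o, (π.symm o).val < d → kp Y π o = 0) ∧ (∑ o, kp Y π o = 1) ∧
  (∀ x, ∑ c, nu Y π c * lin Y x c = ∑ o, kp Y π o * ell o (li x)) ∧
  (IsFac Y π → ∀ o, 0 ≤ kp Y π o)

/-- **VOL.**  Proof.  `DEC` for `d = n`, `Y_l = e_l` (`GPID`) and `F z = exp(-gauge K z)`:
`n! ∫ exp(-gauge K) = ∑_π ∫_{t ∈ pos n} exp(-gauge K (pr (emb n π t)))`, and the exponent is
`∑ t + psi K (π n) (emb n π t)` (`ell j (emb n π t) = ∑ t` as the coordinate `j` vanishes).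
`∫ exp(-gauge K) = n! V(K)` (`AQ.laplace` with `C = univ`, Helper47/AQ/Vol.lean;
`{gauge K ≤ 1} = K` for a closed convex set with `0` in its interior).  `exp(-a) ≥ 1 - a`.  The same
for `D0` instead of `K`, where `gauge (D0) (pr (emb n π t)) = ∑ t`: `n! n! V(D0) = (n+1)!`. -/
def VOL : Prop := ∀ n : ℕ, 1 ≤ n → (volume (D0 n)).toReal = ((n : ℝ) + 1) / n.factorial ∧
  ∀ (K : Set (Fin n → ℝ)) (τ : ℝ), Pos n K τ →
  (volume (D0 n)).toReal * (1 - Sm n (psi K)) ≤ (volume K).toReal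

/-- **VD0.**  Proof.  `lin Y '' D0 n` is a convex body with `0` in its interior (`lin Y` is surjective
by `GP`).  `DEC` with `F = exp(-gauge)`, `AQ.laplace`; `gauge (lin Y '' D0) (lin Y (pr (emb d π t)))
= ∑ t` for `t ≥ 0`, `IsFac Y π`: `≤` because `pr (emb d π t) ∈ (∑ t) D0`, `≥` because
`ν · lin Y x = ∑ kp_o ell_o(x) ≤ 1` on `D0` (`KPF`); `∫_{pos d} exp(-∑ t) = 1` (`X2`). -/
def VD0 : Prop := ∀ n d : ℕ, 1 ≤ d → d ≤ n → ∀ Y : Fin n → Fin d → ℝ, GP Y →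
  ((Nst n d : ℝ) * d.factorial) * (volume (lin Y '' D0 n)).toReal =
    ∑ π : Equiv.Perm (Fin (n + 1)), (open Classical in
      if IsFac Y π then |(mat Y π).det| else 0) ∧
  0 < (volume (lin Y '' D0 n)).toReal ∧ volume (lin Y '' D0 n) ≠ ⊤ ∧ 0 < Nst n d

/-- **RAT.**  Proof.  `U = Ups Y π K`.  `SL`: `gauge (lin Y '' K)` is continuous and sublinear
(`0` is in the interior of `lin Y '' K`: `lin Y` is linear and surjective, hence open), and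
`gauge (lin Y '' K) z ≥ ν · z` for all `z` (`z = lin Y x`, `x ∈ r K`: `ν · z = ∑ kp_o ell_o(x) ≤ r`
by `KPF`, `PSI`), so `U ≥ 0`.  For `t ∈ pos d`: `U t ≤ τ ∑ t`
(`gauge (lin Y '' K) (lin Y x) ≤ gauge K x` and the last bound of `PSI` for some `o` with
`d ≤ π⁻¹ o`).  Volume: `DEC` with `F z = exp(-gauge (lin Y '' K) z)` and `AQ.laplace`:
`Nst d! V(lin Y '' K) = ∑_{π, IsFac} |det| ∫_{pos d} exp(-∑ t - U t)`, and
`1 - exp(-u) ≥ u exp(-u)`, so `∫ exp(-∑ t - U) ≤ 1 - ∫ exp(-(1+τ) ∑ t) U = 1 - (1+τ)^(-d-1) Ex d U`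
(`X1`, `X2`); combine with `VD0`. -/
def RAT : Prop := ∀ n d : ℕ, 1 ≤ d → d < n → ∀ (K : Set (Fin n → ℝ)) (τ : ℝ), Pos n K τ →
  ∀ Y : Fin n → Fin d → ℝ, GP Y →
  (∀ π, IsFac Y π → SL d (Ups Y π K) ∧ ∀ t ∈ pos d, Ups Y π K t ≤ τ * ∑ a, t a) ∧
  (volume (lin Y '' K)).toReal ≤ (volume (lin Y '' D0 n)).toReal -
    ((Nst n d : ℝ) * d.factorial)⁻¹ * ((1 + τ) ^ (d + 1))⁻¹ *
    ∑ π : Equiv.Perm (Fin (n + 1)), (open Classical in
      if IsFac Y π then |(mat Y π).det| * Ex d (Ups Y π K) else 0)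

/-- **KER.**  Proof.  Let `w = pr a` with `∑ a_o = 0`: `ell_o(w) = -(n+1) a_o`, so
`|a_o| ≤ R u` for `d ≤ π⁻¹ o`.  `0 = lin Y w = ∑ a_o y_o`, so with `b = (a_(π 0), …, a_(π (d-1)))`:
`b ᵥ* mat Y π = -∑_{o outside} a_o y_o`, a vector with entries at most `(n+1) R u · R`;
multiply with the inverse matrix: its entries are at most `d! R^d · R` (`Matrix.inv_def`,
`Matrix.adjugate_apply`, `Matrix.det_le`, the entries of `mat` are at most `R`, `R ≥ 1`,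
`1 ≤ R |det|`).  So all `|a_o| ≤ C(R,n,d) u` and `|w_l| ≤ 2 max |a_o|`. -/
def KER : Prop := ∀ n d : ℕ, 1 ≤ d → d < n → ∀ R : ℝ, 1 ≤ R → ∃ M : ℝ, 0 ≤ M ∧
  ∀ Y : Fin n → Fin d → ℝ, Good R Y → ∀ π, IsFac Y π → ∀ (w : Fin n → ℝ) (u : ℝ), 0 ≤ u →
  lin Y w = 0 → (∀ o, d ≤ (π.symm o).val → kp Y π o * |ell o (li w)| ≤ u) →
  ∀ l, |w l| ≤ M * u

/-- **PWX.**  Proof.  Let `e = emb d π t`, `T = ∑ t_a > 0`, `u = gauge K x - T`, `ξ = li x`.
`u = ∑ kp_o psi K o ξ` (`KPF`: `∑ kp = 1`, `∑ kp_o ell_o(x) = ν · lin Y x = T`), so `u ≥ 0`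
(`kp ≥ 0`).  For `o` outside (`d ≤ π⁻¹ o`): `ell_o(e) = T`, `ell_o(x) ≤ gauge K x = T + u` for all
`o`, and `∑ kp_o (ell_o(x) - T) = 0`, so `kp_o |ell_o(x) - T| ≤ u`.  `KER` for `w = pr e - x`:
`|w_l| ≤ M₀ u`.  Second inequality: `psi_o(e) ≤ psi_o(ξ) + psi_o(e - ξ)` and
`psi_o(e - ξ) ≤ C' max |w_l|` (`e - ξ` differs from `li w` by a constant vector; `PSI`), so
`∑ kp_o psi_o(e) ≤ (1 + C' M₀) u`.  First inequality, `σ = M τ`, `s = σ T`.  If `u > τ T`: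
`sh σ o psi_o (e) = psi_o(e - s e_o) ≤ psi_o(e) ≤ τ T` for `o` outside (`psi_o(-e_o) = 0`, `PSI`).
If `u ≤ τ T`: `psi_o(e - s e_o) ≤ psi_o(ξ) + psi_o(e - ξ - s e_o)`, and (if `s > 0`)
`e - ξ - s e_o = s (1 - e_o + ω/s)` modulo constants, where `ω = e - ξ - (e - ξ)_o 1`, `ω_o = 0`,
`|ω_l| ≤ 2 max |w| ≤ 2 M₀ τ T ≤ s/2` if `M ≥ 4 M₀`; so by `X5` for the sublinear function
`b ↦ psi_o(insertNth o 0 b)`: `psi_o(e - ξ - s e_o) ≤ s C Th o (psi_o)`.  (If `s = 0`, i.e. `τ = 0`,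
then `u = 0`, `w = 0` and `psi_o(e - ξ) = 0`.)  `M = max(1, 4 M₀)`,
`M' = max(M, 1 + C' M₀, M C)`. -/
def PWX : Prop := ∀ n d : ℕ, 1 ≤ d → d < n → ∀ R : ℝ, 1 ≤ R → ∃ M M' : ℝ, 1 ≤ M ∧ M ≤ M' ∧
  ∀ Y : Fin n → Fin d → ℝ, Good R Y → ∀ π, IsFac Y π → ∀ (K : Set (Fin n → ℝ)) (τ : ℝ), Pos n K τ →
  ∀ t ∈ pos d, ∀ x : Fin n → ℝ, lin Y x = lin Y (pr (emb d π t)) →
  ∑ o, kp Y π o * sh (M * τ) o (psi K o) (emb d π t) ≤
    (gauge K x - ∑ a, t a) + M' * τ * (∑ a, t a) * ∑ o, kp Y π o * Th o (psi K o) ∧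
  ∑ o, kp Y π o * psi K o (emb d π t) ≤ M' * (gauge K x - ∑ a, t a)

/-- **PW.**  Proof (from `PWX`, same constants).  For every `r > gauge (lin Y '' K) z`,
`z = lin Y (pr (emb d π t))`, there is `x` with `lin Y x = z`, `gauge K x ≤ r` (`z ∈ r • lin Y '' K`
for such `r`, because `lin Y '' K` is convex and contains `0`); let `r ↓ gauge (lin Y '' K) z`. -/
def PW : Prop := ∀ n d : ℕ, 1 ≤ d → d < n → ∀ R : ℝ, 1 ≤ R → ∃ M M' : ℝ, 1 ≤ M ∧ M ≤ M' ∧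
  ∀ Y : Fin n → Fin d → ℝ, Good R Y → ∀ π, IsFac Y π → ∀ (K : Set (Fin n → ℝ)) (τ : ℝ), Pos n K τ →
  ∀ t ∈ pos d,
  ∑ o, kp Y π o * sh (M * τ) o (psi K o) (emb d π t) ≤
    Ups Y π K t + M' * τ * (∑ a, t a) * ∑ o, kp Y π o * Th o (psi K o) ∧
  ∑ o, kp Y π o * psi K o (emb d π t) ≤ M' * Ups Y π K t

/-- **PWE.**  Proof.  Integrate `PW` against `exp(-∑ t)` over `pos d` (`X1`, `X2`: everything is
integrable, `sh σ o (psi K o) ∘ emb d π` and `psi K o ∘ emb d π` are `SL`, `Ex d (∑ t) = d`,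
`Ups` is `SL` by `RAT`), and take `1 - β` times the first and `β / M'` times the second. -/
def PWE : Prop := ∀ n d : ℕ, 1 ≤ d → d < n → ∀ R : ℝ, 1 ≤ R → ∃ M M' : ℝ, 1 ≤ M ∧ M ≤ M' ∧
  ∀ Y : Fin n → Fin d → ℝ, Good R Y → ∀ π, IsFac Y π → ∀ (K : Set (Fin n → ℝ)) (τ : ℝ), Pos n K τ →
  ∀ β : ℝ, 0 ≤ β → β ≤ 1 →
  ∑ o, kp Y π o * ((1 - β) * (EP d π (sh (M * τ) o (psi K o)) - M' * τ * d * Th o (psi K o)) +
    β / M' * EP d π (psi K o)) ≤ Ex d (Ups Y π K)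

/-! ### Part I: integrals over the linear maps -/

/-- **MV.**  Proof.  `{(Y, z) | ∃ x ∈ K, lin Y x = z}` is closed (`K` compact), so its sections have
measurable volume (`measurable_measure_prodMk_left`). -/
def MV : Prop := ∀ (n d : ℕ) (K : Set (Fin n → ℝ)), IsCompact K →
  Measurable fun Y : Fin n → Fin d → ℝ => volume (lin Y '' K)

/-- **LMUL.**  Proof.  The linear map `Y ↦ (l ↦ g *ᵥ Y l)` on `Fin n → Fin d → ℝ` has the determinant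
`(det g)^n` (`LinearMap.det_pi` or block diagonal) and is bijective;
`lintegral_map_equiv` / `Measure.addHaar_preimage_linearMap`.  No measurability of `h` is needed
(a linear equivalence is a measurable equivalence). -/
def LMUL : Prop := ∀ (n d : ℕ) (g : Matrix (Fin d) (Fin d) ℝ), g.det ≠ 0 →
  ∀ h : (Fin n → Fin d → ℝ) → ℝ≥0∞,
  (∫⁻ Y : Fin n → Fin d → ℝ, h fun l => g *ᵥ Y l) * ENNReal.ofReal (|g.det| ^ n) = ∫⁻ Y, h Y

/-- **RMUL.**  Proof.  The linear map `Y ↦ (m ↦ ∑_l S m l • Y l)` has the determinant `(det S)^d`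
(for each of the `d` rows of `A` it is the map with the matrix `S`). -/
def RMUL : Prop := ∀ (n d : ℕ) (S : Matrix (Fin n) (Fin n) ℝ), S.det ≠ 0 →
  ∀ h : (Fin n → Fin d → ℝ) → ℝ≥0∞,
  (∫⁻ Y : Fin n → Fin d → ℝ, h fun m c => ∑ l, S m l * Y l c) * ENNReal.ofReal (|S.det| ^ d) =
    ∫⁻ Y, h Y

/-- **CST.**  Proof.  Positive: the integrand is positive where `det ≠ 0`, almost everywhere (or on a
neighbourhood of the identity).  Finite: `|det g| ≤ d! (max |g_ij|)^d`, and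
`(d! x^d)^k exp(-x²/4)` is bounded, so the integrand is at most `C exp(-∑ g_ij²/4)`, a product of
Gaussian integrals. -/
def CST : Prop := ∀ d k : ℕ,
  0 < ∫⁻ g : Fin d → Fin d → ℝ, ENNReal.ofReal (|(Matrix.of g).det| ^ k *
    Real.exp (-(∑ i, ∑ j, g i j ^ 2) / 2)) ∧
  ∫⁻ g : Fin d → Fin d → ℝ, ENNReal.ofReal (|(Matrix.of g).det| ^ k *
    Real.exp (-(∑ i, ∑ j, g i j ^ 2) / 2)) < ⊤

/-- **GRM.**  Proof.  `grm Q Y = A Q Aᵀ` with `A = (Y_l a)_{a,l}`.  Positive semidefinite because `Q`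
is; `= R Rᵀ` (`Matrix.posSemidef_iff_eq_conjTranspose_mul_self` or Cholesky).  If the determinant of
`grm Q Y` is zero there is `v ≠ 0` with `vᵀ A Q Aᵀ v = 0`, so `Aᵀ v = 0` (`Q` positive definite), so
`det (grm Q' Y) = 0` and `lin Y` is not surjective (`v · lin Y x = 0`), so the image is contained in a
hyperplane. -/
def GRM : Prop := ∀ (n d : ℕ) (Q : Matrix (Fin n) (Fin n) ℝ), Q.PosDef → ∀ Y : Fin n → Fin d → ℝ,
  (∃ R : Matrix (Fin d) (Fin d) ℝ, grm Q Y = R * Rᵀ ∧ Real.sqrt (grm Q Y).det = |R.det|) ∧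
  0 ≤ (grm Q Y).det ∧
  (∀ g : Matrix (Fin d) (Fin d) ℝ, grm Q (fun l => g *ᵥ Y l) = g * grm Q Y * gᵀ) ∧
  (∀ Q' : Matrix (Fin n) (Fin n) ℝ, Q'.PosDef → (grm Q Y).det = 0 → (grm Q' Y).det = 0) ∧
  ((grm Q Y).det = 0 → ∀ K : Set (Fin n → ℝ), volume (lin Y '' K) = 0) ∧
  Measurable (eta (d := d) Q)

/-- **G2A.**  Proof.  `grm Q Y = R Rᵀ`, `√det = |det R| ≠ 0` (`GRM`).  Substitute `g' = g R`, i.e. the
linear map `g ↦ g R` of the `d × d` matrices, with determinant `(det R)^d` (it acts on each row: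
`LMUL` with `n = d` and the matrix `Rᵀ` acting on the rows `g i`): `|det g|^(n-d) =
|det g'|^(n-d) |det R|^(-(n-d))`, `g (R Rᵀ) gᵀ = g' g'ᵀ` with trace `∑ g'_ij²`. -/
def G2A : Prop := ∀ n d : ℕ, 1 ≤ d → d ≤ n → ∀ Q : Matrix (Fin n) (Fin n) ℝ, Q.PosDef →
  ∀ Y : Fin n → Fin d → ℝ, (grm Q Y).det ≠ 0 →
  ∫⁻ g : Fin d → Fin d → ℝ, ENNReal.ofReal (|(Matrix.of g).det| ^ (n - d) *
    Real.sqrt (grm Q Y).det ^ n *
    Real.exp (-(Matrix.of g * grm Q Y * (Matrix.of g)ᵀ).trace / 2)) =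
  ∫⁻ g : Fin d → Fin d → ℝ, ENNReal.ofReal (|(Matrix.of g).det| ^ (n - d) *
    Real.exp (-(∑ i, ∑ j, g i j ^ 2) / 2))

/-- **G2B.**  Proof.  `grm Q Y = R Rᵀ`, `√det = |det R| ≠ 0` (`GRM`).  Substitute `g = R h`: the linear
map `h ↦ R h` has the determinant `(det R)^d` (it acts on each column; `RMUL` with `n = d`, `S = R`):
`|det g|^(-(n+d)) = |det R|^(-(n+d)) |det h|^(-(n+d))`,
`g⁻¹ (R Rᵀ) g⁻ᵀ = h⁻¹ h⁻ᵀ` if `det h ≠ 0` (if `det h = 0` both integrands are `0`: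
`(0^(n+d))⁻¹ = 0` in `ℝ`, as `n + d ≥ 1`). -/
def G2B : Prop := ∀ n d : ℕ, 1 ≤ d → d ≤ n → ∀ Q : Matrix (Fin n) (Fin n) ℝ, Q.PosDef →
  ∀ Y : Fin n → Fin d → ℝ, (grm Q Y).det ≠ 0 →
  ∫⁻ g : Fin d → Fin d → ℝ, ENNReal.ofReal ((|(Matrix.of g).det| ^ (n + d))⁻¹ *
    Real.sqrt (grm Q Y).det ^ n *
    Real.exp (-((Matrix.of g)⁻¹ * grm Q Y * ((Matrix.of g)⁻¹)ᵀ).trace / 2)) =
  ∫⁻ h : Fin d → Fin d → ℝ, ENNReal.ofReal ((|(Matrix.of h).det| ^ (n + d))⁻¹ *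
    Real.exp (-((Matrix.of h)⁻¹ * ((Matrix.of h)⁻¹)ᵀ).trace / 2))

/-- **G2.**  Proof (from `G2A`, `G2B`, `LMUL`, `GRM`, `CST`).  `W := ∫⁻ Y, ∫⁻ g, f Y · eta Q₁ Y ·
ofReal(|det g|^(n-d) · √det(grm Q₂ Y)^n · exp(-tr(g (grm Q₂ Y) gᵀ)/2))`.  By `G2A` the inner integral
is `f Y · eta Q₁ Y · C`, `C = ∫⁻ ofReal(|det g|^(n-d) exp(-∑ g_ij²/2))`, also if the determinant of
`grm Q₂ Y` is `0` (then `eta Q₁ Y = 0` by `GRM`, `n ≥ 1`; note that `f Y` may be `⊤`, `⊤ * 0 = 0`).  So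
`W = C · IQ Q₁ f`.  Swap the integrals (Tonelli, everything is measurable).  For `g` with
`det g ≠ 0` (almost all: the zero set of the determinant is a null set, see `GPAE`) apply `LMUL` with
`B = g Y`: `f Y = f B |det g|^n`, `grm Q₁ Y = g⁻¹ (grm Q₁ B) g⁻ᵀ`, `g (grm Q₂ Y) gᵀ = grm Q₂ B`,
`√det(grm Q_i Y) = |det g|⁻¹ √det(grm Q_i B)`, so
`W = ∫⁻ g, ∫⁻ B, f B · eta Q₂ B · ofReal((|det g|^(n+d))⁻¹ · √det(grm Q₁ B)^n ·
exp(-tr(g⁻¹ (grm Q₁ B) g⁻ᵀ)/2))`.  Swap again and use `G2B`: `W = C' · IQ Q₂ f` with a constant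
`C' ∈ [0,⊤]` which does not depend on `Q₁, Q₂, f`.  So `C · IQ Q₁ f = C' · IQ Q₂ f` for all
`Q₁, Q₂`, hence `C · IQ Q f` does not depend on `Q`, and `0 < C < ⊤` (`CST`). -/
def G2 : Prop := ∀ n d : ℕ, 1 ≤ d → d ≤ n → ∀ f : (Fin n → Fin d → ℝ) → ℝ≥0∞, Measurable f →
  (∀ g : Matrix (Fin d) (Fin d) ℝ, g.det ≠ 0 → ∀ Y,
    (f fun l => g *ᵥ Y l) * ENNReal.ofReal (|g.det| ^ n) = f Y) →
  ∀ Q₁ Q₂ : Matrix (Fin n) (Fin n) ℝ, Q₁.PosDef → Q₂.PosDef → IQ Q₁ f = IQ Q₂ f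

/-- **FKH.**  Proof.  `lin (g Y) '' K = g '' (lin Y '' K)`, volume `|det g|` times
(`Measure.addHaar_image_linearMap`). `MV` for the measurability. -/
def FKH : Prop := ∀ (n d : ℕ) (K : Set (Fin n → ℝ)), IsCompact K → Measurable (fK d K) ∧
  ∀ g : Matrix (Fin d) (Fin d) ℝ, g.det ≠ 0 → ∀ Y,
    (fK d K fun l => g *ᵥ Y l) * ENNReal.ofReal (|g.det| ^ n) = fK d K Y

/-- **AFFJ.**  Proof.  Translations: `lin Y '' (K + c) = lin Y '' K + lin Y c`.  Linear maps `T`: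
`lin Y (T x) = lin Y' x` with `Y'_m = ∑_l T_{l m} Y_l`; `RMUL` with `S = Tᵀ`:
`IQ 1 (fK (T '' K)) |det T|^d = ∫⁻ Y', fK K Y' · eta (SᵀS)(Y')` with `S = T⁻ᵀ`, `= IQ 1 (fK K)` by
`G2`, `FKH`.  And `V(T '' K) = |det T| V(K)`. -/
def AFFJ : Prop := ∀ n d : ℕ, 1 ≤ d → d ≤ n → ∀ (A : (Fin n → ℝ) ≃ᵃ[ℝ] (Fin n → ℝ))
  (K : Set (Fin n → ℝ)), IsCompact K →
  volume (A '' K) ^ d * IQ 1 (fK d (A '' K)) = volume K ^ d * IQ 1 (fK d K)

/-- **BALL.**  Proof.  Write `grm 1 Y = Y Yᵀ = R Rᵀ`; if `det = 0` the left side is `0`.  Otherwise the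
image of the Euclidean ball `B` of radius `r` of `ℝ^n` under `A` contains `R (r B_d)`: for `|w| ≤ r`
let `x = Aᵀ (A Aᵀ)⁻¹ R w`, then `A x = R w`, `|x|² = wᵀ Rᵀ (R Rᵀ)⁻¹ R w = |w|²`.  Its volume is
`|det R| r^d vol(B_d)` (`B_d` as a set in `Fin d → ℝ`, e.g. it contains the cube of side `2/√d`).  `K`
contains a translate of the ball (`interior K` nonempty: a ball in the sup norm contains a Euclidean
ball of the same radius). -/
def BALL : Prop := ∀ (n d : ℕ) (K : Set (Fin n → ℝ)), IsBody K → ∃ c : ℝ, 0 < c ∧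
  ∀ Y : Fin n → Fin d → ℝ, ENNReal.ofReal (c * Real.sqrt (grm 1 Y).det) ≤ volume (lin Y '' K)

/-- **JFIN.**  Proof.  Finite: by `BALL` and `grm 1 Y` (`G2` to pass from `Q` to `1`),
`fK Y · eta 1 Y ≤ c^(-n) exp(-∑ Y²/2)` (if `det = 0` then `eta = 0`), whose integral is finite (product
of Gaussians).  Positive: `fK Y > 0` for all `Y` (the image is bounded) and `eta Q Y > 0` if
`det ≠ 0`, almost everywhere (`GPAE`, or: `{det (grm 1 Y) ≠ 0}` is open and not empty, hence of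
positive measure). -/
def JFIN : Prop := ∀ n d : ℕ, 1 ≤ d → d ≤ n → ∀ K : Set (Fin n → ℝ), IsBody K →
  ∀ Q : Matrix (Fin n) (Fin n) ℝ, Q.PosDef → 0 < IQ Q (fK d K) ∧ IQ Q (fK d K) < ⊤

/-- **Q0P.**  Proof.  `xᵀ Q0 x = ∑ x_l² + (∑ x_l)²`; `Y Yᵀ + (∑ Y_l)(∑ Y_l)ᵀ = ∑_o y_o y_oᵀ`. -/
def Q0P : Prop := ∀ n d : ℕ, (Q0 n).PosDef ∧ (1 : Matrix (Fin n) (Fin n) ℝ).PosDef ∧
  ∀ (Y : Fin n → Fin d → ℝ) (a b : Fin d), grm (Q0 n) Y a b = ∑ o, yv Y o a * yv Y o b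

/-- **MEAS.**  Proof.  `mat Y π` is linear in `Y`; determinant, adjugate, inverse
(`Matrix.inv_def`, `Ring.inverse` of a real number is the inverse) have measurable entries, so `nu` and
`kp` are measurable functions of `Y`; finite intersections. -/
def MEAS : Prop := ∀ n d : ℕ,
  (∀ π : Equiv.Perm (Fin (n + 1)), Measurable fun Y : Fin n → Fin d → ℝ => (mat Y π).det) ∧
  (∀ (π : Equiv.Perm (Fin (n + 1))) (o : Fin (n + 1)),
    Measurable fun Y : Fin n → Fin d → ℝ => kp Y π o) ∧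
  (∀ π : Equiv.Perm (Fin (n + 1)), MeasurableSet {Y : Fin n → Fin d → ℝ | IsFac Y π}) ∧
  MeasurableSet {Y : Fin n → Fin d → ℝ | GP Y} ∧
  ∀ R : ℝ, MeasurableSet {Y : Fin n → Fin d → ℝ | Good R Y}

/-- **AVGG.**  Proof.  `W0 n d univ = IQ (Q0 n) (fK d (D0 n))`: `JFIN`, `Q0P`, `D0B`.  The measurable
(`MEAS`) sets `Good R` increase with `R ≥ 1`, and every `Y` with `GP Y` (almost all, `GPAE`; `W0` is
absolutely continuous) is in `Good R` for large `R`: finitely many conditions, `|det (mat Y π)| > 0`,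
`kp Y π o > 0`.  Continuity from below (`tendsto_measure_iUnion_atTop`, `R ∈ ℕ`). -/
def AVGG : Prop := ∀ n d : ℕ, 1 ≤ d → d < n →
  W0 n d univ ≠ 0 ∧ W0 n d univ ≠ ⊤ ∧ ∀ θ : ℝ, 0 < θ → ∃ R : ℝ, 1 ≤ R ∧
    (1 - θ) * (W0 n d univ).toReal ≤ (W0 n d {Y | Good R Y}).toReal

/-- **AVGS.**  Proof.  `0 ≤ wt ≤ 1` by `VD0` (`|det| ≤ Nst d! V`), `KPF` (`0 ≤ kp ≤ 1`); measurable by
`MEAS`, `MV`; `W0` is finite (`AVGG`).  Let `I(π,o) = ∫ wt R π o dW0`.  By `SYMY` (the density of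
`W0` is invariant under `L_ρ`, as `lin (L Y) '' D0 = lin Y '' D0` and `eta (Q0 n) (L Y) =
eta (Q0 n) Y`) `wt R π o (L_ρ Y) = wt R (ρ π) (ρ o) Y`, so `I(ρ π, ρ o) = I(π, o)`.  And
`wt R (π σ) o = wt R π o` if `σ` preserves `{0,…,d-1}` (same rows up to the order: same `|det|`,
same `nu`, same `IsFac`).  Given `(π,o)`, `(π',o')` with `o`, `o'` outside, i.e. `b = π⁻¹ o ≥ d`,
`b' = π'⁻¹ o' ≥ d`: `I(π,o) = I(1,b) = I(σ, b) = I(1, σ⁻¹ b) = I(1,b') = I(π',o')` with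
`σ = swap b b'`. -/
def AVGS : Prop := ∀ n d : ℕ, 1 ≤ d → d < n → ∀ R : ℝ, 1 ≤ R →
  (∀ (π : Equiv.Perm (Fin (n + 1))) (o : Fin (n + 1)),
    Integrable (wt R π o : (Fin n → Fin d → ℝ) → ℝ) (W0 n d)) ∧
  ∀ (π π' : Equiv.Perm (Fin (n + 1))) (o o' : Fin (n + 1)), d ≤ (π.symm o).val →
    d ≤ (π'.symm o').val →
    ∫ Y : Fin n → Fin d → ℝ, wt R π o Y ∂(W0 n d) = ∫ Y : Fin n → Fin d → ℝ, wt R π' o' Y ∂(W0 n d)

/-- **AVG.**  Proof (from `AVGG`, `AVGS`, `KPF`, `VD0`).  `Lc R c Y = ∑_π ∑_o wt R π o Y · c π o`, and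
`wt R π o = 0` unless `o` is outside (`kp = 0` inside).  Let `ι` be the common value of the integrals
of `AVGS`.  For `c = 1`: `Lc R 1 Y = 1[Good R Y]` (`∑_o kp = 1`, `∑_{π, IsFac} |det| = Nst d! V`, `V > 0`
by `VD0`), so `ι · #{(π,o) outside} = W0(Good R)`, `#{(π,o) outside} = (n+1)! (n+1-d)`.
`∫ Lc R c = ι ∑_π ∑_{o outside} c π o = ι ∑_{b ≥ d} ∑_π c π (π b)`, and for each `b ≥ d`
`∑_π c π (π b) = ∑_π c π (π last)` (replace `π` by `π * swap b last`, which agrees with `π` on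
`{0,…,d-1}`).  So `∫ Lc R c = W0(Good R)/(n+1)! ∑_π c π (π last)`, `ρ = W0(Good R)/W0(univ)`. -/
def AVG : Prop := ∀ n d : ℕ, 1 ≤ d → d < n →
  W0 n d univ ≠ 0 ∧ W0 n d univ ≠ ⊤ ∧ ∀ θ : ℝ, 0 < θ → ∃ R : ℝ, 1 ≤ R ∧ ∃ ρ : ℝ, 1 - θ ≤ ρ ∧ ρ ≤ 1 ∧
  ∀ c : Equiv.Perm (Fin (n + 1)) → Fin (n + 1) → ℝ,
    (∀ π π' : Equiv.Perm (Fin (n + 1)), (∀ a : Fin (n + 1), a.val < d → π a = π' a) →
      ∀ o, c π o = c π' o) →
    Integrable (Lc R c : (Fin n → Fin d → ℝ) → ℝ) (W0 n d) ∧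
    ∫ Y, Lc R c Y ∂(W0 n d) = (W0 n d univ).toReal * (ρ *
      ((∑ π : Equiv.Perm (Fin (n + 1)), c π (π (Fin.last n))) / (n + 1).factorial))

/-- **LOCAL** (architect, from the other goals). -/
def LOCAL : Prop := ∀ n d : ℕ, 1 ≤ d → d < n → ∀ c : ℝ, 0 ≤ c → c < d / ((n : ℝ) - 1) →
  ∃ τ₀ : ℝ, 0 < τ₀ ∧ ∀ (K : Set (Fin n → ℝ)) (τ : ℝ), Pos n K τ → τ ≤ τ₀ →
  ENNReal.ofReal (1 + c * (1 - (volume K).toReal / (volume (D0 n)).toReal)) *
    (volume (D0 n) ^ d * IQ (Q0 n) (fK d (D0 n))) ≤ volume K ^ d * IQ (Q0 n) (fK d K)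

/-! ### Part O: the official definitions -/

/-- **PV.**  Proof.  Let `S` be the span of `g_0, …, g_(d-1)`, `b` an orthonormal basis of `S` with
`d` elements, `A x = (⟨g_a, x⟩)_a`; `A = (A restricted to S) ∘ (projection onto S)`, and with
`M_{a c} = ⟨g_a, b_c⟩`: `A x = M (⟨b_c, x⟩)_c`, `M Mᵀ = (⟨g_a, g_b⟩) = grm 1 Y`.  So
`volume(lin Y '' K') = |det M| · volume {(⟨b_c, x⟩)_c | x ∈ K} = √det(grm 1 Y) · projVol K S`
(`b.toBasis.addHaar` is the image of the Lebesgue measure under the coordinates;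
`OrthonormalBasis.addHaar_eq_volume`, `measurePreserving_repr`; any two orthonormal bases give the
same measure).  `(ofLp '' K)` is `K` as a set in `Fin n → ℝ`. -/
def PV : Prop := ∀ (n d : ℕ) (g : Fin d → E n), LinearIndependent ℝ g → ∀ K : Set (E n),
  projVol K (Submodule.span ℝ (range g)) *
    ENNReal.ofReal (Real.sqrt (grm 1 (fun (l : Fin n) (a : Fin d) => g a l)).det) =
  volume (lin (fun (l : Fin n) (a : Fin d) => g a l) '' ((fun x : E n => x.ofLp) '' K))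

/-- **GD.**  Proof.  `map_pi_eq_stdGaussian`: `stdGaussian (E n)` is the image of the product of the
`gaussianReal 0 1`; so the left side is an integral over `Fin d → Fin n → ℝ` with respect to the
product of `gaussianReal 0 1 = volume.withDensity (gaussianPDF 0 1)`, density
`∏ (2π)^(-1/2) exp(-Y²/2)`; exchange the order of the two indices (measure preserving). -/
def GD : Prop := ∀ n d : ℕ, ∃ c : ℝ≥0∞, 0 < c ∧ c < ⊤ ∧
  ∀ F : (Fin n → Fin d → ℝ) → ℝ≥0∞, Measurable F →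
  ∫⁻ g : Fin d → E n, F (fun (l : Fin n) (a : Fin d) => g a l)
    ∂(Measure.pi fun _ : Fin d => ProbabilityTheory.stdGaussian (E n)) =
  c * ∫⁻ Y, F Y * ENNReal.ofReal (Real.exp (-(∑ l, ∑ a, Y l a ^ 2) / 2))

/-- **OFF.**  Proof.  For almost all `g` (w.r.t. the Gaussian measure, which is absolutely continuous,
`GD`) the vectors `g_a` are linearly independent (`det (grm 1 Y) ≠ 0`; almost all `Y`: `GPAE` if
`d < n`), and then by `PV` `(projVol K S ^ n)⁻¹ = fK d K' Y · ofReal(√det(grm 1 Y)^n)`; `GD`, and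
`(grm 1 Y).trace = ∑ Y²`.  (`projVol K S` is finite for a body.) -/
def OFF : Prop := ∀ n d : ℕ, 1 ≤ d → d < n → ∃ c : ℝ≥0∞, 0 < c ∧ c < ⊤ ∧
  ∀ K : Set (E n), Body K → mom n d K = c * IQ 1 (fK d ((fun x : E n => x.ofLp) '' K))

/-- **TR.**  Translation between `E n` and `Fin n → ℝ`.  Proof.  `WithLp` equivalences;
`PiLp.volume_preserving_ofLp`; `IsSimplex` allows any index type, which must have `n+1` elements
(`AffineIndependent` and nonempty interior).  For `n ≥ 1`. -/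
def TR : Prop := ∀ (n : ℕ) (K : Set (E n)),
  (Body K ↔ IsBody ((fun x : E n => x.ofLp) '' K)) ∧
  (Splx K ↔ IsSimplex ((fun x : E n => x.ofLp) '' K)) ∧
  volume ((fun x : E n => x.ofLp) '' K) = volume K ∧
  ((fun x : E n => x.ofLp) '' stdS n = Helper67.LM.T (Fin n)) ∧ Splx (stdS n) ∧
  (Splx K → Body K)

end Pool.Agent.Helper31.LQ
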