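import Pool.Agent.Helper31.LQ.Local

/-!
# Assembly of LOCAL, second part
-/

open MeasureTheory Set
open scoped ENNReal Matrix
open Pool.Agent.Helper47.AQ

noncomputable section

namespace Pool.Agent.Helper31.LQ

variable {n d : ℕ}

theorem SL.comp {m k : ℕ} {P : (Fin k → ℝ) → ℝ} (h : SL k P) (L : (Fin m → ℝ) →ₗ[ℝ] (Fin k → ℝ)) :
    SL m fun s => P (L s) where
  cont := h.cont.comp L.continuous_of_finiteDimensional
  nn s := h.nn _
  add s t := by rw [map_add]; exact h.add _ _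
  hom c hc t := by rw [map_smul]; exact h.hom c hc _

/-- `insertNth j 0` as a linear map. -/
def insL {n : ℕ} (j : Fin (n + 1)) : (Fin n → ℝ) →ₗ[ℝ] (Fin (n + 1) → ℝ) where
  toFun s := j.insertNth (α := fun _ => ℝ) 0 s
  map_add' s t := by
    funext o
    refine Fin.succAboveCases j ?_ (fun i => ?_) o
    · simp
    · simp
  map_smul' c t := by
    funext o
    refine Fin.succAboveCases j ?_ (fun i => ?_) o
    · simp
    · simp

theorem insL_apply {n : ℕ} (j : Fin (n + 1)) (s : Fin n → ℝ) :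
    insL j s = j.insertNth (α := fun _ => ℝ) 0 s := rfl

theorem measurableSet_pos (m : ℕ) : MeasurableSet (pos m) := by
  have : pos m = ⋂ a, {t : Fin m → ℝ | 0 < t a} := by
    ext t
    simp [pos]
  rw [this]
  exact MeasurableSet.iInter fun a => measurableSet_lt measurable_const (measurable_pi_apply a)

theorem Ex_nonneg {m : ℕ} {P : (Fin m → ℝ) → ℝ} (h : ∀ t ∈ pos m, 0 ≤ P t) : 0 ≤ Ex m P :=
  setIntegral_nonneg (measurableSet_pos m) fun t ht => mul_nonneg (Real.exp_nonneg _) (h t ht)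

theorem SL.int (hX1 : X1) {m : ℕ} {P : (Fin m → ℝ) → ℝ} (h : SL m P) :
    IntegrableOn (fun t => Real.exp (-∑ a, t a) * P t) (pos m) := by
  have := (hX1 m P h 1 one_pos).1
  simpa using this

theorem Ex_mono (hX1 : X1) {m : ℕ} {P Q : (Fin m → ℝ) → ℝ} (hP : SL m P) (hQ : SL m Q)
    (h : ∀ t ∈ pos m, P t ≤ Q t) : Ex m P ≤ Ex m Q :=
  setIntegral_mono_on (hP.int hX1) (hQ.int hX1) (measurableSet_pos m) fun t ht =>
    mul_le_mul_of_nonneg_left (h t ht) (Real.exp_nonneg _)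

theorem Ex_smul {m : ℕ} (c : ℝ) (P : (Fin m → ℝ) → ℝ) : Ex m (fun t => c * P t) = c * Ex m P := by
  unfold Ex
  rw [← integral_const_mul]
  congr 1
  funext t
  ring

theorem SL.smul {m : ℕ} {P : (Fin m → ℝ) → ℝ} (h : SL m P) {c : ℝ} (hc : 0 ≤ c) :
    SL m fun t => c * P t where
  cont := continuous_const.mul h.cont
  nn t := mul_nonneg hc (h.nn t)
  add s t := by
    have := mul_le_mul_of_nonneg_left (h.add s t) hc
    linarith
  hom a ha t := by rw [h.hom a ha t]; ring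

theorem emb_congr {π π' : Equiv.Perm (Fin (n + 1))}
    (h : ∀ a : Fin (n + 1), a.val < d → π a = π' a) (s : Fin d → ℝ) : emb d π s = emb d π' s := by
  funext o
  unfold emb
  by_cases h1 : (π.symm o).val < d
  · have h2 : π' (π.symm o) = o := by rw [← h _ h1]; simp
    have h3 : π'.symm o = π.symm o := (Equiv.symm_apply_eq π').2 h2.symm
    rw [dif_pos h1, dif_pos (by rw [h3]; exact h1)]
    simp only [h3]
  · by_cases h2 : (π'.symm o).val < d
    · exfalso
      have h3 : π (π'.symm o) = o := by rw [h _ h2]; simp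
      have h4 : π.symm o = π'.symm o := by
        have := congrArg π.symm h3
        simpa using this.symm
      rw [h4] at h1
      exact h1 h2
    · rw [dif_neg h1, dif_neg h2]

theorem EP_congr {π π' : Equiv.Perm (Fin (n + 1))}
    (h : ∀ a : Fin (n + 1), a.val < d → π a = π' a) (P : (Fin (n + 1) → ℝ) → ℝ) :
    EP d π P = EP d π' P := by
  unfold EP
  simp only [emb_congr h]

theorem Th_le (hX1 : X1) (hX2 : X2) {K : Set (Fin n → ℝ)} {τ : ℝ} (hF : Fam n (psi K))
    (hτ : 0 ≤ τ) (hb : ∀ (j : Fin (n + 1)) (t : Fin (n + 1) → ℝ), (∀ o, 0 ≤ t o) → t j = 0 →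
      psi K j t ≤ τ * ∑ o, t o) (j : Fin (n + 1)) : Th j (psi K j) ≤ τ * n := by
  obtain ⟨-, h2, h3⟩ := hX2 n
  have h4 : SL n fun s => psi K j (insL j s) := (hF.sl j).comp (insL j)
  have h5 : Ex n (fun s => psi K j (insL j s)) ≤ Ex n (fun t => τ * ∑ a, |t a|) := by
    refine Ex_mono hX1 h4 (h2.smul hτ) fun t ht => ?_
    refine (hb j _ (fun o => ?_) (by simp [insL_apply])).trans ?_
    · rw [insL_apply]
      refine Fin.succAboveCases j ?_ (fun i => ?_) o
      · simp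
      · simp only [Fin.insertNth_apply_succAbove]
        exact (ht i).le
    · refine mul_le_mul_of_nonneg_left ?_ hτ
      rw [Fin.sum_univ_succAbove _ j]
      simp only [insL_apply, Fin.insertNth_apply_same, Fin.insertNth_apply_succAbove, zero_add]
      exact Finset.sum_le_sum fun a _ => le_abs_self _
  rw [Ex_smul, h3] at h5
  exact h5

/-- The coefficients. -/
def cof (K : Set (Fin n → ℝ)) (d : ℕ) (σ β M' τ : ℝ) (π : Equiv.Perm (Fin (n + 1)))
    (o : Fin (n + 1)) : ℝ :=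
  (1 - β) * (EP d π (sh σ o (psi K o)) - M' * τ * d * Th o (psi K o)) +
    β / M' * EP d π (psi K o)

theorem cof_congr (K : Set (Fin n → ℝ)) (σ β M' τ : ℝ) {π π' : Equiv.Perm (Fin (n + 1))}
    (h : ∀ a : Fin (n + 1), a.val < d → π a = π' a) (o : Fin (n + 1)) :
    cof K d σ β M' τ π o = cof K d σ β M' τ π' o := by
  unfold cof
  rw [EP_congr h, EP_congr h]

theorem cof_sum (hSTH : STH) (K : Set (Fin n → ℝ)) (σ β M' τ : ℝ) :
    (∑ π : Equiv.Perm (Fin (n + 1)), cof K d σ β M' τ π (π (Fin.last n))) / (n + 1).factorial =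
    (1 - β) * (Sm d (fun j => sh σ j (psi K j)) - M' * τ * d * Sm n (psi K)) +
      β / M' * Sm d (psi K) := by
  have h1 : Sm n (psi K) =
      (∑ π : Equiv.Perm (Fin (n + 1)), Th (π (Fin.last n)) (psi K (π (Fin.last n)))) /
        (n + 1).factorial := by
    unfold Sm
    congr 1
    exact Finset.sum_congr rfl fun π _ => (hSTH n).1 π _
  rw [h1]
  unfold cof Sm
  rw [Finset.sum_add_distrib, ← Finset.mul_sum, Finset.sum_sub_distrib, ← Finset.mul_sum,
    ← Finset.mul_sum]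
  ring

/-- The pointwise inequality. -/
theorem pointwise (hn : 1 ≤ n) {K : Set (Fin n → ℝ)} (hKD : K ⊆ D0 n) {Y : Fin n → Fin d → ℝ}
    (hD : 0 < (volume (lin Y '' D0 n)).toReal) (hDt : volume (lin Y '' D0 n) ≠ ⊤) (u : ℝ)
    (h : (volume (lin Y '' K)).toReal ≤ (volume (lin Y '' D0 n)).toReal * (1 - u)) :
    fK d (D0 n) Y * ENNReal.ofReal (1 + n * u) ≤ fK d K Y := by
  have hle : volume (lin Y '' K) ≤ volume (lin Y '' D0 n) := measure_mono (image_mono hKD)
  have hKt : volume (lin Y '' K) ≠ ⊤ := ne_top_of_le_ne_top hDt hle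
  unfold fK
  set a := (volume (lin Y '' K)).toReal with ha
  set b := (volume (lin Y '' D0 n)).toReal with hb
  have e1 : volume (lin Y '' K) = ENNReal.ofReal a := (ENNReal.ofReal_toReal hKt).symm
  have e2 : volume (lin Y '' D0 n) = ENNReal.ofReal b := (ENNReal.ofReal_toReal hDt).symm
  rcases eq_or_lt_of_le (ENNReal.toReal_nonneg (a := volume (lin Y '' K))) with h0 | h0
  · rw [← ha] at h0
    rw [e1, ← h0]
    simp [(Nat.one_le_iff_ne_zero.1 hn)]
  · rw [← ha] at h0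
    have hu : u < 1 := by
      by_contra hcon
      push Not at hcon
      have : b * (1 - u) ≤ 0 := mul_nonpos_of_nonneg_of_nonpos hD.le (by linarith)
      linarith
    have h1u : 0 < 1 - u := by linarith
    rw [e1, e2, ← ENNReal.ofReal_pow h0.le, ← ENNReal.ofReal_pow hD.le,
      ← ENNReal.ofReal_inv_of_pos (by positivity), ← ENNReal.ofReal_inv_of_pos (by positivity),
      ← ENNReal.ofReal_mul (by positivity)]
    refine ENNReal.ofReal_le_ofReal ?_
    calc (b ^ n)⁻¹ * (1 + n * u) ≤ (b ^ n)⁻¹ * ((1 - u) ^ n)⁻¹ :=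
          mul_le_mul_of_nonneg_left (bern n u hu) (by positivity)
      _ = ((b * (1 - u)) ^ n)⁻¹ := by rw [mul_pow, mul_inv]
      _ ≤ (a ^ n)⁻¹ := by
          refine inv_anti₀ (by positivity) (pow_le_pow_left₀ h0.le h n)

theorem ofReal_int_le {α : Type} [MeasurableSpace α] {μ : Measure α} {f : α → ℝ}
    (hf : Integrable f μ) : ENNReal.ofReal (∫ x, f x ∂μ) ≤ ∫⁻ x, ENNReal.ofReal (f x) ∂μ := by
  have h1 : ∫ x, f x ∂μ ≤ ∫ x, max (f x) 0 ∂μ :=
    integral_mono hf hf.pos_part fun x => le_max_left _ _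
  have h2 := ofReal_integral_eq_lintegral_ofReal hf.pos_part
    (Filter.Eventually.of_forall fun x => le_max_right (f x) 0)
  refine (ENNReal.ofReal_le_ofReal h1).trans ?_
  rw [h2]
  refine lintegral_mono fun x => ?_
  rcases le_total (f x) 0 with h | h
  · rw [max_eq_right h]
    simp
  · rw [max_eq_left h]

theorem gLOCAL (hCHAIN : CHAIN) (hSTH : STH) (hPSI : PSI) (hVOL : VOL) (hVD0 : VD0) (hRAT : RAT)
    (hPWE : PWE) (hAVG : AVG) (hFKH : FKH) (hGRM : GRM) (hQ0P : Q0P) (hD0B : D0B) (hGPAE : GPAE)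
    (hX1 : X1) (hX2 : X2) : LOCAL := by
  classical
  intro n d hd hdn c hc hlt
  have hn1 : 1 ≤ n := by omega
  have hnR : (2 : ℝ) ≤ n := by
    have : 2 ≤ n := by omega
    exact_mod_cast this
  have hdR : (1 : ℝ) ≤ d := by exact_mod_cast hd
  set r0 : ℝ := d / ((n : ℝ) - 1) with hr0
  have hr0p : 0 < r0 := by rw [hr0]; exact div_pos (by linarith) (by linarith)
  have hr0e : (n : ℝ) * r0 - d = r0 := by
    rw [hr0]
    have : (n : ℝ) - 1 ≠ 0 := by linarith
    field_simp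
    ring
  set κ : ℝ := r0 - c with hκ
  have hκp : 0 < κ := by rw [hκ]; linarith
  set κ1 : ℝ := κ / (4 * n) with hκ1
  have hκ1p : 0 < κ1 := by rw [hκ1]; positivity
  have hκ1r : κ1 ≤ r0 := by
    rw [hκ1, div_le_iff₀ (by positivity)]
    nlinarith
  set θ : ℝ := κ1 / (4 * r0) with hθ
  have hθp : 0 < θ := by rw [hθ]; positivity
  have hθ1 : θ ≤ 1 := by
    rw [hθ, div_le_iff₀ (by positivity)]
    linarith
  obtain ⟨hW0, hWt, hAV⟩ := hAVG n d hd hdn
  obtain ⟨R, hR, ρ, hρ1, hρ2, hav⟩ := hAV θ hθp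
  obtain ⟨M, M', hM, hMM, hpwe⟩ := hPWE n d hd hdn R hR
  obtain ⟨C, hC, hchain⟩ := hCHAIN n d hd hdn
  obtain ⟨C0, hC0, hpsi⟩ := hPSI n hn1
  have hM'p : 0 < M' := by linarith
  have hMp : 0 ≤ M := by linarith
  set B1 : ℝ := 1 + 2 * ((d + 1) * r0 + M' * d) / κ1 + C * M * M' / θ + (d + 1) +
    2 * (d * n ^ 2 * r0) / κ + d * n with hB1
  have t1 : 0 ≤ 2 * ((d + 1) * r0 + M' * d) / κ1 := by positivity
  have t2 : 0 ≤ C * M * M' / θ := by positivity
  have t3 : (0 : ℝ) ≤ d + 1 := by positivity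
  have t4 : 0 ≤ 2 * (d * n ^ 2 * r0) / κ := by positivity
  have t5 : (0 : ℝ) ≤ d * n := by positivity
  have hB1p : 0 < B1 := by rw [hB1]; positivity
  refine ⟨1 / B1, by positivity, fun K τ hP hτ => ?_⟩
  have hτ0 := hP.tau0
  have hτB : τ * B1 ≤ 1 := by
    rw [le_div_iff₀ hB1p] at hτ
    exact hτ
  have u1 : ((d + 1) * r0 + M' * d) * τ ≤ κ1 / 2 := by
    have : τ * (2 * ((d + 1) * r0 + M' * d) / κ1) ≤ 1 := by
      refine le_trans (mul_le_mul_of_nonneg_left ?_ hτ0) hτB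
      rw [hB1]; linarith
    rw [← mul_div_assoc, div_le_one hκ1p] at this
    linarith
  have u2 : C * M * τ ≤ θ / M' := by
    have : τ * (C * M * M' / θ) ≤ 1 := by
      refine le_trans (mul_le_mul_of_nonneg_left ?_ hτ0) hτB
      rw [hB1]; linarith
    rw [← mul_div_assoc, div_le_one hθp] at this
    rw [le_div_iff₀ hM'p]
    linarith
  have u3 : ((d : ℝ) + 1) * τ ≤ 1 := by
    have : τ * ((d : ℝ) + 1) ≤ 1 := by
      refine le_trans (mul_le_mul_of_nonneg_left ?_ hτ0) hτB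
      rw [hB1]; linarith
    linarith
  have u4 : d * n ^ 2 * r0 * τ ≤ κ / 2 := by
    have : τ * (2 * (d * n ^ 2 * r0) / κ) ≤ 1 := by
      refine le_trans (mul_le_mul_of_nonneg_left ?_ hτ0) hτB
      rw [hB1]; linarith
    rw [← mul_div_assoc, div_le_one hκp] at this
    linarith
  have u5 : (d : ℝ) * n * τ ≤ 1 := by
    have : τ * ((d : ℝ) * n) ≤ 1 := by
      refine le_trans (mul_le_mul_of_nonneg_left ?_ hτ0) hτB
      rw [hB1]; linarith
    linarith
  obtain ⟨hbody, hint, hgc, hF, hb1, hb2, hb3⟩ := hpsi K τ hP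
  obtain ⟨hV0, hvol⟩ := hVOL n hn1
  have hV0p : 0 < (volume (D0 n)).toReal := by
    rw [hV0]
    have : (0 : ℝ) < n.factorial := by exact_mod_cast n.factorial_pos
    positivity
  have hV0t : volume (D0 n) ≠ ⊤ := (hD0B n hn1).2.2.1.vol_ne_top
  have hvolK := hvol K τ hP
  set V := (volume K).toReal with hV
  set V0 := (volume (D0 n)).toReal with hV0'
  set δ : ℝ := 1 - V / V0 with hδ
  set Θ : ℝ := Sm n (psi K) with hΘ
  have hVle : V ≤ V0 := ENNReal.toReal_mono hV0t (measure_mono hP.sub)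
  have hVe : V = V0 * (1 - δ) := by
    rw [hδ]
    field_simp
    ring
  have hδ0 : 0 ≤ δ := by
    rw [hδ, sub_nonneg, div_le_one hV0p]
    exact hVle
  have hδΘ : δ ≤ Θ := by
    have h1 : V0 * (1 - Θ) ≤ V0 * (1 - δ) := by rw [← hVe]; exact hvolK
    have := le_of_mul_le_mul_left h1 hV0p
    linarith
  have hΘn : Θ ≤ τ * n := by
    rw [hΘ, (hSTH n).2, div_le_iff₀ (by positivity)]
    calc ∑ j, Th j (psi K j) ≤ ∑ _j : Fin (n + 1), τ * n :=
          Finset.sum_le_sum fun j _ => Th_le hX1 hX2 hF hτ0 hb2 j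
      _ = τ * n * (n + 1) := by simp; ring
  have hΘ0 : 0 ≤ Θ := hδ0.trans hδΘ
  have hVnn : 0 ≤ V := ENNReal.toReal_nonneg
  have hδ1 : δ ≤ 1 := by
    rw [hδ]
    have : 0 ≤ V / V0 := div_nonneg hVnn hV0p.le
    linarith
  -- the averages
  set A : ℝ := Sm d (fun j => sh (M * τ) j (psi K j)) with hA
  set B : ℝ := Sm d (psi K) with hB
  have hB0 : 0 ≤ B := by
    rw [hB]
    unfold Sm
    refine div_nonneg (Finset.sum_nonneg fun π _ => ?_) (Nat.cast_nonneg _)
    exact Ex_nonneg fun t _ => (hF.sl _).nn _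
  have hch : r0 * Θ ≤ A + C * (M * τ) * B := by
    have h1 := hchain (M * τ) (mul_nonneg hMp hτ0) (psi K) hF
    have h2 : (0 : ℝ) < (n : ℝ) - 1 := by linarith
    rw [hr0, div_mul_eq_mul_div, div_le_iff₀ h2]
    linarith
  set cc : Equiv.Perm (Fin (n + 1)) → Fin (n + 1) → ℝ := cof K d (M * τ) θ M' τ with hcc
  obtain ⟨hint1, hint2⟩ := hav cc fun π π' h o => cof_congr K _ _ _ _ h o
  set X : ℝ := (∑ π : Equiv.Perm (Fin (n + 1)), cc π (π (Fin.last n))) / (n + 1).factorial with hX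
  have hXe : X = (1 - θ) * (A - M' * τ * d * Θ) + θ / M' * B := by
    rw [hX, hcc]
    exact cof_sum hSTH K _ _ _ _
  obtain ⟨hX0, hmain⟩ := arith2 d r0 κ1 M M' C τ θ θ ρ A B Θ X hr0p hκ1p hκ1r hM'p hMp hC hτ0
    hθ hθ hρ1 hch hΘ0 hB0 hXe u1 u2 u3
  set lam : ℝ := ((1 + τ) ^ (d + 1))⁻¹ with hlam
  have hlam0 : 0 ≤ lam := by rw [hlam]; positivity
  -- the pointwise inequality
  have hpt : ∀ᵐ Y : Fin n → Fin d → ℝ, fK d (D0 n) Y *
      ENNReal.ofReal (1 + n * (lam * Lc R cc Y)) ≤ fK d K Y := by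
    filter_upwards [hGPAE n d hd hdn] with Y hY
    obtain ⟨hvd, hvdp, hvdt, hNst⟩ := hVD0 n d hd hdn.le Y hY
    obtain ⟨hU, hrat⟩ := hRAT n d hd hdn K τ hP Y hY
    refine pointwise hn1 hP.sub hvdp hvdt _ (hrat.trans ?_)
    have hN : (0 : ℝ) < (Nst n d : ℝ) * d.factorial := by
      have h1 : (0 : ℝ) < Nst n d := by exact_mod_cast hNst
      have h2 : (0 : ℝ) < d.factorial := by exact_mod_cast d.factorial_pos
      positivity
    set vD := (volume (lin Y '' D0 n)).toReal with hvD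
    have hkey : vD * Lc R cc Y ≤ ((Nst n d : ℝ) * d.factorial)⁻¹ *
        ∑ π : Equiv.Perm (Fin (n + 1)),
          (if IsFac Y π then |(mat Y π).det| * Ex d (Ups Y π K) else 0) := by
      unfold Lc
      by_cases hG : Good R Y
      · rw [if_pos hG]
        have h1 : vD * ((∑ π : Equiv.Perm (Fin (n + 1)), if IsFac Y π then
            |(mat Y π).det| * ∑ o, kp Y π o * cc π o else 0) /
            ((Nst n d : ℝ) * d.factorial * vD)) = ((Nst n d : ℝ) * d.factorial)⁻¹ *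
            ∑ π : Equiv.Perm (Fin (n + 1)), (if IsFac Y π then
            |(mat Y π).det| * ∑ o, kp Y π o * cc π o else 0) := by
          field_simp
        rw [h1]
        refine mul_le_mul_of_nonneg_left (Finset.sum_le_sum fun π _ => ?_) (by positivity)
        by_cases hπ : IsFac Y π
        · rw [if_pos hπ, if_pos hπ]
          refine mul_le_mul_of_nonneg_left ?_ (abs_nonneg _)
          exact hpwe Y hG π hπ K τ hP θ hθp.le hθ1
        · rw [if_neg hπ, if_neg hπ]
      · rw [if_neg hG, mul_zero]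
        refine mul_nonneg (by positivity) (Finset.sum_nonneg fun π _ => ?_)
        split_ifs with hπ
        · exact mul_nonneg (abs_nonneg _) (Ex_nonneg fun t _ => ((hU π hπ).1).nn t)
        · exact le_rfl
    have h2 := mul_le_mul_of_nonneg_left hkey hlam0
    rw [mul_sub, mul_one]
    have h3 : ((Nst n d : ℝ) * d.factorial)⁻¹ * lam * (∑ π : Equiv.Perm (Fin (n + 1)),
          (if IsFac Y π then |(mat Y π).det| * Ex d (Ups Y π K) else 0)) =
        lam * (((Nst n d : ℝ) * d.factorial)⁻¹ * ∑ π : Equiv.Perm (Fin (n + 1)),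
          (if IsFac Y π then |(mat Y π).det| * Ex d (Ups Y π K) else 0)) := by ring
    rw [h3]
    linarith
  -- integrate
  set W : ℝ := (W0 n d univ).toReal with hW
  have hWp : 0 < W := ENNReal.toReal_pos hW0 hWt
  have hfin : IsFiniteMeasure (W0 n d) := ⟨lt_top_iff_ne_top.2 hWt⟩
  have hdens : Measurable fun Y : Fin n → Fin d → ℝ => fK d (D0 n) Y * eta (Q0 n) Y :=
    ((hFKH n d (D0 n) (hD0B n hn1).2.2.1.comp).1).mul
      ((hGRM n d (Q0 n) (hQ0P n d).1 (fun _ _ => 0)).2.2.2.2.2)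
  have hIQD : IQ (Q0 n) (fK d (D0 n)) = W0 n d univ := by
    unfold IQ W0
    rw [withDensity_apply _ MeasurableSet.univ, Measure.restrict_univ]
  have hi : Integrable (fun Y : Fin n → Fin d → ℝ => 1 + (n : ℝ) * (lam * Lc R cc Y)) (W0 n d) :=
    (integrable_const _).add ((hint1.const_mul _).const_mul _)
  have hIQK : ENNReal.ofReal (W * (1 + n * (lam * (ρ * X)))) ≤ IQ (Q0 n) (fK d K) := by
    have h1 : ENNReal.ofReal (∫ Y : Fin n → Fin d → ℝ, (1 + (n : ℝ) * (lam * Lc R cc Y)) ∂(W0 n d)) ≤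
        ∫⁻ Y : Fin n → Fin d → ℝ, ENNReal.ofReal (1 + (n : ℝ) * (lam * Lc R cc Y)) ∂(W0 n d) :=
      ofReal_int_le hi
    have h2 : ∫ Y : Fin n → Fin d → ℝ, (1 + (n : ℝ) * (lam * Lc R cc Y)) ∂(W0 n d) =
        W * (1 + n * (lam * (ρ * X))) := by
      rw [integral_add (integrable_const _) ((hint1.const_mul _).const_mul _), integral_const_mul,
        integral_const_mul, hint2]
      simp only [integral_const, smul_eq_mul, mul_one, Measure.real]
      rw [← hW]
      ring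
    rw [← h2]
    refine h1.trans ?_
    have h3 : ∫⁻ Y : Fin n → Fin d → ℝ,
        ENNReal.ofReal (1 + (n : ℝ) * (lam * Lc R cc Y)) ∂(W0 n d) =
        ∫⁻ Y : Fin n → Fin d → ℝ, (fK d (D0 n) Y * eta (Q0 n) Y) *
          ENNReal.ofReal (1 + (n : ℝ) * (lam * Lc R cc Y)) :=
      lintegral_withDensity_eq_lintegral_mul₀' hdens.aemeasurable
        (hi.aestronglyMeasurable.aemeasurable.ennreal_ofReal)
    rw [h3]
    unfold IQ
    refine lintegral_mono_ae ?_
    filter_upwards [hpt] with Y hY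
    calc (fK d (D0 n) Y * eta (Q0 n) Y) * ENNReal.ofReal (1 + (n : ℝ) * (lam * Lc R cc Y))
        = (fK d (D0 n) Y * ENNReal.ofReal (1 + (n : ℝ) * (lam * Lc R cc Y))) * eta (Q0 n) Y := by
          ring
      _ ≤ fK d K Y * eta (Q0 n) Y := by gcongr
  -- conclusion
  have hG : 1 + n * (r0 - κ1) * Θ ≤ 1 + n * (lam * (ρ * X)) := by
    have := mul_le_mul_of_nonneg_left hmain (Nat.cast_nonneg (α := ℝ) n)
    linarith
  have hnδ : δ ≤ τ * n := hδΘ.trans hΘn
  have hsm : c + n * κ1 + d * n * r0 * δ ≤ r0 := by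
    have h1 : (n : ℝ) * κ1 = κ / 4 := by rw [hκ1]; field_simp
    have h2 : d * n * r0 * δ ≤ d * n * r0 * (τ * n) :=
      mul_le_mul_of_nonneg_left hnδ (by positivity)
    have h3 : d * n * r0 * (τ * n) = d * n ^ 2 * r0 * τ := by ring
    rw [h1]
    linarith
  have hdδ : d * δ ≤ 1 := by
    have h1 : (d : ℝ) * δ ≤ d * (τ * n) := mul_le_mul_of_nonneg_left hnδ (by positivity)
    linarith
  have hfinal := arith n d r0 c κ1 δ Θ (1 + n * (lam * (ρ * X))) hc hr0e hr0p hκ1r hδ0 hδΘ hG hsm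
    hκ1p.le hdδ hδ1
  have hKt : volume K ≠ ⊤ := ne_top_of_le_ne_top hV0t (measure_mono hP.sub)
  have eK : volume K = ENNReal.ofReal V := (ENNReal.ofReal_toReal hKt).symm
  have eD : volume (D0 n) = ENNReal.ofReal V0 := (ENNReal.ofReal_toReal hV0t).symm
  have eW : W0 n d univ = ENNReal.ofReal W := (ENNReal.ofReal_toReal hWt).symm
  rw [hIQD, eW, eK, eD]
  refine le_trans ?_ (mul_le_mul_right hIQK _)
  have h1δ : 0 ≤ 1 - δ := by linarith
  have hcδ : 0 ≤ 1 + c * δ := by positivity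
  rw [← ENNReal.ofReal_pow hV0p.le, ← ENNReal.ofReal_pow hVnn, ← ENNReal.ofReal_mul (by positivity),
    ← ENNReal.ofReal_mul hcδ, ← ENNReal.ofReal_mul (by positivity)]
  refine ENNReal.ofReal_le_ofReal ?_
  rw [hVe, mul_pow]
  have h9 : 0 ≤ V0 ^ d * W := by positivity
  have := mul_le_mul_of_nonneg_left hfinal h9
  nlinarith [this]

end Pool.Agent.Helper31.LQ
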