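import Pool.Agent.Helper31.LQ.Final2

/-!
# Final assembly, third part: the statement in Euclidean space
-/

open MeasureTheory Set
open scoped ENNReal Matrix Pointwise
open Pool.Agent.Helper47.AQ (IsBody IsSimplex)
open Pool.Agent.Helper67.LM (T body_T simplex_T)

noncomputable section

namespace Pool.Agent.Helper31.LQ

theorem kap_pos (n : ℕ) : 0 < kap n :=
  ENNReal.toReal_pos (Metric.measure_ball_pos volume _ one_pos).ne' (measure_ball_lt_top).ne

theorem root_eq (n i : ℕ) (hn : 1 ≤ n) (v m : ℝ) (hv : 0 < v) (hm : 0 < m) :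
    v ^ ((i : ℝ) / n) * m ^ (1 / (n : ℝ)) = (v ^ i * m) ^ (1 / (n : ℝ)) := by
  rw [Real.mul_rpow (by positivity) hm.le, ← Real.rpow_natCast v i, ← Real.rpow_mul hv.le]
  congr 2
  ring

/-- The inequality and the case of equality in terms of `V(K)^i ∫ λ_i(K|S)^{-n} dS`. -/
theorem Phi_iff (n i : ℕ) (hn : 1 ≤ n) (K : Set (E n)) (hv : 0 < (volume K).toReal)
    (hm : 0 < (mom n i K).toReal) (hvT : 0 < (volume (stdS n)).toReal)
    (hmT : 0 < (mom n i (stdS n)).toReal) :
    (aS n i * Phi n i K ≤ kap n ^ (((n : ℝ) - i) / n) * (volume K).toReal ^ ((i : ℝ) / n) ↔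
      (volume (stdS n)).toReal ^ i * (mom n i (stdS n)).toReal ≤
        (volume K).toReal ^ i * (mom n i K).toReal) ∧
    (aS n i * Phi n i K = kap n ^ (((n : ℝ) - i) / n) * (volume K).toReal ^ ((i : ℝ) / n) ↔
      (volume (stdS n)).toReal ^ i * (mom n i (stdS n)).toReal =
        (volume K).toReal ^ i * (mom n i K).toReal) := by
  unfold aS Phi
  set v := (volume K).toReal
  set m := (mom n i K).toReal
  set vT := (volume (stdS n)).toReal
  set mT := (mom n i (stdS n)).toReal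
  have hkn := kap_pos n
  have hki := kap_pos i
  set k := kap n ^ (((n : ℝ) - i) / n) with hk
  have hkp : 0 < k := Real.rpow_pos_of_pos hkn _
  have hmi : 0 < m ^ (1 / (n : ℝ)) := Real.rpow_pos_of_pos hm _
  have hmTi : 0 < mT ^ (1 / (n : ℝ)) := Real.rpow_pos_of_pos hmT _
  have e1 : k * vT ^ ((i : ℝ) / n) / (kap n / kap i * mT ^ (-(1 / (n : ℝ)))) *
      (kap n / kap i * m ^ (-(1 / (n : ℝ)))) =
      k / m ^ (1 / (n : ℝ)) * (vT ^ i * mT) ^ (1 / (n : ℝ)) := by
    rw [← root_eq n i hn vT mT hvT hmT, Real.rpow_neg hm.le, Real.rpow_neg hmT.le]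
    field_simp
  have e2 : k * v ^ ((i : ℝ) / n) =
      k / m ^ (1 / (n : ℝ)) * (v ^ i * m) ^ (1 / (n : ℝ)) := by
    rw [← root_eq n i hn v m hv hm]
    field_simp
  have hq : 0 < k / m ^ (1 / (n : ℝ)) := div_pos hkp hmi
  have hnR : (0 : ℝ) < 1 / n := by
    have : (0 : ℝ) < n := by exact_mod_cast hn
    positivity
  have a1 : 0 ≤ vT ^ i * mT := by positivity
  have a2 : 0 ≤ v ^ i * m := by positivity
  rw [e1, e2]
  constructor
  · rw [mul_le_mul_iff_right₀ hq, Real.rpow_le_rpow_iff a1 a2 hnR]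
  · rw [mul_right_inj' hq.ne']
    exact (Real.rpow_left_injOn hnR.ne').eq_iff a1 a2

theorem final (hCO : CO) (hD0B : D0B) (hLOCAL : LOCAL) (hG2 : G2) (hFKH : FKH) (hAFFJ : AFFJ)
    (hQ0P : Q0P) (hTR : TR) (hOFF : OFF) (hJFIN : JFIN) (n i : ℕ) (hi : 1 ≤ i) (hin : i < n)
    (c : ℝ) (hc : c < i / ((n : ℝ) - 1)) : ∃ ε : ℝ, 0 < ε ∧
    ∀ K : Set (E n), Body K → ∀ D : Set (E n), Splx D → K ⊆ D →
      (1 - ε) * (volume D).toReal ≤ (volume K).toReal →
      aS n i * Phi n i K ≤ kap n ^ (((n : ℝ) - i) / n) * (volume K).toReal ^ ((i : ℝ) / n) ∧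
      (aS n i * Phi n i K = kap n ^ (((n : ℝ) - i) / n) * (volume K).toReal ^ ((i : ℝ) / n) ↔
        Splx K) ∧
      ∃ D' : Set (E n), Splx D' ∧ K ⊆ D' ∧
        (1 + c * (1 - (volume K).toReal / (volume D').toReal)) *
          ((volume (stdS n)).toReal ^ i * (mom n i (stdS n)).toReal) ≤
        (volume K).toReal ^ i * (mom n i K).toReal := by
  have hn : 1 ≤ n := by omega
  have hr0 : 0 < (i : ℝ) / ((n : ℝ) - 1) := by
    have h1 : (1 : ℝ) ≤ i := by exact_mod_cast hi
    have h2 : (2 : ℝ) ≤ n := by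
      have : 2 ≤ n := by omega
      exact_mod_cast this
    exact div_pos (by linarith) (by linarith)
  set r0 : ℝ := (i : ℝ) / ((n : ℝ) - 1) with hr0d
  set c' : ℝ := max c (r0 / 2) with hc'
  have hc'0 : 0 < c' := lt_of_lt_of_le (by positivity) (le_max_right _ _)
  have hc'1 : c' < r0 := max_lt hc (by linarith)
  obtain ⟨ε, hε, hmain⟩ := gMAIN hCO hD0B hLOCAL hG2 hFKH hAFFJ hQ0P n i hi hin c' hc'0.le hc'1
  obtain ⟨c0, hc0, hc0t, hoff⟩ := hOFF n i hi hin
  have hTv : 0 < volume (stdS n) ∧ volume (stdS n) ≠ ⊤ := by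
    obtain ⟨-, -, h3, h4, -⟩ := hTR n (stdS n)
    rw [← h3, h4]
    refine ⟨?_, body_T.vol_ne_top⟩
    have := (body_T (ι := Fin n)).vol_pos
    exact (ENNReal.toReal_pos_iff.1 this).1
  have hQ1 : (1 : Matrix (Fin n) (Fin n) ℝ).PosDef := (hQ0P n i).2.1
  have hS : Splx (stdS n) := (hTR n (stdS n)).2.2.2.2.1
  have hSb : Body (stdS n) := (hTR n (stdS n)).2.2.2.2.2 hS
  -- facts for a body
  have hfact : ∀ K : Set (E n), Body K → 0 < (volume K).toReal ∧ volume K ≠ ⊤ ∧
      0 < (mom n i K).toReal ∧ mom n i K ≠ ⊤ := by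
    intro K hK
    obtain ⟨h1, -, h3, -⟩ := hTR n K
    have hb := h1.1 hK
    have hj := hJFIN n i hi hin.le _ hb 1 hQ1
    have hmk := hoff K hK
    have hlt : mom n i K < ⊤ := by
      rw [hmk]
      exact ENNReal.mul_lt_top hc0t hj.2
    refine ⟨?_, ?_, ?_, hlt.ne⟩
    · rw [← h3]; exact hb.vol_pos
    · rw [← h3]; exact hb.vol_ne_top
    · refine ENNReal.toReal_pos ?_ hlt.ne
      rw [hmk]
      exact mul_ne_zero hc0.ne' hj.1.ne'
  have hval : ∀ K : Set (E n), Body K → volume K ^ i * mom n i K =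
      c0 * (volume ((fun x : E n => x.ofLp) '' K) ^ i *
        IQ 1 (fK i ((fun x : E n => x.ofLp) '' K))) := by
    intro K hK
    rw [hoff K hK, (hTR n K).2.2.1]
    ring
  obtain ⟨hvT, hvTt, hmT, hmTt⟩ := hfact _ hSb
  refine ⟨ε, hε, fun K hK D hD hKD hvol => ?_⟩
  obtain ⟨hv, hvt, hm, hmt⟩ := hfact K hK
  set g : E n → (Fin n → ℝ) := fun x : E n => x.ofLp with hg
  have hginj : Function.Injective g := WithLp.ofLp_injective 2
  have hKb : IsBody (g '' K) := ((hTR n K).1).1 hK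
  have hDs : IsSimplex (g '' D) := ((hTR n D).2.1).1 hD
  obtain ⟨D1, hD1, hKD1, hineq⟩ := hmain (g '' K) hKb (g '' D) hDs (image_mono hKD) (by
    rw [(hTR n K).2.2.1, (hTR n D).2.2.1]; exact hvol)
  set D' : Set (E n) := g ⁻¹' D1 with hD'
  have hgD' : g '' D' = D1 := image_preimage_eq D1 (fun y => ⟨WithLp.toLp 2 y, rfl⟩)
  have hD's : Splx D' := ((hTR n D').2.1).2 (by rw [← hg, hgD']; exact hD1)
  have hKD' : K ⊆ D' := fun x hx => hKD1 ⟨x, hx, rfl⟩
  have hvD' : (volume D').toReal = (volume D1).toReal := by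
    rw [← (hTR n D').2.2.1, ← hg, hgD']
  obtain ⟨hvD, hvDt, -, -⟩ := hfact D' ((hTR n D').2.2.2.2.2 hD's)
  set q : ℝ := 1 - (volume K).toReal / (volume D').toReal with hq
  have hq0 : 0 ≤ q := by
    rw [hq, sub_nonneg, div_le_one hvD]
    exact ENNReal.toReal_mono hvDt (measure_mono hKD')
  -- the strong inequality
  have hstrong : (1 + c' * q) *
      ((volume (stdS n)).toReal ^ i * (mom n i (stdS n)).toReal) ≤
      (volume K).toReal ^ i * (mom n i K).toReal := by
    have h1 : ENNReal.ofReal (1 + c' * q) * (volume (stdS n) ^ i * mom n i (stdS n)) ≤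
        volume K ^ i * mom n i K := by
      rw [hval _ hSb, hval _ hK, (hTR n (stdS n)).2.2.2.1]
      have h2 : ENNReal.ofReal (1 + c' * (1 - (volume (g '' K)).toReal / (volume D1).toReal)) *
        (volume (T (Fin n)) ^ i * IQ 1 (fK i (T (Fin n)))) ≤
        volume (g '' K) ^ i * IQ 1 (fK i (g '' K)) := hineq
      rw [(hTR n K).2.2.1, ← hvD', ← hq] at h2
      calc ENNReal.ofReal (1 + c' * q) * (c0 * (volume (T (Fin n)) ^ i *
            IQ 1 (fK i (T (Fin n)))))
          = c0 * (ENNReal.ofReal (1 + c' * q) * (volume (T (Fin n)) ^ i *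
            IQ 1 (fK i (T (Fin n))))) := by ring
        _ ≤ c0 * (volume K ^ i * IQ 1 (fK i (g '' K))) := mul_le_mul_right h2 _
        _ = c0 * (volume (g '' K) ^ i * IQ 1 (fK i (g '' K))) := by rw [(hTR n K).2.2.1]
    have h3 := ENNReal.toReal_mono (ENNReal.mul_ne_top (ENNReal.pow_ne_top hvt) hmt) h1
    rw [ENNReal.toReal_mul, ENNReal.toReal_mul, ENNReal.toReal_mul, ENNReal.toReal_pow,
      ENNReal.toReal_pow, ENNReal.toReal_ofReal (by positivity)] at h3
    exact h3
  have hST : 0 < (volume (stdS n)).toReal ^ i * (mom n i (stdS n)).toReal := by positivity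
  obtain ⟨hiff1, hiff2⟩ := Phi_iff n i hn K hv hm hvT hmT
  have hle : (volume (stdS n)).toReal ^ i * (mom n i (stdS n)).toReal ≤
      (volume K).toReal ^ i * (mom n i K).toReal := by
    refine le_trans ?_ hstrong
    exact le_mul_of_one_le_left hST.le (by nlinarith)
  refine ⟨hiff1.2 hle, ⟨fun h => ?_, fun h => hiff2.2 ?_⟩, D', hD's, hKD', ?_⟩
  · have h1 := hiff2.1 h
    rw [← h1] at hstrong
    have h2 : 1 + c' * q ≤ 1 := by
      by_contra hcon
      push Not at hcon
      have := mul_lt_mul_of_pos_right hcon hST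
      linarith
    have h3 : q ≤ 0 := by
      by_contra hcon
      push Not at hcon
      have := mul_pos hc'0 hcon
      linarith
    have h4 : (volume D').toReal ≤ (volume K).toReal := by
      have h5 : 1 ≤ (volume K).toReal / (volume D').toReal := by linarith
      rwa [one_le_div hvD] at h5
    have h6 : g '' K = D1 := by
      refine Pool.Agent.Helper67.LM.eq_of_vol_eq hKb hD1.isBody hKD1 ?_
      rw [← hvD', (hTR n K).2.2.1]
      exact h4
    have h7 : K = D' := by
      rw [hD', ← h6, preimage_image_eq K hginj]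
    rw [h7]
    exact hD's
  · have hKs : IsSimplex (g '' K) := ((hTR n K).2.1).1 h
    have h1 : volume (stdS n) ^ i * mom n i (stdS n) = volume K ^ i * mom n i K := by
      rw [hval _ hSb, hval _ hK, (hTR n (stdS n)).2.2.2.1, simplex_value hAFFJ hi hin hKs]
    have h2 := congrArg ENNReal.toReal h1
    rw [ENNReal.toReal_mul, ENNReal.toReal_mul, ENNReal.toReal_pow, ENNReal.toReal_pow] at h2
    exact h2
  · refine le_trans (mul_le_mul_of_nonneg_right ?_ hST.le) hstrong
    have : c ≤ c' := le_max_left _ _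
    nlinarith

end Pool.Agent.Helper31.LQ
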