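import Pool.Agent.Helper31.LQ.Goals2
import Pool.Agent.Helper31.LQ.Final3

/-!
# The constant `i/(n-1)` cannot be improved
-/

open MeasureTheory Set Filter Topology
open scoped ENNReal Matrix Pointwise
open Pool.Agent.Helper47.AQ (IsBody IsSimplex)
open Pool.Agent.Helper67.LM (T body_T simplex_T)

noncomputable section

namespace Pool.Agent.Helper31.LQ

/-- The elementary inequality at small `τ`. -/
theorem small_tau (n d : ℕ) (hn : 2 ≤ n) (c C : ℝ) (hc : (d : ℝ) < c * ((n : ℝ) - 1)) :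
    ∀ᶠ τ : ℝ in 𝓝[>] 0, (1 + τ) ^ d < 1 + c * (1 - (1 + C * τ ^ 2) / (1 + τ) ^ (n - 1)) := by
  have hcast : (((n - 1 : ℕ) : ℝ)) = (n : ℝ) - 1 := by
    rw [Nat.cast_sub (by omega)]; simp
  set h : ℝ → ℝ := fun τ => 1 + c * (1 - (1 + C * τ ^ 2) / (1 + τ) ^ (n - 1)) - (1 + τ) ^ d with hh
  have h1 : HasDerivAt (fun τ : ℝ => 1 + τ) 1 0 := (hasDerivAt_id (0 : ℝ)).const_add 1
  have h2 : HasDerivAt (fun τ : ℝ => (1 + τ) ^ (n - 1)) ((n : ℝ) - 1) 0 := by
    have := h1.pow (n - 1)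
    simp only [add_zero, one_pow, mul_one] at this
    rwa [hcast] at this
  have h3 : HasDerivAt (fun τ : ℝ => (1 + τ) ^ d) (d : ℝ) 0 := by
    have := h1.pow d
    simp only [add_zero, one_pow, mul_one] at this
    exact this
  have h4 : HasDerivAt (fun τ : ℝ => 1 + C * τ ^ 2) 0 0 := by
    have := (((hasDerivAt_id (0 : ℝ)).pow 2).const_mul C).const_add 1
    simpa using this
  have h5 : HasDerivAt (fun τ : ℝ => (1 + C * τ ^ 2) / (1 + τ) ^ (n - 1)) (-((n : ℝ) - 1)) 0 := by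
    have := h4.div h2 (by simp)
    have e : (0 * (1 + (0 : ℝ)) ^ (n - 1) - (1 + C * 0 ^ 2) * ((n : ℝ) - 1)) /
        ((1 + (0 : ℝ)) ^ (n - 1)) ^ 2 = -((n : ℝ) - 1) := by simp
    rw [← e]
    exact this
  have h6 : HasDerivAt h (c * ((n : ℝ) - 1) - d) 0 := by
    have := (((h5.const_sub 1).const_mul c).const_add 1).sub h3
    rw [neg_neg] at this
    exact this
  have h0 : h 0 = 0 := by simp [hh]
  have h7 : Tendsto (slope h 0) (𝓝[≠] 0) (𝓝 (c * ((n : ℝ) - 1) - d)) :=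
    hasDerivAt_iff_tendsto_slope.1 h6
  have h8 : ∀ᶠ τ : ℝ in 𝓝[≠] 0, 0 < slope h 0 τ := h7.eventually (lt_mem_nhds (by linarith))
  have h9 : ∀ᶠ τ : ℝ in 𝓝[>] 0, 0 < slope h 0 τ :=
    h8.filter_mono (nhdsWithin_mono _ fun x hx => ne_of_gt hx)
  filter_upwards [h9, self_mem_nhdsWithin] with τ hτ hτ0
  rw [slope_def_field, h0, sub_zero, sub_zero] at hτ
  have hpos : 0 < h τ := by
    by_contra hcon
    push Not at hcon
    exact absurd hτ (not_lt.2 (div_nonpos_of_nonpos_of_nonneg hcon (le_of_lt hτ0)))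
  have : h τ = 1 + c * (1 - (1 + C * τ ^ 2) / (1 + τ) ^ (n - 1)) - (1 + τ) ^ d := rfl
  linarith

theorem small_eps (n : ℕ) (ε : ℝ) (hε : 0 < ε) :
    ∀ᶠ τ : ℝ in 𝓝[>] 0, (1 - ε) * (1 + τ) ^ n < 1 := by
  have h1 : Continuous fun τ : ℝ => (1 - ε) * (1 + τ) ^ n := by fun_prop
  have h2 : Tendsto (fun τ : ℝ => (1 - ε) * (1 + τ) ^ n) (𝓝[>] 0) (𝓝 (1 - ε)) := by
    have := (h1.tendsto 0).mono_left (nhdsWithin_le_nhds (s := Ioi (0 : ℝ)))
    simpa using this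
  exact h2.eventually (gt_mem_nhds (by linarith))

theorem gSHARP (hSH1 : SH1) (hSH2 : SH2) (hSH3 : SH3) (hD0B : D0B) (hAFFJ : AFFJ) (hJFIN : JFIN)
    (hQ0P : Q0P) : SHARP := by
  intro n d hd hdn c hc ε hε
  have hn : 1 ≤ n := by omega
  have hn2 : 2 ≤ n := by omega
  have hnR : (0 : ℝ) < (n : ℝ) - 1 := by
    have : (2 : ℝ) ≤ n := by exact_mod_cast hn2
    linarith
  have hc1 : (d : ℝ) < c * ((n : ℝ) - 1) := by rwa [div_lt_iff₀ hnR] at hc
  have hdR : (0 : ℝ) < d := by exact_mod_cast hd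
  have hc0 : 0 < c := by
    by_contra hcon
    push Not at hcon
    nlinarith
  obtain ⟨C, hC, hSH2'⟩ := hSH2 n hn
  have hle1 : ∀ᶠ τ : ℝ in 𝓝[>] 0, τ ≤ 1 :=
    nhdsWithin_le_nhds (s := Ioi (0 : ℝ)) (Iic_mem_nhds (zero_lt_one' ℝ))
  have hgt0 : ∀ᶠ τ : ℝ in 𝓝[>] 0, 0 < τ := self_mem_nhdsWithin
  obtain ⟨τ, hτ1, hτ2, hτ3, hτ0⟩ := ((small_tau n d hn2 c C hc1).and
    ((small_eps n ε hε).and (hle1.and hgt0))).exists
  obtain ⟨hKb, hKsub, hKsup, hKv⟩ := hSH1 n hn τ hτ0 hτ3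
  obtain ⟨-, hDs, hDb, -⟩ := hD0B n hn
  have hvD : 0 < (volume (D0 n)).toReal := hDb.vol_pos
  have hvDt : volume (D0 n) ≠ ⊤ := hDb.vol_ne_top
  have hvK : 0 < (volume (Kt n τ)).toReal := hKb.vol_pos
  have hvKt : volume (Kt n τ) ≠ ⊤ := hKb.vol_ne_top
  have h1τ : 0 < 1 + τ := by linarith
  -- the lower bound of the volume
  have hlow : (volume (D0 n)).toReal ≤ (1 + τ) ^ n * (volume (Kt n τ)).toReal := by
    have h1 : volume ((1 + τ)⁻¹ • D0 n) ≤ volume (Kt n τ) := measure_mono hKsup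
    have h2 := ENNReal.toReal_mono hvKt h1
    rw [Measure.addHaar_smul, ENNReal.toReal_mul, ENNReal.toReal_ofReal (abs_nonneg _)] at h2
    have h3 : |(1 + τ)⁻¹ ^ Module.finrank ℝ (Fin n → ℝ)| = ((1 + τ) ^ n)⁻¹ := by
      rw [Module.finrank_fintype_fun_eq_card, Fintype.card_fin, inv_pow, abs_of_pos (by positivity)]
    rw [h3, inv_mul_le_iff₀ (by positivity)] at h2
    exact h2
  refine ⟨Kt n τ, hKb, hKsub, ?_, fun D' hD' hKD' => ?_⟩
  · by_contra hcon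
    push Not at hcon
    have h1 : (1 + τ) ^ n * (volume (Kt n τ)).toReal <
        ((1 - ε) * (1 + τ) ^ n) * (volume (D0 n)).toReal := by
      have := mul_lt_mul_of_pos_left hcon (show 0 < (1 + τ) ^ n by positivity)
      linarith
    have h2 : ((1 - ε) * (1 + τ) ^ n) * (volume (D0 n)).toReal < 1 * (volume (D0 n)).toReal :=
      mul_lt_mul_of_pos_right hτ2 hvD
    linarith
  · have hv' : 0 < (volume D').toReal := hD'.isBody.vol_pos
    have hv2 := hSH2' τ hτ0 hτ3 D' hD' hKD'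
    -- the ratio of the volumes
    have hP : 0 < (1 + τ) ^ (n - 1) := by positivity
    have hQ : 0 < 1 + C * τ ^ 2 := by positivity
    have hrat : (volume (Kt n τ)).toReal / (volume D').toReal ≤
        (1 + C * τ ^ 2) / (1 + τ) ^ (n - 1) := by
      rw [div_le_div_iff₀ hv' hP]
      exact hKv.trans hv2
    have hQ1 : (1 : Matrix (Fin n) (Fin n) ℝ).PosDef := (hQ0P n d).2.1
    have hJ := hJFIN n d hd hdn.le _ hDb 1 hQ1
    have hS : volume (T (Fin n)) ^ d * IQ 1 (fK d (T (Fin n))) =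
        volume (D0 n) ^ d * IQ 1 (fK d (D0 n)) := (simplex_value hAFFJ hd hdn hDs).symm
    have hS0 : volume (D0 n) ^ d * IQ 1 (fK d (D0 n)) ≠ 0 :=
      mul_ne_zero (pow_ne_zero _ (ENNReal.toReal_pos_iff.1 hvD).1.ne') hJ.1.ne'
    have hSt : volume (D0 n) ^ d * IQ 1 (fK d (D0 n)) ≠ ⊤ :=
      ENNReal.mul_ne_top (ENNReal.pow_ne_top hvDt) hJ.2.ne
    rw [hS]
    have hJ3 := hSH3 n d hd hdn τ hτ0 hτ3
    -- the volume of the body in `ENNReal`
    have hvE : volume (Kt n τ) ≤ ENNReal.ofReal (((1 + τ) ^ (n - 1))⁻¹) * volume (D0 n) := by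
      rw [← ENNReal.ofReal_toReal hvKt, ← ENNReal.ofReal_toReal hvDt,
        ← ENNReal.ofReal_mul (by positivity)]
      refine ENNReal.ofReal_le_ofReal ?_
      rw [inv_mul_eq_div, le_div_iff₀ hP]
      exact hKv
    have hexp : ENNReal.ofReal (((1 + τ) ^ (n - 1))⁻¹) ^ d * ENNReal.ofReal ((1 + τ) ^ (n * d)) =
        ENNReal.ofReal ((1 + τ) ^ d) := by
      rw [← ENNReal.ofReal_pow (by positivity), ← ENNReal.ofReal_mul (by positivity)]
      congr 1
      obtain ⟨m, rfl⟩ : ∃ m, n = m + 1 := ⟨n - 1, by omega⟩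
      simp only [Nat.add_sub_cancel]
      rw [inv_pow, ← pow_mul, show (m + 1) * d = m * d + d by ring, pow_add]
      field_simp
    have hle : volume (Kt n τ) ^ d * IQ 1 (fK d (Kt n τ)) ≤
        ENNReal.ofReal ((1 + τ) ^ d) * (volume (D0 n) ^ d * IQ 1 (fK d (D0 n))) := by
      calc volume (Kt n τ) ^ d * IQ 1 (fK d (Kt n τ))
          ≤ (ENNReal.ofReal (((1 + τ) ^ (n - 1))⁻¹) * volume (D0 n)) ^ d *
            (ENNReal.ofReal ((1 + τ) ^ (n * d)) * IQ 1 (fK d (D0 n))) :=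
            mul_le_mul' (pow_le_pow_left₀ zero_le hvE d) hJ3
        _ = (ENNReal.ofReal (((1 + τ) ^ (n - 1))⁻¹) ^ d * ENNReal.ofReal ((1 + τ) ^ (n * d))) *
            (volume (D0 n) ^ d * IQ 1 (fK d (D0 n))) := by ring
        _ = _ := by rw [hexp]
    refine lt_of_le_of_lt hle ?_
    refine ENNReal.mul_lt_mul_left hS0 hSt ?_
    have hlt : (1 + τ) ^ d < 1 + c * (1 - (volume (Kt n τ)).toReal / (volume D').toReal) := by
      refine lt_of_lt_of_le hτ1 ?_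
      have := mul_le_mul_of_nonneg_left hrat hc0.le
      nlinarith
    exact (ENNReal.ofReal_lt_ofReal_iff (lt_trans (by positivity) hlt)).2 hlt

/-- The integral is positive and finite. -/
theorem mom_fin (hOFF : OFF) (hJFIN : JFIN) (hQ0P : Q0P) (hTR : TR) (n i : ℕ) (hi : 1 ≤ i)
    (hin : i < n) (K : Set (E n)) (hK : Body K) : 0 < mom n i K ∧ mom n i K < ⊤ := by
  obtain ⟨c0, hc0, hc0t, hoff⟩ := hOFF n i hi hin
  have hb := ((hTR n K).1).1 hK
  have hj := hJFIN n i hi hin.le _ hb 1 (hQ0P n i).2.1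
  rw [hoff K hK]
  exact ⟨ENNReal.mul_pos hc0.ne' hj.1.ne', ENNReal.mul_lt_top hc0t hj.2⟩

/-- The same statement in Euclidean space. -/
theorem sharp_final (hSHARP : SHARP) (hD0B : D0B) (hTR : TR) (hOFF : OFF) (hJFIN : JFIN)
    (hQ0P : Q0P) (n i : ℕ) (hi : 1 ≤ i) (hin : i < n)
    (c : ℝ) (hc : i / ((n : ℝ) - 1) < c) (ε : ℝ) (hε : 0 < ε) :
    ∃ K D : Set (E n), Body K ∧ Splx D ∧ K ⊆ D ∧
      (1 - ε) * (volume D).toReal ≤ (volume K).toReal ∧
      ∀ D' : Set (E n), Splx D' → K ⊆ D' →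
        (volume K).toReal ^ i * (mom n i K).toReal <
        (1 + c * (1 - (volume K).toReal / (volume D').toReal)) *
          ((volume (stdS n)).toReal ^ i * (mom n i (stdS n)).toReal) := by
  have hn : 1 ≤ n := by omega
  have hc0 : 0 < c := by
    refine lt_of_le_of_lt ?_ hc
    have h2 : (1 : ℝ) ≤ n := by exact_mod_cast hn
    exact div_nonneg (by positivity) (by linarith)
  obtain ⟨K1, hK1, hK1D, hvol, hmain⟩ := hSHARP n i hi hin c hc ε hε
  obtain ⟨c0, hc0', hc0t, hoff⟩ := hOFF n i hi hin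
  have hQ1 : (1 : Matrix (Fin n) (Fin n) ℝ).PosDef := (hQ0P n i).2.1
  have hS : Splx (stdS n) := (hTR n (stdS n)).2.2.2.2.1
  have hSb : Body (stdS n) := (hTR n (stdS n)).2.2.2.2.2 hS
  set g : E n → (Fin n → ℝ) := fun x : E n => x.ofLp with hg
  have hginj : Function.Injective g := WithLp.ofLp_injective 2
  have hgsurj : Function.Surjective g := fun y => ⟨WithLp.toLp 2 y, rfl⟩
  have hfact : ∀ K : Set (E n), Body K → 0 < (volume K).toReal ∧ volume K ≠ ⊤ ∧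
      mom n i K ≠ ⊤ := by
    intro K hK
    obtain ⟨h1, -, h3, -⟩ := hTR n K
    have hb := h1.1 hK
    have hj := hJFIN n i hi hin.le _ hb 1 hQ1
    have hlt : mom n i K < ⊤ := by
      rw [hoff K hK]
      exact ENNReal.mul_lt_top hc0t hj.2
    refine ⟨?_, ?_, hlt.ne⟩
    · rw [← h3]; exact hb.vol_pos
    · rw [← h3]; exact hb.vol_ne_top
  have hval : ∀ K : Set (E n), Body K → volume K ^ i * mom n i K =
      c0 * (volume (g '' K) ^ i * IQ 1 (fK i (g '' K))) := by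
    intro K hK
    rw [hoff K hK, (hTR n K).2.2.1]
    ring
  have himg : ∀ L : Set (Fin n → ℝ), g '' (g ⁻¹' L) = L := fun L => image_preimage_eq L hgsurj
  have hD0s : IsSimplex (D0 n) := (hD0B n hn).2.1
  have hKb : Body (g ⁻¹' K1) := ((hTR n _).1).2 (by rw [← hg, himg]; exact hK1)
  have hDs : Splx (g ⁻¹' D0 n) := ((hTR n _).2.1).2 (by rw [← hg, himg]; exact hD0s)
  have hvK : volume (g ⁻¹' K1) = volume K1 := by rw [← (hTR n _).2.2.1, ← hg, himg]
  have hvD : volume (g ⁻¹' D0 n) = volume (D0 n) := by rw [← (hTR n _).2.2.1, ← hg, himg]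
  refine ⟨g ⁻¹' K1, g ⁻¹' D0 n, hKb, hDs, preimage_mono hK1D, by rw [hvK, hvD]; exact hvol,
    fun D' hD' hKD' => ?_⟩
  have hD's : IsSimplex (g '' D') := ((hTR n D').2.1).1 hD'
  have hKD1 : K1 ⊆ g '' D' := by
    have := image_mono (f := g) hKD'
    rwa [himg] at this
  have hlt := hmain (g '' D') hD's hKD1
  rw [(hTR n D').2.2.1] at hlt
  obtain ⟨hv, hvt, hmt⟩ := hfact _ hKb
  obtain ⟨hvT, hvTt, hmTt⟩ := hfact _ hSb
  obtain ⟨hv', hvt', -⟩ := hfact _ ((hTR n D').2.2.2.2.2 hD')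
  have hq0 : 0 ≤ 1 - (volume (g ⁻¹' K1)).toReal / (volume D').toReal := by
    rw [sub_nonneg, div_le_one hv']
    exact ENNReal.toReal_mono hvt' (measure_mono hKD')
  have h1 : volume (g ⁻¹' K1) ^ i * mom n i (g ⁻¹' K1) <
      ENNReal.ofReal (1 + c * (1 - (volume (g ⁻¹' K1)).toReal / (volume D').toReal)) *
        (volume (stdS n) ^ i * mom n i (stdS n)) := by
    rw [hval _ hSb, hval _ hKb, (hTR n (stdS n)).2.2.2.1, himg, hvK]
    calc c0 * (volume K1 ^ i * IQ 1 (fK i K1))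
        < c0 * (ENNReal.ofReal (1 + c * (1 - (volume K1).toReal / (volume D').toReal)) *
          (volume (T (Fin n)) ^ i * IQ 1 (fK i (T (Fin n))))) :=
          ENNReal.mul_lt_mul_right hc0'.ne' hc0t.ne hlt
      _ = _ := by ring
  have h2 := (ENNReal.toReal_lt_toReal (ENNReal.mul_ne_top (ENNReal.pow_ne_top hvt) hmt)
    (ENNReal.mul_ne_top ENNReal.ofReal_ne_top
      (ENNReal.mul_ne_top (ENNReal.pow_ne_top hvTt) hmTt))).2 h1
  rw [ENNReal.toReal_mul, ENNReal.toReal_mul, ENNReal.toReal_mul, ENNReal.toReal_pow,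
    ENNReal.toReal_pow, ENNReal.toReal_ofReal (by positivity)] at h2
  exact h2

end Pool.Agent.Helper31.LQ
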