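import Pool.Agent.Helper66.LQ.X1

/-!
Backup of packet X4.
-/

open MeasureTheory Set
open scoped ENNReal

noncomputable section

namespace Pool.Agent.Helper31.LQ.X4b

open Pool.Agent.Helper31.LQ

variable {m : ℕ}

/-- The closed orthant. -/
def Q (m : ℕ) : Set (Fin m → ℝ) := {s | ∀ b, 0 ≤ s b}

theorem Q_meas (m : ℕ) : MeasurableSet (Q m) := by
  have : Q m = ⋂ b, {s : Fin m → ℝ | 0 ≤ s b} := by
    ext s; simp [Q]
  rw [this]
  exact MeasurableSet.iInter fun b => measurableSet_le measurable_const (measurable_pi_apply b)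

theorem Q_ae (m : ℕ) : (Q m : Set (Fin m → ℝ)) =ᵐ[volume] pos m := by
  have h1 : Q m = Ici (0 : Fin m → ℝ) := by
    ext s; simp [Q, Pi.le_def]
  have h2 : pos m = Set.univ.pi fun _ : Fin m => Ioi (0 : ℝ) := by
    ext t
    simp [pos, Set.mem_pi]
  rw [h1, h2]
  exact (Measure.univ_pi_Ioi_ae_eq_Ici (f := (0 : Fin m → ℝ))).symm

theorem lint_eq {P : (Fin m → ℝ) → ℝ} (hP : SL m P) (r : ℝ) (hr : 0 < r) :
    ∫⁻ s in Q m, ENNReal.ofReal (Real.exp (-(r * ∑ a, s a)) * P s) =
      ENNReal.ofReal ((r ^ (m + 1))⁻¹ * Ex m P) := by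
  rw [Measure.restrict_congr_set (Q_ae m)]
  obtain ⟨h1, h2⟩ := Pool.Agent.Helper66.LQ.gX1 m P hP r hr
  rw [← h2, ofReal_integral_eq_lintegral_ofReal h1]
  exact Filter.Eventually.of_forall fun t => mul_nonneg (Real.exp_pos _).le (hP.nn t)

theorem lint_eq1 {P : (Fin m → ℝ) → ℝ} (hP : SL m P) :
    ∫⁻ s in Q m, ENNReal.ofReal (Real.exp (-∑ a, s a) * P s) = ENNReal.ofReal (Ex m P) := by
  have := lint_eq hP 1 one_pos
  simpa using this

theorem Ex_nonneg {P : (Fin m → ℝ) → ℝ} (hP : SL m P) : 0 ≤ Ex m P := by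
  unfold Ex
  exact integral_nonneg fun t => mul_nonneg (Real.exp_pos _).le (hP.nn t)

/-- `insertNth` as a linear map. -/
theorem ins_add (a : Fin (m + 1)) (s t : Fin m → ℝ) :
    (a.insertNth (α := fun _ => ℝ) 0 (s + t) : Fin (m + 1) → ℝ) =
      a.insertNth (α := fun _ => ℝ) 0 s + a.insertNth (α := fun _ => ℝ) 0 t := by
  funext b
  rcases Fin.eq_self_or_eq_succAbove a b with h | ⟨j, h⟩
  · subst h; simp
  · rw [h]; simp

theorem ins_smul (a : Fin (m + 1)) (c : ℝ) (s : Fin m → ℝ) :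
    (a.insertNth (α := fun _ => ℝ) 0 (c • s) : Fin (m + 1) → ℝ) =
      c • a.insertNth (α := fun _ => ℝ) 0 s := by
  funext b
  rcases Fin.eq_self_or_eq_succAbove a b with h | ⟨j, h⟩
  · subst h; simp
  · rw [h]; simp

theorem ins_cont (a : Fin (m + 1)) :
    Continuous fun s : Fin m → ℝ => (a.insertNth (α := fun _ => ℝ) 0 s : Fin (m + 1) → ℝ) := by
  refine continuous_pi fun b => ?_
  rcases Fin.eq_self_or_eq_succAbove a b with h | ⟨j, h⟩
  · subst h; simp only [Fin.insertNth_apply_same]; exact continuous_const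
  · rw [h]; simp only [Fin.insertNth_apply_succAbove]; exact continuous_apply j

theorem slB {P : (Fin (m + 1) → ℝ) → ℝ} (hP : SL (m + 1) P) (a : Fin (m + 1)) :
    SL m fun s => P (a.insertNth (α := fun _ => ℝ) 0 s) where
  cont := hP.cont.comp (ins_cont a)
  nn t := hP.nn _
  add s t := by
    show P _ ≤ _
    rw [ins_add]
    exact hP.add _ _
  hom c hc t := by
    show P _ = _
    rw [ins_smul]
    exact hP.hom c hc _

theorem slA {P : (Fin (m + 1) → ℝ) → ℝ} (hP : SL (m + 1) P) (a : Fin (m + 1)) (σ : ℝ) :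
    SL m fun s => P (a.insertNth (α := fun _ => ℝ) 0 s + fun _ => σ * ∑ b, s b) where
  cont := by
    refine hP.cont.comp ((ins_cont a).add ?_)
    fun_prop
  nn t := hP.nn _
  add s t := by
    show P _ ≤ _
    have e : (a.insertNth (α := fun _ => ℝ) 0 (s + t) + fun _ => σ * ∑ b, (s + t) b :
        Fin (m + 1) → ℝ) = (a.insertNth (α := fun _ => ℝ) 0 s + fun _ => σ * ∑ b, s b) +
          (a.insertNth (α := fun _ => ℝ) 0 t + fun _ => σ * ∑ b, t b) := by
      rw [ins_add]
      funext b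
      simp only [Pi.add_apply, Finset.sum_add_distrib]
      ring
    rw [e]
    exact hP.add _ _
  hom c hc t := by
    show P _ = _
    have e : (a.insertNth (α := fun _ => ℝ) 0 (c • t) + fun _ => σ * ∑ b, (c • t) b :
        Fin (m + 1) → ℝ) = c • (a.insertNth (α := fun _ => ℝ) 0 t + fun _ => σ * ∑ b, t b) := by
      rw [ins_smul]
      funext b
      simp only [Pi.add_apply, Pi.smul_apply, smul_eq_mul, ← Finset.mul_sum]
      ring
    rw [e]
    exact hP.hom c hc _

/-- Monotonicity in the direction of the constants. -/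
theorem P_const {P : (Fin (m + 1) → ℝ) → ℝ} (hP : SL (m + 1) P) (h1 : P (fun _ => 1) = 0)
    (x : Fin (m + 1) → ℝ) (r : ℝ) (hr : 0 ≤ r) : P (x + fun _ => r) ≤ P x := by
  have e : (fun _ : Fin (m + 1) => r) = r • (fun _ : Fin (m + 1) => (1 : ℝ)) := by
    funext b; simp
  have := hP.add x (fun _ => r)
  rw [e, hP.hom r hr, h1, mul_zero, add_zero] at this
  rwa [e]

theorem xexp (x : ℝ) : x * Real.exp (-x) ≤ 2 * Real.exp (-(1 / 2 * x)) := by
  have h1 : x / 2 ≤ Real.exp (x / 2) := by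
    have := Real.add_one_le_exp (x / 2)
    linarith
  have h2 : Real.exp (-(1 / 2 * x)) = Real.exp (x / 2) * Real.exp (-x) := by
    rw [← Real.exp_add]; congr 1; ring
  rw [h2]
  nlinarith [Real.exp_pos (-x)]

theorem exp_one_dim (r0 : ℝ) (h : 0 < r0) :
    ∫⁻ r in Ioi (0 : ℝ), ENNReal.ofReal (Real.exp (-(r0 * r))) = ENNReal.ofReal (1 / r0) := by
  have h1 : IntegrableOn (fun r : ℝ => Real.exp (-r0 * r)) (Ioi 0) := exp_neg_integrableOn_Ioi 0 h
  have h2 : ∫ r in Ioi (0 : ℝ), Real.exp (-r0 * r) = 1 / r0 := by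
    have := integral_exp_mul_Ioi (a := -r0) (by linarith) 0
    rw [this]
    simp
  rw [← h2, ofReal_integral_eq_lintegral_ofReal h1]
  · refine lintegral_congr fun r => ?_
    congr 2
    ring
  · exact Filter.Eventually.of_forall fun t => (Real.exp_pos _).le

theorem piece {P : (Fin (m + 1) → ℝ) → ℝ} (hP : SL (m + 1) P) (h1 : P (fun _ => 1) = 0) (σ : ℝ)
    (hσ : 0 ≤ σ) (a : Fin (m + 1)) :
    ∫⁻ t in pos (m + 1) ∩ {t | ∀ b, t a ≤ t b}, ENNReal.ofReal (Real.exp (-∑ b, t b) * P t) ≤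
      ENNReal.ofReal (1 / ((m : ℝ) + 1)) * ENNReal.ofReal (Ex m fun s =>
        P (a.insertNth (α := fun _ => ℝ) 0 s + fun _ => σ * ∑ b, s b)) +
      ENNReal.ofReal (2 * σ) * ENNReal.ofReal (2 ^ (m + 1) *
        Ex m fun s => P (a.insertNth (α := fun _ => ℝ) 0 s)) := by
  set A : (Fin m → ℝ) → ℝ := fun s =>
    P (a.insertNth (α := fun _ => ℝ) 0 s + fun _ => σ * ∑ b, s b) with hA
  set B : (Fin m → ℝ) → ℝ := fun s => P (a.insertNth (α := fun _ => ℝ) 0 s) with hB
  have hAs : SL m A := slA hP a σ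
  have hBs : SL m B := slB hP a
  set F : (Fin (m + 1) → ℝ) → ℝ≥0∞ := fun t => ENNReal.ofReal (Real.exp (-∑ b, t b) * P t) with hF
  have hFm : Measurable F := by
    refine ENNReal.measurable_ofReal.comp ?_
    exact Measurable.mul (by fun_prop) hP.cont.measurable
  set e := MeasurableEquiv.piFinSuccAbove (fun _ : Fin (m + 1) => ℝ) a with he
  have hmp := volume_preserving_piFinSuccAbove (fun _ : Fin (m + 1) => ℝ) a
  set Z : Set (ℝ × (Fin m → ℝ)) := {z | 0 < z.1 ∧ ∀ j, z.1 ≤ z.2 j} with hZ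
  have hZ2 : MeasurableSet {z : ℝ × (Fin m → ℝ) | ∀ j, z.1 ≤ z.2 j} := by
    have : {z : ℝ × (Fin m → ℝ) | ∀ j, z.1 ≤ z.2 j} = ⋂ j, {z | z.1 ≤ z.2 j} := by
      ext z; simp
    rw [this]
    exact MeasurableSet.iInter fun j => measurableSet_le measurable_fst
      ((measurable_pi_apply j).comp measurable_snd)
  have hZm : MeasurableSet Z := (measurableSet_lt measurable_const measurable_fst).inter hZ2
  have hsub : pos (m + 1) ∩ {t | ∀ b, t a ≤ t b} ⊆ e ⁻¹' Z := by
    rintro t ⟨ht1, ht2⟩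
    exact ⟨ht1 a, fun j => ht2 (a.succAbove j)⟩
  have hsymm : ∀ z : ℝ × (Fin m → ℝ), e.symm z = a.insertNth (α := fun _ => ℝ) z.1 z.2 :=
    fun z => rfl
  have hstep1 : ∫⁻ t in e ⁻¹' Z, F t = ∫⁻ r : ℝ, ∫⁻ s : Fin m → ℝ,
      Z.indicator (fun z => F (e.symm z)) (r, s + fun _ => r) := by
    have h2 : ∫⁻ t in e ⁻¹' Z, F t = ∫⁻ z in Z, F (e.symm z) := by
      rw [← hmp.setLIntegral_comp_preimage_emb e.measurableEmbedding (fun z => F (e.symm z)) Z]
      refine lintegral_congr fun t => ?_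
      show F t = F (e.symm (e t))
      rw [e.symm_apply_apply]
    rw [h2, Measure.volume_eq_prod, ← lintegral_indicator hZm, lintegral_prod]
    · refine lintegral_congr fun r => ?_
      exact (lintegral_add_right_eq_self (μ := (volume : Measure (Fin m → ℝ)))
        (fun u => Z.indicator (fun z => F (e.symm z)) (r, u)) (fun _ => r)).symm
    · exact ((hFm.comp e.symm.measurable).indicator hZm).aemeasurable
  set G1 : ℝ → (Fin m → ℝ) → ℝ≥0∞ := fun r s =>
    (Ioi (0 : ℝ)).indicator (fun r => ENNReal.ofReal (Real.exp (-(((m : ℝ) + 1) * r)))) r *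
      (Q m).indicator (fun s => ENNReal.ofReal (Real.exp (-∑ b, s b) * A s)) s with hG1
  set W : Set (ℝ × (Fin m → ℝ)) := {z | (0 < z.1 ∧ z.1 < σ * ∑ b, z.2 b) ∧ z.2 ∈ Q m} with hW
  have hWm : MeasurableSet W := by
    refine MeasurableSet.inter ((measurableSet_lt measurable_const measurable_fst).inter
      (measurableSet_lt measurable_fst ?_)) (measurable_snd (Q_meas m))
    fun_prop
  set G2 : ℝ × (Fin m → ℝ) → ℝ≥0∞ :=
    W.indicator (fun z => ENNReal.ofReal (Real.exp (-∑ b, z.2 b) * B z.2)) with hG2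
  have hG2m : Measurable G2 := by
    refine Measurable.indicator (ENNReal.measurable_ofReal.comp ?_) hWm
    exact Measurable.mul (by fun_prop) (hBs.cont.measurable.comp measurable_snd)
  have hpt : ∀ (r : ℝ) (s : Fin m → ℝ),
      Z.indicator (fun z => F (e.symm z)) (r, s + fun _ => r) ≤ G1 r s + G2 (r, s) := by
    intro r s
    by_cases hz : (r, s + fun _ => r) ∈ Z
    · rw [indicator_of_mem hz]
      obtain ⟨hr, hs⟩ := hz
      have hr : 0 < r := hr
      have hsQ : s ∈ Q m := fun b => by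
        have : r ≤ s b + r := hs b
        linarith
      have hins : (e.symm (r, s + fun _ => r) : Fin (m + 1) → ℝ) =
          a.insertNth (α := fun _ => ℝ) 0 s + fun _ => r := by
        rw [hsymm]
        funext b
        rcases Fin.eq_self_or_eq_succAbove a b with h | ⟨j, h⟩
        · subst h; simp
        · rw [h]; simp
      have hsum : ∑ b, (e.symm (r, s + fun _ => r) : Fin (m + 1) → ℝ) b =
          ∑ b, s b + ((m : ℝ) + 1) * r := by
        rw [hins, Fin.sum_univ_succAbove _ a]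
        simp only [Pi.add_apply, Fin.insertNth_apply_same, Fin.insertNth_apply_succAbove,
          Finset.sum_add_distrib, Finset.sum_const, Finset.card_univ, Fintype.card_fin,
          nsmul_eq_mul]
        ring
      have hval : F (e.symm (r, s + fun _ => r)) = ENNReal.ofReal (Real.exp (-(((m : ℝ) + 1) * r)) *
          (Real.exp (-∑ b, s b) * P (a.insertNth (α := fun _ => ℝ) 0 s + fun _ => r))) := by
        show ENNReal.ofReal (Real.exp (-∑ b, (e.symm (r, s + fun _ => r) : Fin (m + 1) → ℝ) b) *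
          P (e.symm (r, s + fun _ => r))) = _
        rw [hsum, hins, neg_add, Real.exp_add]
        congr 1
        ring
      rw [hval]
      have hE1 := Real.exp_pos (-(((m : ℝ) + 1) * r))
      have hE2 := Real.exp_pos (-∑ b, s b)
      by_cases hc : σ * ∑ b, s b ≤ r
      · refine le_trans ?_ (le_self_add)
        rw [hG1]
        simp only [indicator_of_mem (show r ∈ Ioi (0 : ℝ) from hr), indicator_of_mem hsQ]
        rw [← ENNReal.ofReal_mul hE1.le]
        refine ENNReal.ofReal_le_ofReal (mul_le_mul_of_nonneg_left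
          (mul_le_mul_of_nonneg_left ?_ hE2.le) hE1.le)
        have := P_const hP h1 (a.insertNth (α := fun _ => ℝ) 0 s + fun _ => σ * ∑ b, s b)
          (r - σ * ∑ b, s b) (by linarith)
        have e3 : (a.insertNth (α := fun _ => ℝ) 0 s + fun _ => r : Fin (m + 1) → ℝ) =
            (a.insertNth (α := fun _ => ℝ) 0 s + fun _ => σ * ∑ b, s b) +
              fun _ => r - σ * ∑ b, s b := by
          funext b
          simp
        rw [e3]
        exact this
      · push Not at hc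
        refine le_trans ?_ (le_add_self)
        have hw : (r, s) ∈ W := ⟨⟨hr, hc⟩, hsQ⟩
        rw [hG2, indicator_of_mem hw]
        refine ENNReal.ofReal_le_ofReal ?_
        have h3 := P_const hP h1 (a.insertNth (α := fun _ => ℝ) 0 s) r hr.le
        have h4 : Real.exp (-(((m : ℝ) + 1) * r)) ≤ 1 := by
          rw [Real.exp_le_one_iff]
          have : 0 ≤ ((m : ℝ) + 1) * r := by positivity
          linarith
        have h5 : Real.exp (-∑ b, s b) * P (a.insertNth (α := fun _ => ℝ) 0 s + fun _ => r) ≤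
            Real.exp (-∑ b, s b) * B s := mul_le_mul_of_nonneg_left h3 hE2.le
        have h6 : 0 ≤ Real.exp (-∑ b, s b) *
            P (a.insertNth (α := fun _ => ℝ) 0 s + fun _ => r) := mul_nonneg hE2.le (hP.nn _)
        calc _ ≤ 1 * (Real.exp (-∑ b, s b) *
              P (a.insertNth (α := fun _ => ℝ) 0 s + fun _ => r)) :=
              mul_le_mul_of_nonneg_right h4 h6
          _ ≤ _ := by rw [one_mul]; exact h5
    · rw [indicator_of_notMem hz]
      exact zero_le
  have hA2 : Measurable fun s : Fin m → ℝ =>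
      (Q m).indicator (fun s => ENNReal.ofReal (Real.exp (-∑ b, s b) * A s)) s := by
    refine Measurable.indicator (ENNReal.measurable_ofReal.comp ?_) (Q_meas m)
    exact Measurable.mul (by fun_prop) hAs.cont.measurable
  have hr2 : Measurable fun r : ℝ =>
      (Ioi (0 : ℝ)).indicator (fun r => ENNReal.ofReal (Real.exp (-(((m : ℝ) + 1) * r)))) r := by
    refine Measurable.indicator (ENNReal.measurable_ofReal.comp ?_) measurableSet_Ioi
    fun_prop
  have hI1 : ∫⁻ r : ℝ, ∫⁻ s : Fin m → ℝ, G1 r s =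
      ENNReal.ofReal (1 / ((m : ℝ) + 1)) * ENNReal.ofReal (Ex m A) := by
    have h2 : ∀ r : ℝ, ∫⁻ s : Fin m → ℝ, G1 r s =
        (Ioi (0 : ℝ)).indicator (fun r => ENNReal.ofReal (Real.exp (-(((m : ℝ) + 1) * r)))) r *
          ENNReal.ofReal (Ex m A) := by
      intro r
      rw [hG1, lintegral_const_mul _ hA2, lintegral_indicator (Q_meas m), lint_eq1 hAs]
    rw [lintegral_congr h2, lintegral_mul_const _ hr2, lintegral_indicator measurableSet_Ioi,
      exp_one_dim _ (by positivity)]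
  have hI2 : ∫⁻ r : ℝ, ∫⁻ s : Fin m → ℝ, G2 (r, s) ≤
      ENNReal.ofReal (2 * σ) * ENNReal.ofReal (2 ^ (m + 1) * Ex m B) := by
    have hswap : ∫⁻ r : ℝ, ∫⁻ s : Fin m → ℝ, G2 (r, s) =
        ∫⁻ s : Fin m → ℝ, ∫⁻ r : ℝ, G2 (r, s) :=
      lintegral_lintegral_swap hG2m.aemeasurable
    rw [hswap]
    have h3 : ∀ s : Fin m → ℝ, ∫⁻ r : ℝ, G2 (r, s) ≤ (Q m).indicator (fun s =>
        ENNReal.ofReal (2 * σ) * ENNReal.ofReal (Real.exp (-(1 / 2 * ∑ b, s b)) * B s)) s := by
      intro s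
      by_cases hs : s ∈ Q m
      · rw [indicator_of_mem hs]
        have h4 : ∀ r : ℝ, G2 (r, s) = (Ioo 0 (σ * ∑ b, s b)).indicator
            (fun _ => ENNReal.ofReal (Real.exp (-∑ b, s b) * B s)) r := by
          intro r
          by_cases hr : r ∈ Ioo 0 (σ * ∑ b, s b)
          · rw [indicator_of_mem hr, hG2, indicator_of_mem (show (r, s) ∈ W from ⟨hr, hs⟩)]
          · rw [indicator_of_notMem hr, hG2, indicator_of_notMem (fun h => hr h.1)]
        rw [lintegral_congr h4, lintegral_indicator measurableSet_Ioo, lintegral_const,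
          Measure.restrict_apply_univ, Real.volume_Ioo, sub_zero]
        have hsum : 0 ≤ ∑ b, s b := Finset.sum_nonneg fun b _ => hs b
        have hE2 := Real.exp_pos (-∑ b, s b)
        rw [← ENNReal.ofReal_mul (mul_nonneg hE2.le (hBs.nn s)),
          ← ENNReal.ofReal_mul (by positivity)]
        refine ENNReal.ofReal_le_ofReal ?_
        have h5 := xexp (∑ b, s b)
        have h6 := hBs.nn s
        calc Real.exp (-∑ b, s b) * B s * (σ * ∑ b, s b)
            = (σ * B s) * ((∑ b, s b) * Real.exp (-∑ b, s b)) := by ring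
          _ ≤ (σ * B s) * (2 * Real.exp (-(1 / 2 * ∑ b, s b))) :=
              mul_le_mul_of_nonneg_left h5 (mul_nonneg hσ h6)
          _ = _ := by ring
      · rw [indicator_of_notMem hs]
        have h4 : ∀ r : ℝ, G2 (r, s) = 0 := by
          intro r
          rw [hG2, indicator_of_notMem (fun h => hs h.2)]
        rw [lintegral_congr h4, lintegral_zero]
    refine (lintegral_mono h3).trans ?_
    rw [lintegral_indicator (Q_meas m), lintegral_const_mul]
    · rw [lint_eq hBs (1 / 2) (by norm_num)]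
      have : (((1 : ℝ) / 2) ^ (m + 1))⁻¹ = 2 ^ (m + 1) := by
        rw [one_div, inv_pow, inv_inv]
      rw [this]
    · refine ENNReal.measurable_ofReal.comp ?_
      exact Measurable.mul (by fun_prop) hBs.cont.measurable
  calc ∫⁻ t in pos (m + 1) ∩ {t | ∀ b, t a ≤ t b}, F t
      ≤ ∫⁻ t in e ⁻¹' Z, F t := lintegral_mono_set hsub
    _ = _ := hstep1
    _ ≤ ∫⁻ r : ℝ, ∫⁻ s : Fin m → ℝ, (G1 r s + G2 (r, s)) :=
        lintegral_mono fun r => lintegral_mono fun s => hpt r s
    _ = ∫⁻ r : ℝ, (∫⁻ s : Fin m → ℝ, G1 r s) + ∫⁻ s : Fin m → ℝ, G2 (r, s) := by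
        refine lintegral_congr fun r => ?_
        rw [lintegral_add_left]
        exact measurable_const.mul hA2
    _ = (∫⁻ r : ℝ, ∫⁻ s : Fin m → ℝ, G1 r s) + ∫⁻ r : ℝ, ∫⁻ s : Fin m → ℝ, G2 (r, s) := by
        rw [lintegral_add_right]
        exact hG2m.lintegral_prod_right'
    _ ≤ _ := by
        rw [hI1]
        gcongr

theorem gX4 : X4 := by
  intro m
  refine ⟨((m : ℝ) + 1) * (2 * 2 ^ (m + 1)), by positivity, fun σ hσ P hP h1 => ?_⟩
  have hcov : pos (m + 1) ⊆ ⋃ a : Fin (m + 1), pos (m + 1) ∩ {t | ∀ b, t a ≤ t b} := by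
    intro t ht
    obtain ⟨a, ha⟩ := Finite.exists_min t
    exact mem_iUnion.2 ⟨a, ht, ha⟩
  have hA0 : ∀ a : Fin (m + 1), 0 ≤ Ex m fun s =>
      P (a.insertNth (α := fun _ => ℝ) 0 s + fun _ => σ * ∑ b, s b) :=
    fun a => Ex_nonneg (slA hP a σ)
  have hB0 : ∀ a : Fin (m + 1), 0 ≤ Ex m fun s => P (a.insertNth (α := fun _ => ℝ) 0 s) :=
    fun a => Ex_nonneg (slB hP a)
  have hlint : ENNReal.ofReal (Ex (m + 1) P) ≤ ∑ a : Fin (m + 1),
      ENNReal.ofReal (1 / ((m : ℝ) + 1) * (Ex m fun s =>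
        P (a.insertNth (α := fun _ => ℝ) 0 s + fun _ => σ * ∑ b, s b)) +
      2 * σ * (2 ^ (m + 1) * Ex m fun s => P (a.insertNth (α := fun _ => ℝ) 0 s))) := by
    rw [← lint_eq1 hP, Measure.restrict_congr_set (Q_ae (m + 1))]
    calc _ ≤ ∫⁻ t in ⋃ a : Fin (m + 1), pos (m + 1) ∩ {t | ∀ b, t a ≤ t b},
          ENNReal.ofReal (Real.exp (-∑ b, t b) * P t) := lintegral_mono_set hcov
      _ ≤ ∑' a : Fin (m + 1), ∫⁻ t in pos (m + 1) ∩ {t | ∀ b, t a ≤ t b},
          ENNReal.ofReal (Real.exp (-∑ b, t b) * P t) := lintegral_iUnion_le _ _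
      _ = ∑ a : Fin (m + 1), ∫⁻ t in pos (m + 1) ∩ {t | ∀ b, t a ≤ t b},
          ENNReal.ofReal (Real.exp (-∑ b, t b) * P t) := tsum_fintype _
      _ ≤ _ := by
        refine Finset.sum_le_sum fun a _ => (piece hP h1 σ hσ a).trans (le_of_eq ?_)
        rw [← ENNReal.ofReal_mul (by positivity), ← ENNReal.ofReal_mul (by positivity),
          ← ENNReal.ofReal_add]
        · exact mul_nonneg (by positivity) (hA0 a)
        · exact mul_nonneg (by positivity) (mul_nonneg (by positivity) (hB0 a))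
  rw [← ENNReal.ofReal_sum_of_nonneg] at hlint
  · rw [ENNReal.ofReal_le_ofReal_iff] at hlint
    · rw [Finset.sum_add_distrib, ← Finset.mul_sum, ← Finset.mul_sum, ← Finset.mul_sum] at hlint
      have hm : (0 : ℝ) < (m : ℝ) + 1 := by positivity
      have := mul_le_mul_of_nonneg_left hlint hm.le
      refine this.trans (le_of_eq ?_)
      field_simp
    · refine Finset.sum_nonneg fun a _ => add_nonneg (mul_nonneg (by positivity) (hA0 a)) ?_
      exact mul_nonneg (by positivity) (mul_nonneg (by positivity) (hB0 a))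
  · intro a _
    refine add_nonneg (mul_nonneg (by positivity) (hA0 a)) ?_
    exact mul_nonneg (by positivity) (mul_nonneg (by positivity) (hB0 a))

end Pool.Agent.Helper31.LQ.X4b
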