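import Pool.Agent.Helper66.LQ.X1
import Pool.Agent.Helper24.LQ.X2
import Pool.Agent.Helper83.LQ.X3
import Pool.Agent.Helper19.LQ.X5
import Pool.Agent.Helper22.LQ.XP
import Pool.Agent.Helper24.LQ.X7
import Pool.Agent.Helper94.LQ.CHAIN
import Pool.Agent.Helper94.LQ.STH
import Pool.Agent.Helper59.LQ.CO
import Pool.Agent.Helper69.LQ.D0B
import Pool.Agent.Helper5.LQ.PSI
import Pool.Agent.Helper86.LQ.DECA
import Pool.Agent.Helper7.LQ.DECB
import Pool.Agent.Helper39.LQ.DECC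
import Pool.Agent.Helper51.LQ.DEC
import Pool.Agent.Helper51.LQ.GPID
import Pool.Agent.Helper83.LQ.SYMY
import Pool.Agent.Helper9.LQ.GPAE
import Pool.Agent.Helper69.LQ.KPF
import Pool.Agent.Helper24.LQ.VOL
import Pool.Agent.Helper86.LQ.VD0
import Pool.Agent.Helper56.LQ.RAT
import Pool.Agent.Helper69.LQ.KER
import Pool.Agent.Helper88.LQ.PWX
import Pool.Agent.Helper5.LQ.PW
import Pool.Agent.Helper13.LQ.PWE
import Pool.Agent.Helper84.LQ.MV
import Pool.Agent.Helper95.LQ.LMUL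
import Pool.Agent.Helper56.LQ.RMUL
import Pool.Agent.Helper13.LQ.CST
import Pool.Agent.Helper25.LQ.GRM
import Pool.Agent.Helper3.LQ.G2A
import Pool.Agent.Helper59.LQ.G2B
import Pool.Agent.Helper64.LQ.G2
import Pool.Agent.Helper4.LQ.FKH
import Pool.Agent.Helper56.LQ.AFFJ
import Pool.Agent.Helper94.LQ.BALL
import Pool.Agent.Helper56.LQ.JFIN
import Pool.Agent.Helper49.LQ.Q0P
import Pool.Agent.Helper91.LQ.MEAS
import Pool.Agent.Helper56.LQ.AVGG
import Pool.Agent.Helper13.LQ.AVGS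
import Pool.Agent.Helper59.LQ.AVG
import Pool.Agent.Helper20.LQ.PV
import Pool.Agent.Helper87.LQ.GD
import Pool.Agent.Helper85.LQ.OFF
import Pool.Agent.Helper30.LQ.TR
import Pool.Agent.Helper30.LQ.SH1
import Pool.Agent.Helper59.LQ.SH2M
import Pool.Agent.Helper98.LQ.SH2
import Pool.Agent.Helper57.LQ.SH3
import Pool.Agent.Helper31.LQ.X4b
import Pool.Agent.Helper31.LQ.Sharp
import Pool.Agent.Helper31.LQ.Local2

/-!
# All goals
-/

open MeasureTheory Set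

noncomputable section

namespace Pool.Agent.Helper31.LQ.All

theorem tX1 : X1 := Pool.Agent.Helper66.LQ.gX1 

theorem tX2 : X2 := Pool.Agent.Helper24.LQ.gX2 

theorem tX3 : X3 := Pool.Agent.Helper83.LQ.gX3 tX1

theorem tX4 : X4 := Pool.Agent.Helper31.LQ.X4b.gX4

theorem tX5 : X5 := Pool.Agent.Helper19.LQ.gX5 tX1

theorem tXP : XP := Pool.Agent.Helper22.LQ.gXP 

theorem tX7 : X7 := Pool.Agent.Helper24.LQ.gX7 

theorem tCHAIN : CHAIN := Pool.Agent.Helper94.LQ.gCHAIN tX3 tX4 tX7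

theorem tSTH : STH := Pool.Agent.Helper94.LQ.gSTH tXP

theorem tCO : CO := Pool.Agent.Helper59.LQ.gCO 

theorem tD0B : D0B := Pool.Agent.Helper69.LQ.gD0B 

theorem tPSI : PSI := Pool.Agent.Helper5.LQ.gPSI tCO tD0B

theorem tDECA : DECA := Pool.Agent.Helper86.LQ.gDECA 

theorem tDECB : DECB := Pool.Agent.Helper7.LQ.gDECB 

theorem tDECC : DECC := Pool.Agent.Helper39.LQ.gDECC 

theorem tDEC : DEC := Pool.Agent.Helper51.LQ.gDEC tDECA tDECB tDECC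

theorem tGPID : GPID := Pool.Agent.Helper51.LQ.gGPID 

theorem tSYMY : SYMY := Pool.Agent.Helper83.LQ.gSYMY tCO

theorem tMEAS : MEAS := Pool.Agent.Helper91.LQ.gMEAS 

theorem tGPAE : GPAE := Pool.Agent.Helper9.LQ.gGPAE tCO tSYMY tMEAS

theorem tKPF : KPF := Pool.Agent.Helper69.LQ.gKPF 

theorem tVOL : VOL := Pool.Agent.Helper24.LQ.gVOL tDEC tGPID tPSI tD0B tX1 tCO

theorem tVD0 : VD0 := Pool.Agent.Helper86.LQ.gVD0 tDEC tKPF tX2 tD0B tCO

theorem tRAT : RAT := Pool.Agent.Helper56.LQ.gRAT tX1 tX2 tCO tPSI tKPF tDEC tVD0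

theorem tKER : KER := Pool.Agent.Helper69.LQ.gKER 

theorem tPWX : PWX := Pool.Agent.Helper88.LQ.gPWX tCO tKPF tKER tPSI tX5

theorem tPW : PW := Pool.Agent.Helper5.LQ.gPW tPWX tPSI

theorem tPWE : PWE := Pool.Agent.Helper13.LQ.gPWE tPW tX1 tX2 tRAT tPSI

theorem tMV : MV := Pool.Agent.Helper84.LQ.gMV 

theorem tLMUL : LMUL := Pool.Agent.Helper95.LQ.gLMUL 

theorem tRMUL : RMUL := Pool.Agent.Helper56.LQ.gRMUL 

theorem tCST : CST := Pool.Agent.Helper13.LQ.gCST 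

theorem tGRM : GRM := Pool.Agent.Helper25.LQ.gGRM 

theorem tG2A : G2A := Pool.Agent.Helper3.LQ.gG2A tGRM tLMUL

theorem tG2B : G2B := Pool.Agent.Helper59.LQ.gG2B tGRM tRMUL

theorem tG2 : G2 := Pool.Agent.Helper64.LQ.gG2 tG2A tG2B tLMUL tGRM tCST

theorem tFKH : FKH := Pool.Agent.Helper4.LQ.gFKH tMV

theorem tAFFJ : AFFJ := Pool.Agent.Helper56.LQ.gAFFJ tRMUL tG2 tFKH

theorem tBALL : BALL := Pool.Agent.Helper94.LQ.gBALL tGRM

theorem tJFIN : JFIN := Pool.Agent.Helper56.LQ.gJFIN tBALL tG2 tFKH tGRM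

theorem tQ0P : Q0P := Pool.Agent.Helper49.LQ.gQ0P 

theorem tAVGG : AVGG := Pool.Agent.Helper56.LQ.gAVGG tJFIN tQ0P tD0B tGPAE

theorem tAVGS : AVGS := Pool.Agent.Helper13.LQ.gAVGS tVD0 tKPF tMEAS tMV tAVGG tSYMY tD0B

theorem tAVG : AVG := Pool.Agent.Helper59.LQ.gAVG tAVGG tAVGS tKPF tVD0 tMEAS

theorem tPV : PV := Pool.Agent.Helper20.LQ.gPV 

theorem tGD : GD := Pool.Agent.Helper87.LQ.gGD 

theorem tOFF : OFF := Pool.Agent.Helper85.LQ.gOFF tPV tGD tGPAE tFKH tGRM tCO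

theorem tTR : TR := Pool.Agent.Helper30.LQ.gTR 

theorem tSH1 : SH1 := Pool.Agent.Helper30.LQ.gSH1 tCO tD0B tGPID tVOL

theorem tSH2M : SH2M := Pool.Agent.Helper59.LQ.gSH2M 

theorem tSH2 : SH2 := Pool.Agent.Helper98.LQ.gSH2 tSH2M

theorem tSH3 : SH3 := Pool.Agent.Helper57.LQ.gSH3 tSH1

theorem tLOCAL : LOCAL := Pool.Agent.Helper31.LQ.gLOCAL tCHAIN tSTH tPSI tVOL tVD0 tRAT tPWE tAVG tFKH tGRM tQ0P tD0B tGPAE tX1 tX2

theorem tSHARP : SHARP := Pool.Agent.Helper31.LQ.gSHARP tSH1 tSH2 tSH3 tD0B tAFFJ tJFIN tQ0P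

theorem tfinal (n i : ℕ) (hi : 1 ≤ i) (hin : i < n)
    (c : ℝ) (hc : c < i / ((n : ℝ) - 1)) : ∃ ε : ℝ, 0 < ε ∧
    ∀ K : Set (E n), Body K → ∀ D : Set (E n), Splx D → K ⊆ D →
      (1 - ε) * (volume D).toReal ≤ (volume K).toReal →
      aS n i * Phi n i K ≤ kap n ^ (((n : ℝ) - i) / n) * (volume K).toReal ^ ((i : ℝ) / n) ∧
      (aS n i * Phi n i K = kap n ^ (((n : ℝ) - i) / n) * (volume K).toReal ^ ((i : ℝ) / n) ↔
        Splx K) ∧
      ∃ D' : Set (E n), Splx D' ∧ K ⊆ D' ∧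
        (1 + c * (1 - (volume K).toReal / (volume D').toReal)) *
          ((volume (stdS n)).toReal ^ i * (mom n i (stdS n)).toReal) ≤
        (volume K).toReal ^ i * (mom n i K).toReal :=
  Pool.Agent.Helper31.LQ.final tCO tD0B tLOCAL tG2 tFKH tAFFJ tQ0P tTR tOFF tJFIN n i hi hin c hc

theorem tsharp (n i : ℕ) (hi : 1 ≤ i) (hin : i < n)
    (c : ℝ) (hc : i / ((n : ℝ) - 1) < c) (ε : ℝ) (hε : 0 < ε) : ∃ K D : Set (E n), Body K ∧ Splx D ∧ K ⊆ D ∧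
      (1 - ε) * (volume D).toReal ≤ (volume K).toReal ∧
      ∀ D' : Set (E n), Splx D' → K ⊆ D' →
        (volume K).toReal ^ i * (mom n i K).toReal <
        (1 + c * (1 - (volume K).toReal / (volume D').toReal)) *
          ((volume (stdS n)).toReal ^ i * (mom n i (stdS n)).toReal) :=
  Pool.Agent.Helper31.LQ.sharp_final tSHARP tD0B tTR tOFF tJFIN tQ0P n i hi hin c hc ε hε

end Pool.Agent.Helper31.LQ.All
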