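import Pool.Agent.Helper67.LM.Facts

/-!
# Local minimality of the simplex for all affine quermassintegrals (MP_6fb600_gt): definitions

`d` is the `i` of the problem.  A linear map `A : ℝ^n → ℝ^d` is given by its columns
`Y : Fin n → Fin d → ℝ`, `lin Y x = ∑ x_l Y_l`.
-/

open MeasureTheory Set
open scoped ENNReal Matrix
open Pool.Agent.Helper47.AQ

noncomputable section

namespace Pool.Agent.Helper31.LQ

/-! ### The definitions of the final statement -/

/-- Euclidean space. -/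
abbrev E (n : ℕ) := EuclideanSpace ℝ (Fin n)

/-- A convex body of `ℝ^n`: a compact convex set with nonempty interior. -/
structure Body {n : ℕ} (K : Set (E n)) : Prop where
  conv : Convex ℝ K
  comp : IsCompact K
  int : (interior K).Nonempty

/-- A simplex of `ℝ^n`: the convex hull of `n + 1` affinely independent points. -/
def Splx {n : ℕ} (K : Set (E n)) : Prop :=
  ∃ v : Fin (n + 1) → E n, AffineIndependent ℝ v ∧ K = convexHull ℝ (range v)

/-- The Lebesgue measure of the orthogonal projection of `K` onto the subspace `S` (the Haar measure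
of `S` for which the unit cube of an orthonormal basis has measure one). -/
def projVol {n : ℕ} (K : Set (E n)) (S : Submodule ℝ (E n)) : ℝ≥0∞ :=
  (stdOrthonormalBasis ℝ S).toBasis.addHaar ((fun x : E n => S.orthogonalProjectionOnto x) '' K)

/-- The mean of `f` over the Grassmannian `G(n,d)` with respect to the rotation invariant probability
measure, which is the distribution of the span of `d` independent standard Gaussian vectors. -/
def grassMean (n d : ℕ) (f : Submodule ℝ (E n) → ℝ≥0∞) : ℝ≥0∞ :=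
  ∫⁻ g : Fin d → E n, f (Submodule.span ℝ (range g))
    ∂(Measure.pi fun _ : Fin d => ProbabilityTheory.stdGaussian (E n))

/-- `∫_{G(n,d)} λ_d(K|S)^{-n} dS`. -/
def mom (n d : ℕ) (K : Set (E n)) : ℝ≥0∞ := grassMean n d fun S => (projVol K S ^ n)⁻¹

/-- The volume of the Euclidean unit ball. -/
def kap (n : ℕ) : ℝ := (volume (Metric.ball (0 : E n) 1)).toReal

/-- The affine quermassintegral `Φ_{n-d}(K)`. -/
def Phi (n d : ℕ) (K : Set (E n)) : ℝ :=
  kap n / kap d * (mom n d K).toReal ^ (-(1 / (n : ℝ)))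

/-- The standard simplex. -/
def stdS (n : ℕ) : Set (E n) := {x | (∀ l, 0 ≤ x l) ∧ ∑ l, x l ≤ 1}

/-- The constant for which the standard simplex gives equality. -/
def aS (n d : ℕ) : ℝ :=
  kap n ^ (((n : ℝ) - d) / n) * (volume (stdS n)).toReal ^ ((d : ℝ) / n) / Phi n d (stdS n)

/-! ### Coordinates -/

variable {n d : ℕ}

/-- `ℝ^n` as the quotient of `ℝ^(n+1)` by the constant vectors. -/
def pr (t : Fin (n + 1) → ℝ) : Fin n → ℝ := fun l => t l.castSucc - t (Fin.last n)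

/-- A section of `pr`. -/
def li (x : Fin n → ℝ) : Fin (n + 1) → ℝ := Fin.snoc (α := fun _ => ℝ) x 0

/-- The vertices `e_1, …, e_n, -(1,…,1)` of the simplex `D0`; their sum is `0`. -/
def ver (o : Fin (n + 1)) : Fin n → ℝ := pr (Pi.single o 1)

/-- The functional `l_j` with `l_j(v_o) = 1` for `o ≠ j` and `l_j(v_j) = -n`, on `ℝ^(n+1)`. -/
def ell (j : Fin (n + 1)) (t : Fin (n + 1) → ℝ) : ℝ := ∑ o, t o - (n + 1) * t j

/-- The simplex with the vertices `ver o` and centroid `0`. -/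
def D0 (n : ℕ) : Set (Fin n → ℝ) := {x | ∀ j : Fin (n + 1), ell j (li x) ≤ 1}

/-- The linear map with the columns `Y l`. -/
def lin (Y : Fin n → Fin d → ℝ) (x : Fin n → ℝ) : Fin d → ℝ := fun c => ∑ l, x l * Y l c

/-- The images of the vertices. -/
def yv (Y : Fin n → Fin d → ℝ) (o : Fin (n + 1)) : Fin d → ℝ := lin Y (ver o)

/-- Put `s_0, …, s_(m-1)` at the places `π 0, …, π (m-1)` and `0` at the other places. -/
def emb (m : ℕ) (π : Equiv.Perm (Fin (n + 1))) (s : Fin m → ℝ) : Fin (n + 1) → ℝ :=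
  fun o => if h : (π.symm o).val < m then s ⟨(π.symm o).val, h⟩ else 0

/-- The `d × d` matrix with the rows `y_(π 0), …, y_(π (d-1))`. -/
def mat (Y : Fin n → Fin d → ℝ) (π : Equiv.Perm (Fin (n + 1))) : Matrix (Fin d) (Fin d) ℝ :=
  Matrix.of fun a => lin Y (pr (emb d π (Pi.single a 1)))

/-- The vector `ν` with `ν · y_(π a) = 1` for `a < d`. -/
def nu (Y : Fin n → Fin d → ℝ) (π : Equiv.Perm (Fin (n + 1))) : Fin d → ℝ :=
  (mat Y π)⁻¹ *ᵥ fun _ => 1

/-- `κ_o = (1 - ν · y_o) / (n + 1)`. -/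
def kp (Y : Fin n → Fin d → ℝ) (π : Equiv.Perm (Fin (n + 1))) (o : Fin (n + 1)) : ℝ :=
  (1 - ∑ c, nu Y π c * yv Y o c) / (n + 1)

/-- `y_(π 0), …, y_(π (d-1))` are the vertices of a facet of the image of `D0`. -/
def IsFac (Y : Fin n → Fin d → ℝ) (π : Equiv.Perm (Fin (n + 1))) : Prop :=
  (mat Y π).det ≠ 0 ∧ ∀ o : Fin (n + 1), d ≤ (π.symm o).val → 0 < kp Y π o

/-- General position. -/
def GP (Y : Fin n → Fin d → ℝ) : Prop :=
  ∀ π : Equiv.Perm (Fin (n + 1)), (mat Y π).det ≠ 0 ∧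
    ∀ o : Fin (n + 1), d ≤ (π.symm o).val → kp Y π o ≠ 0

/-- The open cone over `y_(π 0), …, y_(π (d-1))`. -/
def Cone (Y : Fin n → Fin d → ℝ) (π : Equiv.Perm (Fin (n + 1))) : Set (Fin d → ℝ) :=
  (fun t : Fin d → ℝ => lin Y (pr (emb d π t))) '' {t | ∀ a, 0 < t a}

/-- The number of the permutations which preserve `{0, …, d-1}`. -/
def Nst (n d : ℕ) : ℕ :=
  Fintype.card {σ : Equiv.Perm (Fin (n + 1)) // ∀ o, (σ o).val < d ↔ o.val < d}

/-! ### Sublinear functions -/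

/-- Nonnegative sublinear functions. -/
structure SL (m : ℕ) (P : (Fin m → ℝ) → ℝ) : Prop where
  cont : Continuous P
  nn : ∀ t, 0 ≤ P t
  add : ∀ s t, P (s + t) ≤ P s + P t
  hom : ∀ c : ℝ, 0 ≤ c → ∀ t, P (c • t) = c * P t

/-- The open positive orthant. -/
def pos (m : ℕ) : Set (Fin m → ℝ) := {t | ∀ a, 0 < t a}

/-- The expectation of `P` for independent exponential variables. -/
def Ex (m : ℕ) (P : (Fin m → ℝ) → ℝ) : ℝ := ∫ t in pos m, Real.exp (-∑ a, t a) * P t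

/-- The expectation on the face `π 0, …, π (m-1)`. -/
def EP (m : ℕ) (π : Equiv.Perm (Fin (n + 1))) (P : (Fin (n + 1) → ℝ) → ℝ) : ℝ :=
  Ex m fun s => P (emb m π s)

/-- The families of sublinear functions `P_j` which are invariant under the constant vectors with
`P_j (-e_j) = 0`. -/
structure Fam (n : ℕ) (P : Fin (n + 1) → (Fin (n + 1) → ℝ) → ℝ) : Prop where
  sl : ∀ j, SL (n + 1) (P j)
  inv : ∀ j t (c : ℝ), P j (t + fun _ => c) = P j t
  zero : ∀ j, P j (-(Pi.single j 1)) = 0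

/-- The shift `P^σ(t) = P(t - σ (∑ t) e_j)`. -/
def sh (σ : ℝ) (j : Fin (n + 1)) (P : (Fin (n + 1) → ℝ) → ℝ) (t : Fin (n + 1) → ℝ) : ℝ :=
  P (t - (σ * ∑ o, t o) • (Pi.single j 1 : Fin (n + 1) → ℝ))

/-- The mean over all `π` of the expectation of `P_(π n)` on the face `π 0, …, π (m-1)`. -/
def Sm (m : ℕ) (P : Fin (n + 1) → (Fin (n + 1) → ℝ) → ℝ) : ℝ :=
  (∑ π : Equiv.Perm (Fin (n + 1)), EP m π (P (π (Fin.last n)))) / (n + 1).factorial

/-- The expectation of `P` on the facet opposite to `j`. -/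
def Th (j : Fin (n + 1)) (P : (Fin (n + 1) → ℝ) → ℝ) : ℝ :=
  Ex n fun s => P (j.insertNth (α := fun _ => ℝ) 0 s)

/-! ### The body in normal position -/

/-- Normal position: `K ⊆ D0`, the centroids of the facets of `D0` are in `K`, the vertices of `D0`
are near `K`. -/
structure Pos (n : ℕ) (K : Set (Fin n → ℝ)) (τ : ℝ) : Prop where
  conv : Convex ℝ K
  comp : IsCompact K
  sub : K ⊆ D0 n
  cen : ∀ o : Fin (n + 1), (-(1 / (n : ℝ))) • ver o ∈ K
  tip : ∀ o : Fin (n + 1), gauge K (ver o) ≤ 1 + τ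
  tau0 : 0 ≤ τ
  tau1 : τ ≤ 1

/-- `Ψ_j = gauge_K - l_j`, on `ℝ^(n+1)`. -/
def psi (K : Set (Fin n → ℝ)) (j : Fin (n + 1)) (t : Fin (n + 1) → ℝ) : ℝ :=
  gauge K (pr t) - ell j t

/-- `U_π(t) = gauge_{AK}(∑ t_a y_(π a)) - ∑ t_a`. -/
def Ups (Y : Fin n → Fin d → ℝ) (π : Equiv.Perm (Fin (n + 1))) (K : Set (Fin n → ℝ))
    (t : Fin d → ℝ) : ℝ :=
  gauge (lin Y '' K) (lin Y (pr (emb d π t))) - ∑ a, t a

/-- The good maps. -/
def Good (R : ℝ) (Y : Fin n → Fin d → ℝ) : Prop :=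
  GP Y ∧ (∀ o c, |yv Y o c| ≤ R) ∧ ∀ π : Equiv.Perm (Fin (n + 1)), IsFac Y π →
    1 ≤ R * |(mat Y π).det| ∧ ∀ o : Fin (n + 1), d ≤ (π.symm o).val → 1 ≤ R * kp Y π o

/-! ### Integrals over the linear maps -/

/-- `A Q Aᵀ`. -/
def grm (Q : Matrix (Fin n) (Fin n) ℝ) (Y : Fin n → Fin d → ℝ) : Matrix (Fin d) (Fin d) ℝ :=
  Matrix.of fun a b => ∑ l, ∑ m, Y l a * Q l m * Y m b

/-- The weight `(det A Q Aᵀ)^(n/2) exp(-tr(A Q Aᵀ)/2)`. -/
def eta (Q : Matrix (Fin n) (Fin n) ℝ) (Y : Fin n → Fin d → ℝ) : ℝ≥0∞ :=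
  ENNReal.ofReal (Real.sqrt (grm Q Y).det ^ n * Real.exp (-(grm Q Y).trace / 2))

/-- `f_K(A) = vol(A K)^(-n)`. -/
def fK (d : ℕ) (K : Set (Fin n → ℝ)) (Y : Fin n → Fin d → ℝ) : ℝ≥0∞ := (volume (lin Y '' K) ^ n)⁻¹

/-- `I_Q(f)`. -/
def IQ (Q : Matrix (Fin n) (Fin n) ℝ) (f : (Fin n → Fin d → ℝ) → ℝ≥0∞) : ℝ≥0∞ :=
  ∫⁻ Y, f Y * eta Q Y

/-- The quadratic form of the simplex `D0`. -/
def Q0 (n : ℕ) : Matrix (Fin n) (Fin n) ℝ := 1 + Matrix.of fun _ _ => 1

/-- The measure `w` (not normalised). -/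
def W0 (n d : ℕ) : Measure (Fin n → Fin d → ℝ) :=
  volume.withDensity fun Y => fK d (D0 n) Y * eta (Q0 n) Y

open Classical in
/-- The weight of the pair `(π, o)`. -/
def wt (R : ℝ) (π : Equiv.Perm (Fin (n + 1))) (o : Fin (n + 1)) (Y : Fin n → Fin d → ℝ) : ℝ :=
  if Good R Y ∧ IsFac Y π then
    |(mat Y π).det| * kp Y π o /
      ((Nst n d : ℝ) * d.factorial * (volume (lin Y '' D0 n)).toReal)
  else 0

open Classical in
/-- The weighted sum of the coefficients `c`. -/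
def Lc (R : ℝ) (c : Equiv.Perm (Fin (n + 1)) → Fin (n + 1) → ℝ) (Y : Fin n → Fin d → ℝ) : ℝ :=
  if Good R Y then
    (∑ π : Equiv.Perm (Fin (n + 1)), if IsFac Y π then
      |(mat Y π).det| * ∑ o, kp Y π o * c π o else 0) /
      ((Nst n d : ℝ) * d.factorial * (volume (lin Y '' D0 n)).toReal)
  else 0

end Pool.Agent.Helper31.LQ
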