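import Pool.Agent.Helper31.LQ.Goals
import Pool.Agent.Helper67.LM.Core

/-!
# Final assembly: from the normal position to all bodies
-/

open MeasureTheory Set
open scoped ENNReal Matrix Pointwise
open Pool.Agent.Helper47.AQ
open Pool.Agent.Helper67.LM (T bc co)

noncomputable section

namespace Pool.Agent.Helper31.LQ

variable {n d : ℕ}

/-- The identification of the indices. -/
def ix (o : Fin (n + 1)) : Option (Fin n) := Fin.lastCases none (fun l => some l) o

theorem ix_last : ix (Fin.last n) = none := by simp [ix]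

theorem ix_castSucc (l : Fin n) : ix l.castSucc = some l := by simp [ix]

theorem ix_inj : Function.Injective (ix : Fin (n + 1) → Option (Fin n)) := by
  intro a b h
  induction a using Fin.lastCases with
  | last =>
    induction b using Fin.lastCases with
    | last => rfl
    | cast b => rw [ix_last, ix_castSucc] at h; cases h
  | cast a =>
    induction b using Fin.lastCases with
    | last => rw [ix_last, ix_castSucc] at h; cases h
    | cast b => rw [ix_castSucc, ix_castSucc] at h; cases h; rfl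

/-- The images of the points of `T` in barycentric coordinates. -/
theorem B_eq (hCO : CO) (B : (Fin n → ℝ) ≃ᵃ[ℝ] (Fin n → ℝ))
    (hB : ∀ (u : Fin n → ℝ), (∀ l : Fin n, ell l.castSucc (li (B u)) = 1 - (n + 1) * u l) ∧
      ell (Fin.last n) (li (B u)) = 1 - (n + 1) * (1 - ∑ l, u l)) (u : Fin n → ℝ) :
    B u = ∑ o : Fin (n + 1), bc u (ix o) • ver o := by
  obtain ⟨h1, -, h3, -, h5, -⟩ := hCO n 0 (fun _ _ => 0)
  have hn : (0 : ℝ) < n + 1 := by positivity
  have hw : ∀ o : Fin (n + 1), ell o (li (B u)) = 1 - (n + 1) * bc u (ix o) := by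
    intro o
    induction o using Fin.lastCases with
    | last => rw [ix_last]; exact (hB u).2
    | cast l => rw [ix_castSucc]; exact (hB u).1 l
  have hw2 : ∀ o : Fin (n + 1), bc u (ix o) =
      li (B u) o + (1 - ∑ p, li (B u) p) / (n + 1) := by
    intro o
    have h := hw o
    unfold ell at h
    field_simp
    linarith
  calc B u = pr (li (B u)) := (h1 _).symm
    _ = ∑ o : Fin (n + 1), li (B u) o • ver o := h3 _
    _ = ∑ o : Fin (n + 1), (bc u (ix o)) • ver o -
        ((1 - ∑ p, li (B u) p) / (n + 1)) • ∑ o : Fin (n + 1), (ver o : Fin n → ℝ) := by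
        rw [Finset.smul_sum, ← Finset.sum_sub_distrib]
        refine Finset.sum_congr rfl fun o _ => ?_
        rw [hw2 o, ← sub_smul]
        congr 1
        ring
    _ = ∑ o : Fin (n + 1), bc u (ix o) • ver o := by rw [h5, smul_zero, sub_zero]

theorem cen_eq (hn : 1 ≤ n) (hCO : CO) (B : (Fin n → ℝ) ≃ᵃ[ℝ] (Fin n → ℝ))
    (hB : ∀ (u : Fin n → ℝ), (∀ l : Fin n, ell l.castSucc (li (B u)) = 1 - (n + 1) * u l) ∧
      ell (Fin.last n) (li (B u)) = 1 - (n + 1) * (1 - ∑ l, u l)) (p : Fin (n + 1)) :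
    B (co (ix p) (fun _ => 1 / (n : ℝ))) = (-(1 / (n : ℝ))) • ver p := by
  obtain ⟨-, -, -, -, h5, -⟩ := hCO n 0 (fun _ _ => 0)
  have hnR : (0 : ℝ) < n := by exact_mod_cast hn
  rw [B_eq hCO B hB]
  have hS := Pool.Agent.Helper67.LM.fSYM (ι := Fin n) (ix p)
  have h1 : ∀ o : Fin (n + 1), bc (co (ix p) (fun _ : Fin n => 1 / (n : ℝ))) (ix o) =
      1 / (n : ℝ) - if o = p then 1 / (n : ℝ) else 0 := by
    intro o
    rw [hS.2.2.1]
    by_cases h : o = p
    · rw [if_pos h, h, Equiv.swap_apply_right]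
      simp only [bc, Finset.sum_const, Finset.card_univ, Fintype.card_fin, nsmul_eq_mul]
      field_simp
      ring
    · rw [if_neg h, sub_zero]
      have h2 : Equiv.swap none (ix p) (ix o) ≠ none := by
        intro h3
        have h4 := congrArg (Equiv.swap none (ix p)) h3
        rw [Equiv.swap_apply_self, Equiv.swap_apply_left] at h4
        exact h (ix_inj h4)
      obtain ⟨q, hq⟩ := Option.ne_none_iff_exists'.1 h2
      rw [hq]
      rfl
  have h2 : ∑ o : Fin (n + 1), (1 / (n : ℝ) - if o = p then 1 / (n : ℝ) else 0) •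
      (ver o : Fin n → ℝ) = (1 / (n : ℝ)) • (∑ o : Fin (n + 1), (ver o : Fin n → ℝ)) -
        (1 / (n : ℝ)) • ver p := by
    simp only [sub_smul, Finset.sum_sub_distrib, ← Finset.smul_sum, ite_smul, zero_smul,
      Finset.sum_ite_eq', Finset.mem_univ, if_true]
  simp only [h1]
  rw [h2, h5, smul_zero, zero_sub, neg_smul]

theorem zero_int (hn : 1 ≤ n) (hD0B : D0B) {K : Set (Fin n → ℝ)} (hc : Convex ℝ K)
    (hcen : ∀ o : Fin (n + 1), (-(1 / (n : ℝ))) • ver o ∈ K) :
    (0 : Fin n → ℝ) ∈ interior K := by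
  obtain ⟨h1, -, -, h4, -⟩ := hD0B n hn
  have hnR : (0 : ℝ) < n := by exact_mod_cast hn
  have hne : (-(1 / (n : ℝ))) ≠ 0 := by
    have : (0 : ℝ) < 1 / n := by positivity
    linarith
  have hsub : (-(1 / (n : ℝ))) • D0 n ⊆ K := by
    rintro _ ⟨x, hx, rfl⟩
    rw [h1] at hx
    have h5 : convexHull ℝ (range (ver : Fin (n + 1) → Fin n → ℝ)) ⊆
        (fun x : Fin n → ℝ => (-(1 / (n : ℝ))) • x) ⁻¹' K := by
      refine convexHull_min ?_ ?_
      · rintro _ ⟨o, rfl⟩
        exact hcen o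
      · exact hc.is_linear_preimage (IsLinearMap.isLinearMap_smul _)
    exact h5 hx
  have h6 : (0 : Fin n → ℝ) ∈ (-(1 / (n : ℝ))) • interior (D0 n) :=
    ⟨0, h4, by simp⟩
  rw [← interior_smul₀ hne] at h6
  exact interior_mono hsub h6

theorem tip_bound (hn : 1 ≤ n) (hCO : CO) {K : Set (Fin n → ℝ)} (hc : Convex ℝ K)
    (h0 : (0 : Fin n → ℝ) ∈ interior K)
    (hcen : ∀ o : Fin (n + 1), (-(1 / (n : ℝ))) • ver o ∈ K) (b : Fin (n + 1) → ℝ)
    (hb0 : ∀ o, 0 ≤ b o) (hb1 : ∑ o, b o = 1) (hbK : ∑ o, b o • ver o ∈ K) (p : Fin (n + 1))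
    (e : ℝ) (he : 1 - e ≤ b p) : gauge K (ver p) ≤ 1 + e * ((n : ℝ) * n + n) := by
  obtain ⟨-, -, -, -, h5, -⟩ := hCO n 0 (fun _ _ => 0)
  have hnR : (0 : ℝ) < n := by exact_mod_cast hn
  have habs : Absorbent ℝ K := absorbent_nhds_zero (mem_interior_iff_mem_nhds.1 h0)
  have hneg : ∀ o : Fin (n + 1), gauge K (-ver o) ≤ n := by
    intro o
    have h1 : -ver o = (n : ℝ) • ((-(1 / (n : ℝ))) • (ver o : Fin n → ℝ)) := by
      rw [smul_smul]
      have : (n : ℝ) * -(1 / (n : ℝ)) = -1 := by field_simp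
      rw [this, neg_one_smul]
    rw [h1, gauge_smul_of_nonneg hnR.le, smul_eq_mul]
    have := gauge_le_one_of_mem (hcen o)
    nlinarith
  have hsum : ∀ (s : Finset (Fin (n + 1))) (f : Fin (n + 1) → Fin n → ℝ),
      gauge K (∑ o ∈ s, f o) ≤ ∑ o ∈ s, gauge K (f o) := by
    intro s f
    induction s using Finset.induction_on with
    | empty => simp
    | insert a s ha ih =>
      rw [Finset.sum_insert ha, Finset.sum_insert ha]
      exact (gauge_add_le hc habs _ _).trans (by linarith)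
  have hver : ∀ o : Fin (n + 1), gauge K (ver o) ≤ (n : ℝ) * n := by
    intro o
    have h1 : (ver o : Fin n → ℝ) = ∑ q ∈ Finset.univ.erase o, -ver q := by
      have h2 := Finset.add_sum_erase Finset.univ (fun q => (ver q : Fin n → ℝ))
        (Finset.mem_univ o)
      rw [h5] at h2
      rw [Finset.sum_neg_distrib]
      exact eq_neg_of_add_eq_zero_left h2
    rw [h1]
    refine (hsum _ _).trans ?_
    calc ∑ q ∈ Finset.univ.erase o, gauge K (-ver q) ≤ ∑ _q ∈ Finset.univ.erase o, (n : ℝ) :=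
          Finset.sum_le_sum fun q _ => hneg q
      _ = (n : ℝ) * n := by simp
  have hdec : (ver p : Fin n → ℝ) = ∑ o, b o • ver o +
      ∑ o ∈ Finset.univ.erase p, b o • (ver p - ver o) := by
    have h1 : ∑ o ∈ Finset.univ.erase p, b o • (ver p - ver o) =
        ∑ o, b o • ((ver p : Fin n → ℝ) - ver o) := by
      rw [← Finset.add_sum_erase Finset.univ _ (Finset.mem_univ p)]
      simp
    rw [h1]
    simp only [smul_sub, Finset.sum_sub_distrib, ← Finset.sum_smul, hb1, one_smul]
    abel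
  rw [hdec]
  refine (gauge_add_le hc habs _ _).trans ?_
  have h2 : gauge K (∑ o ∈ Finset.univ.erase p, b o • ((ver p : Fin n → ℝ) - ver o)) ≤
      ∑ o ∈ Finset.univ.erase p, b o * ((n : ℝ) * n + n) := by
    refine (hsum _ _).trans (Finset.sum_le_sum fun o _ => ?_)
    rw [gauge_smul_of_nonneg (hb0 o), smul_eq_mul]
    refine mul_le_mul_of_nonneg_left ?_ (hb0 o)
    rw [sub_eq_add_neg]
    exact (gauge_add_le hc habs _ _).trans (add_le_add (hver p) (hneg o))
  have h3 : ∑ o ∈ Finset.univ.erase p, b o ≤ e := by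
    have := Finset.add_sum_erase Finset.univ b (Finset.mem_univ p)
    rw [hb1] at this
    linarith
  rw [← Finset.sum_mul] at h2
  have h4 := gauge_le_one_of_mem hbK
  have h6 := mul_le_mul_of_nonneg_right h3 (by positivity : (0 : ℝ) ≤ (n : ℝ) * n + n)
  linarith

end Pool.Agent.Helper31.LQ
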