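import Pool.Agent.Helper31.LQ.Final

/-!
# Final assembly, second part: all bodies near a simplex
-/

open MeasureTheory Set
open scoped ENNReal Matrix Pointwise
open Pool.Agent.Helper47.AQ
open Pool.Agent.Helper67.LM (T bc co fMINS fCEN fEPS affine_vol body_T simplex_T bc_le_one bc_nonneg
  sum_bc continuous_bc)

noncomputable section

namespace Pool.Agent.Helper31.LQ

variable {n d : ℕ}

theorem sum_ix (f : Option (Fin n) → ℝ) : ∑ o : Fin (n + 1), f (ix o) = ∑ o, f o := by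
  rw [Fin.sum_univ_castSucc, Fintype.sum_option]
  simp only [ix_castSucc, ix_last]
  ring

theorem gMAIN (hCO : CO) (hD0B : D0B) (hLOCAL : LOCAL) (hG2 : G2) (hFKH : FKH) (hAFFJ : AFFJ)
    (hQ0P : Q0P) (n d : ℕ) (hd : 1 ≤ d) (hdn : d < n) (c : ℝ) (hc : 0 ≤ c)
    (hlt : c < d / ((n : ℝ) - 1)) : ∃ ε : ℝ, 0 < ε ∧ ∀ K : Set (Fin n → ℝ), IsBody K →
    ∀ D : Set (Fin n → ℝ), IsSimplex D → K ⊆ D →
      (1 - ε) * (volume D).toReal ≤ (volume K).toReal →
      ∃ D' : Set (Fin n → ℝ), IsSimplex D' ∧ K ⊆ D' ∧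
      ENNReal.ofReal (1 + c * (1 - (volume K).toReal / (volume D').toReal)) *
        (volume (T (Fin n)) ^ d * IQ 1 (fK d (T (Fin n)))) ≤
        volume K ^ d * IQ 1 (fK d K) := by
  have hn : 1 ≤ n := by omega
  haveI : Nonempty (Fin n) := Fin.pos_iff_nonempty.1 hn
  have hnR : (1 : ℝ) ≤ n := by exact_mod_cast hn
  obtain ⟨τ0, hτ0, hloc⟩ := hLOCAL n d hd hdn c hc hlt
  obtain ⟨-, -, hD0body, -, B, hBT, hBe⟩ := hD0B n hn
  set e : ℝ := min τ0 1 / ((n : ℝ) * n + n) with he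
  have hnn : 0 < (n : ℝ) * n + n := by positivity
  have he0 : 0 < e := div_pos (lt_min hτ0 one_pos) hnn
  have he1 : e ≤ 1 := by
    rw [he, div_le_one hnn]
    have : min τ0 1 ≤ 1 := min_le_right _ _
    nlinarith
  have heτ : e * ((n : ℝ) * n + n) = min τ0 1 := by
    rw [he]; field_simp
  refine ⟨e ^ n, by positivity, fun K hK D hD hKD hvol => ?_⟩
  obtain ⟨A, hA1, hA2⟩ := fMINS hK
  obtain ⟨m, hm, hmv⟩ := affine_vol A
  have hK' : IsBody (A '' K) := hK.affine A
  have hT' : volume (T (Fin n)) ≤ volume (A '' D) := hA2 _ (hD.affine A) (image_mono hKD)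
  have hDt : volume (A '' D) ≠ ⊤ := (hD.affine A).isBody.vol_ne_top
  have hT'' : (volume (T (Fin n))).toReal ≤ m * (volume D).toReal := by
    rw [← hmv]
    exact ENNReal.toReal_mono hDt hT'
  have hv0 : 0 < (volume (T (Fin n))).toReal := body_T.vol_pos
  have hen : e ^ n ≤ 1 := pow_le_one₀ he0.le he1
  have hK'v : (1 - e ^ n) * (volume (T (Fin n))).toReal ≤ (volume (A '' K)).toReal := by
    rw [hmv]
    calc (1 - e ^ n) * (volume (T (Fin n))).toReal
        ≤ (1 - e ^ n) * (m * (volume D).toReal) :=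
          mul_le_mul_of_nonneg_left hT'' (by linarith)
      _ = m * ((1 - e ^ n) * (volume D).toReal) := by ring
      _ ≤ m * (volume K).toReal := mul_le_mul_of_nonneg_left hvol hm.le
  have hnear : ∀ o : Option (Fin n), ∃ p ∈ A '' K, 1 - e ≤ bc p o := by
    intro o
    obtain ⟨p, hp, hp2⟩ := hK'.comp.exists_isMaxOn hK'.nonempty (continuous_bc o).continuousOn
    refine ⟨p, hp, ?_⟩
    set e' := 1 - bc p o with he'
    have he0' : 0 ≤ e' := by
      have := bc_le_one (hA1 hp) o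
      linarith
    have he1' : e' ≤ 1 := by
      have := bc_nonneg (hA1 hp) o
      linarith
    have h1 := fEPS hA1 o e' he0' he1' (fun y hy => by
      have : bc y o ≤ bc p o := hp2 hy
      linarith)
    rw [Fintype.card_fin] at h1
    have h2 := hK'v.trans h1
    have h3 : e' ^ n ≤ e ^ n := by
      have := le_of_mul_le_mul_right h2 hv0
      linarith
    have h4 : e' ≤ e := le_of_pow_le_pow_left₀ (by omega) he0.le h3
    linarith
  have hcen := fun o => fCEN hK' hA1 hA2 o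
  -- the body in normal position
  set K0 : Set (Fin n → ℝ) := B '' (A '' K) with hK0
  have hK0b : IsBody K0 := hK'.affine B
  have hcen0 : ∀ o : Fin (n + 1), (-(1 / (n : ℝ))) • ver o ∈ K0 := by
    intro o
    rw [← cen_eq hn hCO B hBe o]
    refine ⟨_, ?_, rfl⟩
    have := hcen (ix o)
    rwa [Fintype.card_fin] at this
  have h0int : (0 : Fin n → ℝ) ∈ interior K0 := zero_int hn hD0B hK0b.conv hcen0
  have hPos : Pos n K0 (min τ0 1) := by
    refine ⟨hK0b.conv, hK0b.comp, ?_, hcen0, fun o => ?_, (lt_min hτ0 one_pos).le,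
      min_le_right _ _⟩
    · rw [hK0, ← hBT]
      exact image_mono hA1
    · obtain ⟨p, hp, hp2⟩ := hnear (ix o)
      rw [← heτ]
      refine tip_bound hn hCO hK0b.conv h0int hcen0 (fun q => bc p (ix q))
        (fun q => bc_nonneg (hA1 hp) _) ?_ ?_ o e hp2
      · rw [sum_ix, sum_bc]
      · rw [← B_eq hCO B hBe]
        exact ⟨p, hp, rfl⟩
  have hmain := hloc K0 _ hPos (min_le_left _ _)
  -- pass to the standard quadratic form
  have hQ0 : (Q0 n).PosDef := (hQ0P n d).1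
  have hQ1 : (1 : Matrix (Fin n) (Fin n) ℝ).PosDef := (hQ0P n d).2.1
  have e1 : ∀ L : Set (Fin n → ℝ), IsCompact L → IQ (Q0 n) (fK d L) = IQ 1 (fK d L) := fun L hL =>
    hG2 n d hd hdn.le (fK d L) ((hFKH n d L hL).1) ((hFKH n d L hL).2) _ _ hQ0 hQ1
  rw [e1 _ hD0body.comp, e1 _ hK0b.comp] at hmain
  have e2 : volume K0 ^ d * IQ 1 (fK d K0) = volume K ^ d * IQ 1 (fK d K) := by
    rw [hK0, hAFFJ n d hd hdn.le B _ hK'.comp, hAFFJ n d hd hdn.le A _ hK.comp]
  have e3 : volume (D0 n) ^ d * IQ 1 (fK d (D0 n)) =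
      volume (T (Fin n)) ^ d * IQ 1 (fK d (T (Fin n))) := by
    rw [← hBT, hAFFJ n d hd hdn.le B _ body_T.comp]
  rw [e2, e3] at hmain
  have hsub : K ⊆ A.symm '' T (Fin n) := by
    intro x hx
    exact ⟨A x, hA1 ⟨x, hx, rfl⟩, by simp⟩
  refine ⟨A.symm '' T (Fin n), simplex_T.affine A.symm, hsub, ?_⟩
  have hDv : (volume (A.symm '' T (Fin n))).toReal = m⁻¹ * (volume (T (Fin n))).toReal := by
    have h1 := hmv (A.symm '' T (Fin n))
    have h2 : A '' (A.symm '' T (Fin n)) = T (Fin n) := by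
      rw [image_image]
      simp
    rw [h2] at h1
    rw [h1, ← mul_assoc, inv_mul_cancel₀ hm.ne', one_mul]
  obtain ⟨m', hm', hmv'⟩ := affine_vol B
  have hratio : (volume K).toReal / (volume (A.symm '' T (Fin n))).toReal =
      (volume K0).toReal / (volume (D0 n)).toReal := by
    rw [hDv, hK0, hmv', hmv, ← hBT, hmv']
    field_simp
  rw [hratio]
  exact hmain

/-- All simplices have the same value. -/
theorem simplex_value (hAFFJ : AFFJ) (hd : 1 ≤ d) (hdn : d < n) {K : Set (Fin n → ℝ)}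
    (hK : IsSimplex K) : volume K ^ d * IQ 1 (fK d K) =
      volume (T (Fin n)) ^ d * IQ 1 (fK d (T (Fin n))) := by
  obtain ⟨A, hA⟩ := (simplex_T (ι := Fin n)).equiv hK rfl
  rw [← hA, hAFFJ n d hd hdn.le A _ body_T.comp]

end Pool.Agent.Helper31.LQ
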