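import Pool.Agent.Helper31.LQ.Goals

/-!
# The constant `d/(n-1)` of the linear stability is optimal: goals
-/

open MeasureTheory Set
open scoped ENNReal Matrix Pointwise
open Pool.Agent.Helper47.AQ

noncomputable section

namespace Pool.Agent.Helper31.LQ

/-- The convex hull of the points `v_o/(1+τ)` and of the centroids `-v_o/n` of the facets of `D0`. -/
def Kt (n : ℕ) (τ : ℝ) : Set (Fin n → ℝ) :=
  convexHull ℝ (range (fun o : Fin (n + 1) => (1 + τ)⁻¹ • (ver o : Fin n → ℝ)) ∪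
    range (fun o : Fin (n + 1) => (-(1 / (n : ℝ))) • (ver o : Fin n → ℝ)))

/-- **SH1.**  Proof.  The inclusion and the lower bound are clear (`(1+τ)⁻¹ D0 ⊆ Kt ⊆ D0`, `D0B`).
Upper bound: for `x = ∑_{l ≠ j} t_l v_l`, `t ≥ 0`, `t_a = min_{l ≠ j} t_l`, let `f` be the linear
functional with `f(v_l) = 1 + τ` for `l ≠ j, a`, `f(v_a) = 1 + τ - n τ`, `f(v_j) = -n` (the sum is
`0`, so it exists, see `CO`).  `f ≤ 1` on `v_l/(1+τ)` and `f(-v_j/n) = 1`,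
`f(-v_l/n) ≤ (n τ - 1)/n ≤ 1` for `l ≠ j`, so `f ≤ 1` on `Kt`, i.e. `gauge (Kt n τ) x ≥ f(x) =
(1+τ) ∑ t - n τ min t`.  With `DEC` for `Y_l = e_l` (`GPID`), as in `VOL`:
`n! · n! · V(Kt) = ∑_π ∫_{pos n} exp(-gauge(pr (emb n π t))) ≤
(n+1)! ∫_{pos n} exp(-(1+τ) ∑ t + n τ min t) = (n+1)! (1+τ)^(-(n-1))`: split `pos n` according to the
index `a` of the smallest coordinate, `t = t' + r 1`, `t'_a = 0` (see the proof of `X4`):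
`n ∫_{t' ∈ pos (n-1)} exp(-(1+τ) ∑ t') ∫_{r>0} exp(-n r) = (1+τ)^(-(n-1))`.  (Or: `Kt` is contained in
the union of the `n (n+1)` simplices `conv(0, -v_j/n, v_l/(1+τ) : l ≠ j, a)`, each of the volume
`(1+τ)^(-(n-1)) / (n · n!)`.)  `V(D0) = (n+1)/n!` (`VOL`). -/
def SH1 : Prop := ∀ (n : ℕ), 1 ≤ n → ∀ τ : ℝ, 0 < τ → τ ≤ 1 →
  IsBody (Kt n τ) ∧ Kt n τ ⊆ D0 n ∧ (1 + τ)⁻¹ • D0 n ⊆ Kt n τ ∧
  (volume (Kt n τ)).toReal * (1 + τ) ^ (n - 1) ≤ (volume (D0 n)).toReal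

/-- **SH2M.**  Proof.  If `s_j = 0` then the row `j` is `0` and `det B = 0`.  Otherwise let
`b = (row j)/s_j`: `∑ b_o = 1`, `-η ≤ b_o ≤ 1`.  Claim: `∑ b_o² ≤ 1 + 4 n² η²`.  Let `a` be an index with
`b_a = M` maximal, `y = 1 - M ≥ 0`.  (i) For `o ≠ a`: `(b_o + η)(b_o - M) ≤ 0`; summing,
`∑ b² ≤ M² + (M - η)(1 - M) + n η M = M (1 + (n+1) η) - η`; this is `≤ 1` if `M ≤ 1/2` (as
`(n+1) η ≤ 1`), and `≤ 1 + n η ≤ 2 ≤ 1 + 4 n² η²` if `2 n η ≥ 1`.  (ii) If `M ≥ 1/2` and `2 n η ≤ 1`: the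
other coordinates have the sum `y` and are `≥ -η`, so they are `≤ u := y + (n-1) η`;
`(b_o + η)(b_o - u) ≤ 0`, summing `∑_{o ≠ a} b_o² ≤ (u - η) y + n η u`, so
`∑ b² ≤ 1 - 2 y (1 - y - (n-1) η) + n (n-1) η² ≤ 1 + n² η²`.  Hadamard's inequality
(`Orientation.abs_volumeForm_apply_le` in Mathlib, or via `Bᵀ B`/Gram-Schmidt; `EuclideanSpace`):
`|det B| ≤ ∏_j |row j| ≤ ∏_j s_j (1 + 4 n² η²)^((n+1)/2)`, and `∏ s_j ≤ 1` (AM-GM, `∑ s_j = n + 1`: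
`Real.inner_le_nnorm_mul_nnorm`… or `Real.geom_mean_le_arith_mean`), and
`(1 + 4 n² η²)^(n+1) ≤ 1 + C η²` for `0 ≤ η ≤ 1`. -/
def SH2M : Prop := ∀ n : ℕ, 1 ≤ n → ∃ C : ℝ, 0 ≤ C ∧ ∀ η : ℝ, 0 ≤ η → ((n : ℝ) + 1) * η ≤ 1 →
  ∀ (B : Matrix (Fin (n + 1)) (Fin (n + 1)) ℝ) (s : Fin (n + 1) → ℝ),
  (∀ j, ∑ o, B j o = s j) → (∀ j o, -(η * s j) ≤ B j o ∧ B j o ≤ s j) → (∀ j, 0 ≤ s j) →
  ∑ j, s j = (n : ℝ) + 1 → |B.det| ≤ 1 + C * η ^ 2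

/-- **SH2.**  Proof (from `SH2M`).  `D' = G '' D0` for an affine equivalence `G`
(`IsSimplex.equiv`, Helper47/AQ/Affine.lean, `D0B`).  Let `B_{j o} = (1 - ell_j(li (G⁻¹ v_o)))/(n+1)`,
the barycentric coordinates of `G⁻¹ v_o` with respect to `D0`: `G⁻¹ v_o = ∑_j B_{j o} v_j`,
`∑_j B_{j o} = 1`, `B_{j o}` is an affine function `β_j` of `v_o`; `|det B| = |det (G⁻¹).linear| =
V(D0)/V(D')` (e.g. write `W = (v_o; 1)` for the `(n+1) × (n+1)` matrix with the columns `(v_o, 1)`: then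
`(G⁻¹ v_o; 1) = W B` and `= M W` with the matrix `M` of `G⁻¹` in homogeneous coordinates).
`s_j = ∑_o B_{j o} = (n+1) β_j(0)`, `∑ s_j = n + 1`.  `-v_o/n ∈ D'` gives
`β_j(-v_o/n) = (s_j - B_{j o})/n ≥ 0`; `v_o/(1+τ) ∈ D'` gives
`(B_{j o} + τ s_j/(n+1))/(1+τ) ≥ 0`; `0 ∈ D'` (centroid of the points `-v_o/n`) gives `s_j ≥ 0`.
So `SH2M` with `η = τ/(n+1)`. -/
def SH2 : Prop := ∀ n : ℕ, 1 ≤ n → ∃ C : ℝ, 0 ≤ C ∧ ∀ τ : ℝ, 0 < τ → τ ≤ 1 →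
  ∀ D' : Set (Fin n → ℝ), IsSimplex D' → Kt n τ ⊆ D' →
  (volume (D0 n)).toReal ≤ (1 + C * τ ^ 2) * (volume D').toReal

/-- **SH3.**  Proof.  `lin Y '' Kt ⊇ (1+τ)⁻¹ • lin Y '' D0` (`SH1`), so
`volume (lin Y '' D0) ≤ (1+τ)^d volume (lin Y '' Kt)`; take the `n`-th powers, inverses, and
integrate. -/
def SH3 : Prop := ∀ (n d : ℕ), 1 ≤ d → d < n → ∀ τ : ℝ, 0 < τ → τ ≤ 1 →
  IQ 1 (fK d (Kt n τ)) ≤ ENNReal.ofReal ((1 + τ) ^ (n * d)) * IQ 1 (fK d (D0 n))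

/-- **SHARP** (architect). -/
def SHARP : Prop := ∀ n d : ℕ, 1 ≤ d → d < n → ∀ c : ℝ, d / ((n : ℝ) - 1) < c →
  ∀ ε : ℝ, 0 < ε → ∃ K : Set (Fin n → ℝ), IsBody K ∧ K ⊆ D0 n ∧
  (1 - ε) * (volume (D0 n)).toReal ≤ (volume K).toReal ∧
  ∀ D' : Set (Fin n → ℝ), IsSimplex D' → K ⊆ D' →
    volume K ^ d * IQ 1 (fK d K) <
    ENNReal.ofReal (1 + c * (1 - (volume K).toReal / (volume D').toReal)) *
      (volume (Helper67.LM.T (Fin n)) ^ d * IQ 1 (fK d (Helper67.LM.T (Fin n))))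

end Pool.Agent.Helper31.LQ
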