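import Pool.Agent.Helper31.LQ.Goals

/-!
# Assembly of LOCAL
-/

open MeasureTheory Set
open scoped ENNReal Matrix
open Pool.Agent.Helper47.AQ

noncomputable section

namespace Pool.Agent.Helper31.LQ

/-- Bernoulli. -/
theorem bern (n : ℕ) (u : ℝ) (hu : u < 1) : 1 + n * u ≤ ((1 - u) ^ n)⁻¹ := by
  have h2 : 0 < 1 - u := by linarith
  by_cases h1 : -1 ≤ u
  · have h3 : 1 + u ≤ (1 - u)⁻¹ := by
      rw [← one_div, le_div_iff₀ h2]
      nlinarith [sq_nonneg u]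
    calc 1 + n * u ≤ (1 + u) ^ n := one_add_mul_le_pow (by linarith) n
      _ ≤ ((1 - u)⁻¹) ^ n := pow_le_pow_left₀ (by linarith) h3 n
      _ = ((1 - u) ^ n)⁻¹ := inv_pow _ _
  · push Not at h1
    rcases Nat.eq_zero_or_pos n with rfl | hn
    · simp
    · have h4 : (1 : ℝ) ≤ n := by exact_mod_cast hn
      have h5 : 1 + n * u ≤ 0 := by nlinarith
      have h6 : 0 ≤ ((1 - u) ^ n)⁻¹ := by positivity
      linarith

theorem arith (n d : ℕ) (r0 c κ1 δ Θ G : ℝ) (hc : 0 ≤ c)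
    (hr : (n : ℝ) * r0 - d = r0) (hr0 : 0 < r0) (hκr : κ1 ≤ r0)
    (hδ0 : 0 ≤ δ) (hΘ : δ ≤ Θ) (hG : 1 + n * (r0 - κ1) * Θ ≤ G)
    (hsmall : c + n * κ1 + d * n * r0 * δ ≤ r0) (hκ : 0 ≤ κ1) (hd1 : d * δ ≤ 1) (hδ1 : δ ≤ 1) :
    1 + c * δ ≤ (1 - δ) ^ d * G := by
  have h1 : 1 - d * δ ≤ (1 - δ) ^ d := by
    have := one_add_mul_le_pow (a := -δ) (by linarith) d
    calc 1 - d * δ = 1 + d * (-δ) := by ring
      _ ≤ (1 + -δ) ^ d := this
      _ = (1 - δ) ^ d := by ring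
  have h2 : 1 + n * (r0 - κ1) * δ ≤ G := by
    refine le_trans ?_ hG
    have h3 : 0 ≤ (n : ℝ) * (r0 - κ1) := mul_nonneg (Nat.cast_nonneg n) (by linarith)
    have := mul_le_mul_of_nonneg_left hΘ h3
    linarith
  have h3 : 0 ≤ 1 - d * δ := by linarith
  have h4 : 0 ≤ 1 + n * (r0 - κ1) * δ := by
    have : 0 ≤ (n : ℝ) * (r0 - κ1) * δ :=
      mul_nonneg (mul_nonneg (Nat.cast_nonneg n) (by linarith)) hδ0
    linarith
  have h5 : (1 - d * δ) * (1 + n * (r0 - κ1) * δ) ≤ (1 - δ) ^ d * G :=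
    mul_le_mul h1 h2 h4 (le_trans h3 h1)
  refine le_trans ?_ h5
  have h6 : (1 - d * δ) * (1 + n * (r0 - κ1) * δ) =
      1 + (r0 - n * κ1 - d * n * r0 * δ) * δ + d * n * κ1 * δ * δ := by
    have h7 : (n : ℝ) * r0 = r0 + d := by linarith
    have : (1 - d * δ) * (1 + n * (r0 - κ1) * δ) =
      1 + (n * r0 - d - n * κ1) * δ - d * (n * r0) * δ * δ + d * n * κ1 * δ * δ := by ring
    rw [this]
    have h8 : (n : ℝ) * r0 - d - n * κ1 = r0 - n * κ1 := by linarith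
    rw [h8]
    ring
  rw [h6]
  have h7 : c * δ ≤ (r0 - n * κ1 - d * n * r0 * δ) * δ :=
    mul_le_mul_of_nonneg_right (by linarith) hδ0
  have h8 : 0 ≤ (d : ℝ) * n * κ1 * δ * δ := by positivity
  linarith

/-- The choice of the parameters. -/
theorem arith2 (d : ℕ) (r0 κ1 M M' C τ θ β ρ A B Θ X : ℝ) (hr0 : 0 < r0) (hκ0 : 0 < κ1)
    (hκ1 : κ1 ≤ r0) (hM' : 0 < M') (hM : 0 ≤ M) (hC : 0 ≤ C) (hτ0 : 0 ≤ τ)
    (hθ : θ = κ1 / (4 * r0)) (hβ : β = κ1 / (4 * r0)) (hρ : 1 - θ ≤ ρ)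
    (hA : r0 * Θ ≤ A + C * (M * τ) * B) (hΘ : 0 ≤ Θ) (hB : 0 ≤ B)
    (hX : X = (1 - β) * (A - M' * τ * d * Θ) + β / M' * B)
    (hτ1 : ((d + 1) * r0 + M' * d) * τ ≤ κ1 / 2) (hτ2 : C * M * τ ≤ β / M')
    (hτ3 : ((d : ℝ) + 1) * τ ≤ 1) :
    0 ≤ X ∧ (r0 - κ1) * Θ ≤ ((1 + τ) ^ (d + 1))⁻¹ * (ρ * X) := by
  have hβ0 : 0 ≤ β := by rw [hβ]; positivity
  have hβ1 : β ≤ 1 / 4 := by
    rw [hβ, div_le_iff₀ (by positivity)]
    linarith
  have hd : (0 : ℝ) ≤ d := Nat.cast_nonneg d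
  have h1 : (1 - β) * ((r0 - M' * τ * d) * Θ) ≤ X := by
    have h2 : (1 - β) * (r0 * Θ) ≤ (1 - β) * (A + C * (M * τ) * B) :=
      mul_le_mul_of_nonneg_left hA (by linarith)
    have h3 : (1 - β) * (C * (M * τ) * B) ≤ β / M' * B := by
      have h4 : (1 - β) * (C * (M * τ)) ≤ β / M' := by
        have h5 : 0 ≤ C * M * τ := by positivity
        nlinarith
      have := mul_le_mul_of_nonneg_right h4 hB
      linarith
    rw [hX]
    nlinarith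
  have h2 : r0 - κ1 / 2 ≤ (1 - ((d : ℝ) + 1) * τ) * (r0 - M' * τ * d) := by
    have h3 : 0 ≤ ((d : ℝ) + 1) * τ * (M' * τ * d) := by positivity
    nlinarith
  have h3 : 0 ≤ r0 - M' * τ * d := by
    have h4 : (0 : ℝ) ≤ (d + 1) * r0 * τ := by positivity
    nlinarith
  have hX0 : 0 ≤ X := le_trans (mul_nonneg (by linarith) (mul_nonneg h3 hΘ)) h1
  refine ⟨hX0, ?_⟩
  have hl : 1 - ((d : ℝ) + 1) * τ ≤ ((1 + τ) ^ (d + 1))⁻¹ := by
    rw [← one_div, le_div_iff₀ (by positivity)]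
    have h5 : (1 + τ) ^ (d + 1) ≤ (Real.exp τ) ^ (d + 1) :=
      pow_le_pow_left₀ (by linarith) (by linarith [Real.add_one_le_exp τ]) _
    have h6 : (Real.exp τ) ^ (d + 1) = Real.exp (((d : ℝ) + 1) * τ) := by
      rw [← Real.exp_nat_mul]
      push_cast
      ring_nf
    have h7 : 1 - ((d : ℝ) + 1) * τ ≤ Real.exp (-(((d : ℝ) + 1) * τ)) := by
      have := Real.add_one_le_exp (-(((d : ℝ) + 1) * τ))
      linarith
    calc (1 - ((d : ℝ) + 1) * τ) * (1 + τ) ^ (d + 1)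
        ≤ Real.exp (-(((d : ℝ) + 1) * τ)) * Real.exp (((d : ℝ) + 1) * τ) := by
          rw [← h6]
          exact mul_le_mul h7 h5 (by positivity) (Real.exp_nonneg _)
      _ = 1 := by rw [← Real.exp_add]; simp
  have hθ1 : 0 ≤ 1 - θ := by rw [hθ, ← hβ]; linarith
  have h8 : (1 - ((d : ℝ) + 1) * τ) * ((1 - θ) * ((1 - β) * ((r0 - M' * τ * d) * Θ))) ≤
      ((1 + τ) ^ (d + 1))⁻¹ * (ρ * X) := by
    have h9 : (1 - θ) * ((1 - β) * ((r0 - M' * τ * d) * Θ)) ≤ ρ * X :=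
      mul_le_mul hρ h1 (mul_nonneg (by linarith) (mul_nonneg h3 hΘ)) (by linarith)
    refine mul_le_mul hl h9 (mul_nonneg hθ1 (mul_nonneg (by linarith) (mul_nonneg h3 hΘ))) ?_
    positivity
  refine le_trans ?_ h8
  have h9 : (1 - ((d : ℝ) + 1) * τ) * ((1 - θ) * ((1 - β) * ((r0 - M' * τ * d) * Θ))) =
      ((1 - θ) * (1 - β)) * ((1 - ((d : ℝ) + 1) * τ) * (r0 - M' * τ * d)) * Θ := by ring
  rw [h9]
  refine mul_le_mul_of_nonneg_right ?_ hΘ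
  have h10 : 1 - κ1 / (2 * r0) ≤ (1 - θ) * (1 - β) := by
    have : κ1 / (2 * r0) = θ + β := by rw [hθ, hβ]; field_simp; ring
    rw [this]
    have : 0 ≤ θ * β := by rw [hθ, ← hβ]; positivity
    nlinarith
  have h11 : r0 - κ1 ≤ (1 - κ1 / (2 * r0)) * (r0 - κ1 / 2) := by
    have : (1 - κ1 / (2 * r0)) * (r0 - κ1 / 2) = r0 - κ1 + κ1 ^ 2 / (4 * r0) := by
      field_simp
      ring
    rw [this]
    have : 0 ≤ κ1 ^ 2 / (4 * r0) := by positivity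
    linarith
  refine le_trans h11 (mul_le_mul h10 h2 (by linarith) (mul_nonneg hθ1 (by linarith)))

end Pool.Agent.Helper31.LQ
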