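import Pool.Agent.Helper67.LM.Core

/-!
The case i = 1 of the sharp lower bound of the volume by the affine quermassintegrals, for all convex
bodies which nearly fill a simplex containing them: the simplex is a strict local minimiser, with
stability.
-/

open MeasureTheory Set
open Pool.Agent.Helper47.AQ

namespace Pool.Agent.Results.MP_6fb600_gt.NearSimplices

/-- For every n there are ε > 0 and c > 0 such that the inequality
a Φ(K) ≤ κ^{(n-1)/n} V(K)^{1/n} with the constant a of the simplex holds for every convex body K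
contained in a simplex D with V(K) ≥ (1 - ε) V(D), with equality exactly if K is a simplex, and
V(K) V((K-K)°) ≥ (n+1)/n! (1 + c (1 - V(K)/V(D'))) for some simplex D' containing K. -/
theorem result (n : ℕ) (hn : 1 ≤ n) : ∃ ε : ℝ, 0 < ε ∧ ∃ c : ℝ, 0 < c ∧
    ∀ K : Set (Fin n → ℝ), IsBody K → ∀ D : Set (Fin n → ℝ), IsSimplex D → K ⊆ D →
      (1 - ε) * (volume D).toReal ≤ (volume K).toReal →
      aC n * Phi K ≤ kap n ^ (((n : ℝ) - 1) / n) * (volume K).toReal ^ (1 / (n : ℝ)) ∧
      (aC n * Phi K = kap n ^ (((n : ℝ) - 1) / n) * (volume K).toReal ^ (1 / (n : ℝ)) ↔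
        IsSimplex K) ∧
      ∃ D' : Set (Fin n → ℝ), IsSimplex D' ∧ K ⊆ D' ∧
        ((n : ℝ) + 1) / (n.factorial : ℝ) *
          (1 + c * (1 - (volume K).toReal / (volume D').toReal)) ≤
        (volume K).toReal * (volume (dpol K)).toReal := by
  have hne : Nonempty (Fin n) := Fin.pos_iff_nonempty.1 hn
  obtain ⟨ε, hε, c, hc, h⟩ := Pool.Agent.Helper67.LM.local_min (ι := Fin n)
  refine ⟨ε, hε, c, hc, fun K hK D hD hKD hvol => ?_⟩
  obtain ⟨D', hD', hKD', h1⟩ := h K hK D hD hKD hvol
  simp only [Fintype.card_fin] at h1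
  have hf : (0 : ℝ) < (n.factorial : ℝ) := by exact_mod_cast n.factorial_pos
  have hF0 : (0 : ℝ) < ((n : ℝ) + 1) / (n.factorial : ℝ) := by positivity
  have hDv : 0 < (volume D').toReal := hD'.isBody.vol_pos
  have hratio : (volume K).toReal / (volume D').toReal ≤ 1 := by
    rw [div_le_one hDv]
    exact ENNReal.toReal_mono hD'.isBody.vol_ne_top (measure_mono hKD')
  have hle : ((n : ℝ) + 1) / (n.factorial : ℝ) ≤ F K := by
    refine le_trans ?_ h1
    have h2 : 0 ≤ c * (1 - (volume K).toReal / (volume D').toReal) :=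
      mul_nonneg hc.le (by linarith)
    exact le_mul_of_one_le_right hF0.le (by linarith)
  obtain ⟨h4, h5⟩ := hK.Phi_iff
  simp only [Fintype.card_fin] at h4 h5
  refine ⟨h4.2 hle, ⟨fun h6 => ?_, fun h6 => h5.2 ?_⟩, D', hD', hKD', h1⟩
  · have h7 := h5.1 h6
    rw [h7] at h1
    have h8 : ((n : ℝ) + 1) / (n.factorial : ℝ) *
        (1 + c * (1 - (volume K).toReal / (volume D').toReal)) ≤
        ((n : ℝ) + 1) / (n.factorial : ℝ) * 1 := by rw [mul_one]; exact h1
    have h9 := le_of_mul_le_mul_left h8 hF0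
    have h10 : c * (1 - (volume K).toReal / (volume D').toReal) ≤ 0 := by linarith
    have h11 : 1 - (volume K).toReal / (volume D').toReal ≤ 0 := by
      by_contra hcon
      push Not at hcon
      have := mul_pos hc hcon
      linarith
    have h12 : (volume D').toReal ≤ (volume K).toReal := by
      have h13 : 1 ≤ (volume K).toReal / (volume D').toReal := by linarith
      rwa [one_le_div hDv] at h13
    rw [Pool.Agent.Helper67.LM.eq_of_vol_eq hK hD'.isBody hKD' h12]
    exact hD'
  · have h7 := h6.F_eq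
    simpa using h7

end Pool.Agent.Results.MP_6fb600_gt.NearSimplices
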