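import Pool.Agent.Helper31.LQ.Defs

/-!
# Definitions of the final statement (with `E`, `Body`, `Splx`, `grassMean`, `kap`, `stdS` of
`Defs.lean`)
-/

open MeasureTheory Set
open scoped ENNReal

noncomputable section

namespace Pool.Agent.Helper31.LQ.St

/-- The Lebesgue measure of a Euclidean space `F`: the Haar measure for which the unit cube of an
orthonormal basis has measure one. -/
def lebesgue (F : Type) [NormedAddCommGroup F] [InnerProductSpace ℝ F] [FiniteDimensional ℝ F]
    [MeasurableSpace F] [BorelSpace F] : Measure F :=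
  (stdOrthonormalBasis ℝ F).toBasis.addHaar

/-- The orthogonal projection `K|S` of `K` onto the subspace `S`. -/
def proj {F : Type} [NormedAddCommGroup F] [InnerProductSpace ℝ F] [FiniteDimensional ℝ F]
    (K : Set F) (S : Submodule ℝ F) : Set S :=
  (fun x : F => S.orthogonalProjectionOnto x) '' K

/-- The Lebesgue measure of `K|S`. -/
def pvol {F : Type} [NormedAddCommGroup F] [InnerProductSpace ℝ F] [FiniteDimensional ℝ F]
    [MeasurableSpace F] [BorelSpace F] (K : Set F) (S : Submodule ℝ F) : ℝ≥0∞ :=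
  lebesgue S (proj K S)

/-- `∫_{G(n,i)} λ_i(K|S)^{-n} dS`. -/
def mom (n i : ℕ) (K : Set (E n)) : ℝ≥0∞ := grassMean n i fun S => (pvol K S ^ n)⁻¹

/-- The affine quermassintegral `Φ_{n-i}(K)`. -/
def Phi (n i : ℕ) (K : Set (E n)) : ℝ :=
  kap n / kap i * (mom n i K).toReal ^ (-(1 / (n : ℝ)))

/-- `κ_n^{(n-i)/n} V(K)^{i/n}`, the right side of the inequality of the problem. -/
def rhs (n i : ℕ) (K : Set (E n)) : ℝ :=
  kap n ^ (((n : ℝ) - i) / n) * (volume K).toReal ^ ((i : ℝ) / n)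

/-- The constant for which the standard simplex gives equality. -/
def aS (n i : ℕ) : ℝ := rhs n i (stdS n) / Phi n i (stdS n)

/-- `K` is contained in a simplex `D` with `V(K) ≥ (1 - ε) V(D)`. -/
def Near {n : ℕ} (ε : ℝ) (K : Set (E n)) : Prop :=
  ∃ D : Set (E n), Splx D ∧ K ⊆ D ∧ (1 - ε) * (volume D).toReal ≤ (volume K).toReal

/-- `V(K)^i ∫_{G(n,i)} λ_i(K|S)^{-n} dS`. -/
def J (n i : ℕ) (K : Set (E n)) : ℝ := (volume K).toReal ^ i * (mom n i K).toReal

/-- `J(K) ≥ (1 + c (1 - V(K)/V(D'))) J(T)`, `T` the standard simplex, for some simplex `D'`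
containing `K`. -/
def Gap {n : ℕ} (i : ℕ) (c : ℝ) (K : Set (E n)) : Prop :=
  ∃ D' : Set (E n), Splx D' ∧ K ⊆ D' ∧
    (1 + c * (1 - (volume K).toReal / (volume D').toReal)) * J n i (stdS n) ≤ J n i K

theorem mom_eq (n i : ℕ) (K : Set (E n)) : mom n i K = Pool.Agent.Helper31.LQ.mom n i K := rfl

theorem Phi_eq (n i : ℕ) (K : Set (E n)) : Phi n i K = Pool.Agent.Helper31.LQ.Phi n i K := rfl

theorem aS_eq (n i : ℕ) : aS n i = Pool.Agent.Helper31.LQ.aS n i := rfl

end Pool.Agent.Helper31.LQ.St
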